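import Pool.Agent.K4H47.HS.Mat3
import Pool.Agent.Y891.NK.POT

/-!
# Project HS: the integral over `t` of the logarithm of the determinant of `1 - t⁴ F⁴`
-/

set_option autoImplicit false

namespace Pool.Agent.K4H47.HS

open MeasureTheory Set Metric Filter Topology
open scoped ENNReal NNReal
open Pool.Agent.Y283.NK Pool.Agent.Y891.NK

theorem one_factor4 (m : Measure ℂ) (hm : LogBd m) (R : ℝ) : ∃ C : ℝ≥0, ∀ μ : ℂ,
    ∫⁻ t in ball (0:ℂ) R, lm ‖1 - t ^ 4 * μ ^ 4‖ ∂m ≤ C * ENNReal.ofReal (ps ‖μ‖) := by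
  obtain ⟨C0, hmass, hpot⟩ := hm R
  obtain ⟨C1, hC1⟩ := one_factor m hm R
  obtain ⟨R1, hR1⟩ : ∃ R1 : ℝ, R1 = max R 1 := ⟨_, rfl⟩
  have hR1R : R ≤ R1 := by rw [hR1]; exact le_max_left _ _
  have hR11 : 1 ≤ R1 := by rw [hR1]; exact le_max_right _ _
  have hR10 : 0 < R1 := by linarith
  refine ⟨C0 * (2 * R1 ^ 4).toNNReal + 4 * C1 * ((2 * R1) ^ 3).toNNReal, fun μ => ?_⟩
  have hps0 := ps_nonneg (norm_nonneg μ)
  rcases le_or_gt ‖μ‖ (1 / (2 * R1)) with hμ | hμ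
  · have hx1 : ‖μ‖ ≤ 1 := hμ.trans (by rw [div_le_iff₀ (by positivity)]; linarith)
    have hps : ps ‖μ‖ = ‖μ‖ ^ 4 := by
      unfold ps
      refine min_eq_right ?_
      have h3 : ‖μ‖ ^ 3 ≤ 1 := pow_le_one₀ (norm_nonneg _) hx1
      nlinarith [norm_nonneg μ]
    have hb : ∀ t ∈ ball (0:ℂ) R, lm ‖1 - t ^ 4 * μ ^ 4‖ ≤
        ENNReal.ofReal (2 * R1 ^ 4 * ps ‖μ‖) := by
      intro t ht
      rw [mem_ball_zero_iff] at ht
      obtain ⟨y, hy⟩ : ∃ y : ℝ, y = ‖t ^ 4 * μ ^ 4‖ := ⟨_, rfl⟩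
      have hy0 : 0 ≤ y := by rw [hy]; positivity
      have hz1 : ‖t‖ * ‖μ‖ ≤ R1 * ‖μ‖ := by
        gcongr
        linarith
      have hz2 : R1 * ‖μ‖ ≤ 1 / 2 := by
        calc R1 * ‖μ‖ ≤ R1 * (1 / (2 * R1)) := by gcongr
          _ = 1 / 2 := by field_simp
      have hy1 : y ≤ (R1 * ‖μ‖) ^ 4 := by
        rw [hy, norm_mul, norm_pow, norm_pow, ← mul_pow]
        exact pow_le_pow_left₀ (by positivity) hz1 4
      have hy2 : y ≤ 1 / 2 := by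
        have : (R1 * ‖μ‖) ^ 4 ≤ (1 / 2) ^ 4 := pow_le_pow_left₀ (by positivity) hz2 4
        norm_num at this ⊢
        linarith
      have h1 : 1 - y ≤ ‖1 - t ^ 4 * μ ^ 4‖ := by
        have := norm_sub_norm_le (1 : ℂ) (t ^ 4 * μ ^ 4)
        rw [norm_one, ← hy] at this
        exact this
      have h2 : 0 < 1 - y := by linarith
      refine (lm_anti h2.le h1).trans ?_
      refine (lm_le_of_exp h2 (y := 2 * y) (by positivity) ?_).trans ?_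
      · have h3 := Real.add_one_le_exp (2 * y)
        refine le_trans ?_ h3
        rw [inv_le_iff_one_le_mul₀ h2]
        nlinarith
      · apply ENNReal.ofReal_le_ofReal
        rw [hps]
        rw [mul_pow] at hy1
        linarith
    calc ∫⁻ t in ball (0:ℂ) R, lm ‖1 - t ^ 4 * μ ^ 4‖ ∂m
        ≤ ∫⁻ t in ball (0:ℂ) R, ENNReal.ofReal (2 * R1 ^ 4 * ps ‖μ‖) ∂m :=
          setLIntegral_mono' measurableSet_ball hb
      _ = ENNReal.ofReal (2 * R1 ^ 4 * ps ‖μ‖) * m (ball (0:ℂ) R) := setLIntegral_const _ _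
      _ ≤ ENNReal.ofReal (2 * R1 ^ 4 * ps ‖μ‖) * C0 := by gcongr
      _ = ((C0 * (2 * R1 ^ 4).toNNReal : ℝ≥0) : ℝ≥0∞) * ENNReal.ofReal (ps ‖μ‖) := by
          rw [ENNReal.ofReal_mul (by positivity), ENNReal.coe_mul]
          have : ((2 * R1 ^ 4).toNNReal : ℝ≥0∞) = ENNReal.ofReal (2 * R1 ^ 4) := rfl
          rw [this]
          ring
      _ ≤ _ := by
          gcongr
          exact le_self_add
  · have hμ0 : 0 < ‖μ‖ := lt_trans (by positivity) hμ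
    have hμ1 : 1 ≤ 2 * R1 * ‖μ‖ := by
      rw [div_lt_iff₀ (by positivity)] at hμ
      linarith
    have hps : ‖μ‖ ≤ (2 * R1) ^ 3 * ps ‖μ‖ := by
      unfold ps
      rw [mul_min_of_nonneg _ _ (by positivity)]
      refine le_min ?_ ?_
      · have h3 : 1 ≤ (2 * R1) ^ 3 := one_le_pow₀ (by linarith)
        nlinarith
      · have h3 : 1 ≤ (2 * R1 * ‖μ‖) ^ 3 := one_le_pow₀ hμ1
        calc ‖μ‖ = 1 * ‖μ‖ := (one_mul _).symm
          _ ≤ (2 * R1 * ‖μ‖) ^ 3 * ‖μ‖ := by gcongr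
          _ = _ := by ring
    have hfac : ∀ t : ℂ, ‖1 - t ^ 4 * μ ^ 4‖ = ‖1 - t * μ‖ * ‖1 - t * (-μ)‖ *
        (‖1 - t * (Complex.I * μ)‖ * ‖1 - t * (-(Complex.I * μ))‖) := by
      intro t
      rw [← norm_mul, ← norm_mul, ← norm_mul]
      congr 1
      have hI : Complex.I ^ 2 = -1 := Complex.I_sq
      calc 1 - t ^ 4 * μ ^ 4 = (1 - t ^ 2 * μ ^ 2) * (1 - (-1) * (t ^ 2 * μ ^ 2)) := by ring
        _ = (1 - t ^ 2 * μ ^ 2) * (1 - Complex.I ^ 2 * (t ^ 2 * μ ^ 2)) := by rw [hI]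
        _ = _ := by ring
    have hmeas : ∀ w : ℂ, Measurable fun t : ℂ => lm ‖1 - t * w‖ := fun w =>
      measurable_lm.comp (by fun_prop)
    have hle : ∀ w : ℂ, ‖w‖ = ‖μ‖ →
        ∫⁻ t in ball (0:ℂ) R, lm ‖1 - t * w‖ ∂m ≤ C1 * ENNReal.ofReal ‖μ‖ := by
      intro w hw
      rw [← hw]
      exact hC1 w
    calc ∫⁻ t in ball (0:ℂ) R, lm ‖1 - t ^ 4 * μ ^ 4‖ ∂m
        ≤ ∫⁻ t in ball (0:ℂ) R, ((lm ‖1 - t * μ‖ + lm ‖1 - t * (-μ)‖) +
          (lm ‖1 - t * (Complex.I * μ)‖ + lm ‖1 - t * (-(Complex.I * μ))‖)) ∂m := by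
          refine lintegral_mono fun t => ?_
          rw [hfac]
          refine (lm_mul _ _).trans (add_le_add (lm_mul _ _) (lm_mul _ _))
      _ = (∫⁻ t in ball (0:ℂ) R, lm ‖1 - t * μ‖ ∂m +
            ∫⁻ t in ball (0:ℂ) R, lm ‖1 - t * (-μ)‖ ∂m) +
          (∫⁻ t in ball (0:ℂ) R, lm ‖1 - t * (Complex.I * μ)‖ ∂m +
            ∫⁻ t in ball (0:ℂ) R, lm ‖1 - t * (-(Complex.I * μ))‖ ∂m) := by
          have hadd : ∀ f g : ℂ → ℝ≥0∞, Measurable f → ∫⁻ t in ball (0:ℂ) R, (f t + g t) ∂m =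
              ∫⁻ t in ball (0:ℂ) R, f t ∂m + ∫⁻ t in ball (0:ℂ) R, g t ∂m :=
            fun f g hf => lintegral_add_left hf g
          rw [hadd (fun t => lm ‖1 - t * μ‖ + lm ‖1 - t * (-μ)‖) _ ((hmeas _).add (hmeas _)),
            hadd _ _ (hmeas _), hadd _ _ (hmeas _)]
      _ ≤ (C1 * ENNReal.ofReal ‖μ‖ + C1 * ENNReal.ofReal ‖μ‖) +
          (C1 * ENNReal.ofReal ‖μ‖ + C1 * ENNReal.ofReal ‖μ‖) := by
          refine add_le_add (add_le_add (hle _ rfl) (hle _ (norm_neg _)))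
            (add_le_add (hle _ ?_) (hle _ ?_))
          · rw [norm_mul, Complex.norm_I, one_mul]
          · rw [norm_neg, norm_mul, Complex.norm_I, one_mul]
      _ = 4 * C1 * ENNReal.ofReal ‖μ‖ := by ring
      _ ≤ 4 * C1 * ENNReal.ofReal ((2 * R1) ^ 3 * ps ‖μ‖) := by gcongr
      _ = ((4 * C1 * ((2 * R1) ^ 3).toNNReal : ℝ≥0) : ℝ≥0∞) * ENNReal.ofReal (ps ‖μ‖) := by
          rw [ENNReal.ofReal_mul (by positivity)]
          push_cast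
          have : (((2 * R1) ^ 3).toNNReal : ℝ≥0∞) = ENNReal.ofReal ((2 * R1) ^ 3) := rfl
          rw [this]
          ring
      _ ≤ _ := by
          gcongr
          exact le_add_self

/-- the integral over `t` of the logarithm of the determinant of `1 - t⁴ F⁴` -/
theorem pot4 (m : Measure ℂ) (hm : LogBd m) (R : ℝ) : ∃ C : ℝ≥0, ∀ (n : ℕ)
    (F : Matrix (Fin n) (Fin n) ℂ) (Γ : ℝ), Gam F Γ →
    ∫⁻ t in ball (0:ℂ) R, lm ‖dd F t‖ ∂m ≤ C * ENNReal.ofReal Γ := by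
  obtain ⟨C, hC⟩ := one_factor4 m hm R
  refine ⟨C, fun n F Γ h => ?_⟩
  obtain ⟨μ, h1, h2⟩ := eig h
  calc ∫⁻ t in ball (0:ℂ) R, lm ‖dd F t‖ ∂m
      ≤ ∫⁻ t in ball (0:ℂ) R, ∑ k, lm ‖1 - t ^ 4 * μ k ^ 4‖ ∂m := by
        refine lintegral_mono fun t => ?_
        rw [h1, norm_prod]
        exact lm_prod _ _
    _ = ∑ k, ∫⁻ t in ball (0:ℂ) R, lm ‖1 - t ^ 4 * μ k ^ 4‖ ∂m := by
        refine lintegral_finsetSum _ fun k _ => ?_
        exact measurable_lm.comp (by fun_prop)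
    _ ≤ ∑ k, C * ENNReal.ofReal (ps ‖μ k‖) := Finset.sum_le_sum fun k _ => hC (μ k)
    _ = C * ENNReal.ofReal (∑ k, ps ‖μ k‖) := by
        rw [← Finset.mul_sum, ENNReal.ofReal_sum_of_nonneg fun k _ => ps_nonneg (norm_nonneg _)]
    _ ≤ _ := by gcongr

end Pool.Agent.K4H47.HS
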