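import Pool.Agent.K4H47.HS.CoreB

/-!
# Project HS: vectors obtained by integrating the formal local resolvent over a disc, main theorem
-/

set_option autoImplicit false

namespace Pool.Agent.K4H47.HS.CB

open MeasureTheory Set Metric Filter Topology
open scoped InnerProductSpace ENNReal NNReal ComplexConjugate
open Pool.Agent.Y283.NK Pool.Agent.K4H47.HS.CA

variable {S : Type} [MeasurableSpace S] {μ : Measure S} {Θ : Type} [MeasurableSpace Θ]
  {nu : Measure Θ} [IsFiniteMeasure nu]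

section step

variable [SigmaFinite μ] {φ : S → ℂ} {N : Lp ℂ 2 μ →L[ℂ] Lp ℂ 2 μ} (hN : IsMul φ N)
  (u : ℕ → Lp ℂ 2 μ) (n : ℕ) (x : Lp ℂ 2 μ) (t c : ℂ) {z : Θ → ℂ} (hz : Measurable z) {A : ℝ}
  {h : Θ → ℂ} {g : ℕ → Θ → ℂ} (hA : 0 ≤ A)
  (hWE : ∫⁻ s, ENNReal.ofReal (W u x n s) ^ 2 * E nu z φ s ^ 2 ∂μ ≤ ENNReal.ofReal (A ^ 2))
  (hh : Measurable h) (hg : ∀ j, Measurable (g j)) (hh1 : ∀ θ, ‖h θ‖ ≤ 1)
  (hg1 : ∀ θ, ∑ j ∈ Finset.range n, ‖g j θ‖ ^ 2 ≤ 1)

include hN hz hWE hh hg hh1 hg1 in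
/-- the inner products -/
theorem inner_y (y : Lp ℂ 2 μ) {k : Θ → ℂ} (hk : Measurable k) {κ : ℝ} (hκ : 0 ≤ κ)
    (hk1 : ∀ θ, ‖k θ‖ ≤ κ) :
    ∫ s, conj (y s) * Y nu z φ (fun p => k p.1 * P u x n t h g p) s ∂μ
      = ∫ θ, k θ * (h θ * ct φ y x (z θ) +
        t * ∑ j ∈ Finset.range n, ct φ y (u j) (z θ) * g j θ) ∂nu := by
  have hφ := hN.meas
  rw [Y_inner nu hz hφ (W_meas u x n) hWE (P_dom u x n t hh hg hh1 hg1 hk hκ hk1) y]
  refine integral_congr_ae ?_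
  have dx : Dom (W u x n) 1 (fun p : Θ × S => x p.2) :=
    ⟨(Lp.stronglyMeasurable x).measurable.comp measurable_snd, zero_le_one,
      fun p => by rw [one_mul]; exact x_le u x n p.2⟩
  have du : ∀ j < n, Dom (W u x n) 1 (fun p : Θ × S => u j p.2) := fun j hj =>
    ⟨(Lp.stronglyMeasurable (u j)).measurable.comp measurable_snd, zero_le_one,
      fun p => by rw [one_mul]; exact u_le u x n p.2 hj⟩
  have ix := (int_prod nu hz hφ (W_meas u x n) hWE dx y).prod_right_ae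
  have iu : ∀ᵐ θ ∂nu, ∀ j ∈ Finset.range n,
      Integrable (fun s => conj (y s) * (u j s * (z θ - φ s)⁻¹)) μ := by
    refine (Filter.eventually_all_finset _).mpr (fun j hj => ?_)
    exact (int_prod nu hz hφ (W_meas u x n) hWE (du j (Finset.mem_range.mp hj)) y).prod_right_ae
  filter_upwards [ix, iu] with θ h1 h2
  have e : ∀ s, conj (y s) * (k θ * P u x n t h g (θ, s) * (z θ - φ s)⁻¹)
      = (k θ * h θ) * (conj (y s) * (x s * (z θ - φ s)⁻¹)) + ∑ j ∈ Finset.range n,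
        (k θ * t * g j θ) * (conj (y s) * (u j s * (z θ - φ s)⁻¹)) := by
    intro s
    unfold P
    rw [mul_add, Finset.mul_sum, Finset.mul_sum, add_mul, mul_add, Finset.sum_mul, Finset.mul_sum]
    congr 1
    · ring
    · exact Finset.sum_congr rfl (fun j _ => by ring)
  calc ∫ s, conj (y s) * (k θ * P u x n t h g (θ, s) * (z θ - φ s)⁻¹) ∂μ
      = ∫ s, ((k θ * h θ) * (conj (y s) * (x s * (z θ - φ s)⁻¹)) + ∑ j ∈ Finset.range n,
        (k θ * t * g j θ) * (conj (y s) * (u j s * (z θ - φ s)⁻¹))) ∂μ :=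
        integral_congr_ae (Eventually.of_forall e)
    _ = (k θ * h θ) * ct φ y x (z θ) + ∑ j ∈ Finset.range n,
        (k θ * t * g j θ) * ct φ y (u j) (z θ) := by
        rw [integral_add (h1.const_mul _)
          (integrable_finsetSum _ (fun j hj => (h2 j hj).const_mul _)),
          integral_const_mul, integral_finsetSum _ (fun j hj => (h2 j hj).const_mul _)]
        congr 1
        · congr 1
          unfold ct
          exact integral_congr_ae (Eventually.of_forall (fun s => by simp only [mul_assoc]))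
        · refine Finset.sum_congr rfl (fun j _ => ?_)
          rw [integral_const_mul]
          congr 1
          unfold ct
          exact integral_congr_ae (Eventually.of_forall (fun s => by simp only [mul_assoc]))
    _ = _ := by
        rw [mul_add, Finset.mul_sum, Finset.mul_sum]
        congr 1
        · ring
        · exact Finset.sum_congr rfl (fun j _ => by ring)

include hN hz hA hWE hh hg hh1 hg1 in
/-- the bound of the norm -/
theorem X_norm2 {Q : ℝ} (hQ0 : 0 ≤ Q)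
    (hQ : ∀ y : Lp ℂ 2 μ, ‖y‖ ≤ 1 → ∫⁻ θ, ‖h θ * ct φ y x (z θ) +
        t * ∑ j ∈ Finset.range n, ct φ y (u j) (z θ) * g j θ‖ₑ ∂nu ≤ ENNReal.ofReal Q)
    {k : Θ → ℂ} (hk : Measurable k) {κ : ℝ} (hκ : 0 ≤ κ) (hk1 : ∀ θ, ‖k θ‖ ≤ κ) :
    ‖X (μ := μ) nu u n x t z φ h g k‖ ≤ κ * Q := by
  set X0 := X (μ := μ) nu u n x t z φ h g k with hX0
  have key : ∀ y : Lp ℂ 2 μ, ‖y‖ ≤ 1 → ‖⟪y, X0⟫_ℂ‖ ≤ κ * Q := by
    intro y hy
    have h1 : ⟪y, X0⟫_ℂ = ∫ θ, k θ * (h θ * ct φ y x (z θ) +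
        t * ∑ j ∈ Finset.range n, ct φ y (u j) (z θ) * g j θ) ∂nu := by
      rw [← inner_y hN u n x t hz hWE hh hg hh1 hg1 y hk hκ hk1, L2.inner_def]
      refine integral_congr_ae ?_
      filter_upwards [X_coe hN u n x t hz hA hWE hh hg hh1 hg1 hk hκ hk1] with s hs
      rw [hX0, hs, RCLike.inner_apply, mul_comm]
    rw [h1]
    have h2 : ‖∫ θ, k θ * (h θ * ct φ y x (z θ) +
        t * ∑ j ∈ Finset.range n, ct φ y (u j) (z θ) * g j θ) ∂nu‖ₑ ≤ ENNReal.ofReal (κ * Q) := by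
      calc _ ≤ ∫⁻ θ, ‖k θ * (h θ * ct φ y x (z θ) +
            t * ∑ j ∈ Finset.range n, ct φ y (u j) (z θ) * g j θ)‖ₑ ∂nu :=
            enorm_integral_le_lintegral_enorm _
        _ ≤ ∫⁻ θ, ENNReal.ofReal κ * ‖h θ * ct φ y x (z θ) +
            t * ∑ j ∈ Finset.range n, ct φ y (u j) (z θ) * g j θ‖ₑ ∂nu := by
            refine lintegral_mono fun θ => ?_
            rw [enorm_mul]
            refine mul_le_mul' ?_ le_rfl
            rw [← ofReal_norm]
            exact ENNReal.ofReal_le_ofReal (hk1 θ)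
        _ = ENNReal.ofReal κ * ∫⁻ θ, ‖h θ * ct φ y x (z θ) +
            t * ∑ j ∈ Finset.range n, ct φ y (u j) (z θ) * g j θ‖ₑ ∂nu :=
            lintegral_const_mul' _ _ ENNReal.ofReal_ne_top
        _ ≤ ENNReal.ofReal κ * ENNReal.ofReal Q := mul_le_mul' le_rfl (hQ y hy)
        _ = _ := (ENNReal.ofReal_mul hκ).symm
    rw [← ofReal_norm] at h2
    exact (ENNReal.ofReal_le_ofReal_iff (by positivity)).1 h2
  rcases (norm_nonneg X0).eq_or_lt with h0 | h0
  · rw [← h0]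
    positivity
  · have h1 := key (((‖X0‖⁻¹ : ℝ) : ℂ) • X0) (by
      rw [norm_smul, Complex.norm_real, Real.norm_eq_abs, abs_of_pos (inv_pos.2 h0),
        inv_mul_cancel₀ h0.ne'])
    rw [inner_smul_left, Complex.conj_ofReal, norm_mul, Complex.norm_real, Real.norm_eq_abs,
      abs_of_pos (inv_pos.2 h0), inner_self_eq_norm_sq_to_K] at h1
    have h2 : ‖((‖X0‖ : ℂ) ^ 2)‖ = ‖X0‖ ^ 2 := by
      rw [norm_pow, Complex.norm_real, norm_norm]
    have h3 : ‖X0‖⁻¹ * ‖X0‖ ^ 2 ≤ κ * Q := by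
      rw [← h2]
      simpa using h1
    have h4 : ‖X0‖⁻¹ * ‖X0‖ ^ 2 = ‖X0‖ := by
      field_simp
    rwa [h4] at h3

end step

/-- **the vectors** -/
theorem core2 {S : Type} [MeasurableSpace S] {μ : Measure S} [SigmaFinite μ] {φ : S → ℂ}
    {N : Lp ℂ 2 μ →L[ℂ] Lp ℂ 2 μ} (hN : IsMul φ N) (u v : ℕ → Lp ℂ 2 μ) (n : ℕ) (x : Lp ℂ 2 μ)
    (t c : ℂ) (ρ : ℝ) (hρ : 0 < ρ) (Q : ℝ) (hQ0 : 0 ≤ Q) (h : ℂ → ℂ) (g : ℕ → ℂ → ℂ)
    (hh : Measurable h) (hg : ∀ j, Measurable (g j)) (hh1 : ∀ z, ‖h z‖ ≤ 1)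
    (hg1 : ∀ z, ∑ j ∈ Finset.range n, ‖g j z‖ ^ 2 ≤ 1)
    (hQ : ∀ y : Lp ℂ 2 μ, ‖y‖ ≤ 1 → ∫⁻ z in closedBall c ρ, ‖h z * ct φ y x z +
        t * ∑ j ∈ Finset.range n, ct φ y (u j) z * g j z‖ₑ ≤ ENNReal.ofReal Q)
    (hrel : ∀ᵐ z ∂(volume.restrict (closedBall c ρ)), ∀ i < n, h z * ct φ (v i) x z +
      t * ∑ j ∈ Finset.range n, ct φ (v i) (u j) z * g j z = g i z)
    (hmom : ∀ a : ℕ, (∫ z in closedBall c ρ, h z * (z - c) ^ (a + 1)) = 0) :
    ∃ (X : ℕ → Lp ℂ 2 μ) (Z : Lp ℂ 2 μ),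
      (∀ a, (N + t • fr u v n) (X a) - c • X a = X (a + 1)) ∧
      (∀ a, ‖X a‖ ≤ ρ * Q * ρ ^ a) ∧
      c • Z - (N + t • fr u v n) Z = X 0 + (-∫ z in closedBall c ρ, h z) • x ∧
      ‖Z‖ ≤ Q := by
  set nu : Measure ℂ := volume.restrict (closedBall c ρ) with hnu
  have hnuf : IsFiniteMeasure nu := by
    refine ⟨?_⟩
    rw [hnu, Measure.restrict_apply_univ]
    exact measure_closedBall_lt_top
  have hz : Measurable (fun z : ℂ => z) := measurable_id
  -- the area integral of the kernel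
  obtain ⟨C, hC⟩ := Pool.Agent.Y891.NK.main_area (‖c‖ + ρ + 1)
  have hsub : closedBall c ρ ⊆ ball (0:ℂ) (‖c‖ + ρ + 1) := by
    intro z hz
    rw [mem_closedBall, dist_eq_norm] at hz
    rw [mem_ball_zero_iff]
    calc ‖z‖ = ‖(z - c) + c‖ := by rw [sub_add_cancel]
      _ ≤ ‖z - c‖ + ‖c‖ := norm_add_le _ _
      _ < _ := by linarith
  have hE : ∀ s, E nu (fun z : ℂ => z) φ s ≤ C := fun s =>
    (lintegral_mono_set hsub).trans (hC (φ s))
  have hWint : ∫⁻ s, ENNReal.ofReal (W u x n s) ^ 2 ∂μ ≠ ⊤ := by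
    have h1 : ∀ f : Lp ℂ 2 μ, Integrable (fun x => ‖f x‖ ^ 2) μ := fun f => by
      have := (Lp.memLp f).integrable_norm_pow (by norm_num)
      simpa using this
    have h2 : Integrable (fun s => ‖x s‖ ^ 2 + ∑ j ∈ Finset.range n, ‖u j s‖ ^ 2) μ :=
      (h1 x).add (integrable_finsetSum _ fun j _ => h1 (u j))
    have h3 : ∀ s, ENNReal.ofReal (W u x n s) ^ 2 =
        ENNReal.ofReal (‖x s‖ ^ 2 + ∑ j ∈ Finset.range n, ‖u j s‖ ^ 2) := by
      intro s
      have h0 : 0 ≤ ∑ j ∈ Finset.range n, ‖u j s‖ ^ 2 :=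
        Finset.sum_nonneg (fun j _ => by positivity)
      rw [← ENNReal.ofReal_pow (W_nonneg u x n s)]
      unfold W
      rw [Real.sq_sqrt (by positivity)]
    simp_rw [h3]
    exact (h2.lintegral_lt_top).ne
  set A : ℝ := Real.sqrt ((∫⁻ s, ENNReal.ofReal (W u x n s) ^ 2 ∂μ) * (C:ℝ≥0∞) ^ 2).toReal with hA
  have hA0 : 0 ≤ A := Real.sqrt_nonneg _
  have hWE : ∫⁻ s, ENNReal.ofReal (W u x n s) ^ 2 * E nu (fun z : ℂ => z) φ s ^ 2 ∂μ
      ≤ ENNReal.ofReal (A ^ 2) := by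
    rw [hA, Real.sq_sqrt ENNReal.toReal_nonneg, ENNReal.ofReal_toReal
      (ENNReal.mul_ne_top hWint (by simp))]
    rw [← lintegral_mul_const' _ _ (by simp)]
    refine lintegral_mono fun s => mul_le_mul' le_rfl ?_
    exact pow_le_pow_left₀ (by simp) (hE s) 2
  -- the functions
  set k : ℕ → ℂ → ℂ := fun a => (closedBall c ρ).indicator (fun z => (z - c) ^ a) with hk
  have hkm : ∀ a, Measurable (k a) := fun a =>
    ((measurable_id.sub measurable_const).pow_const a).indicator measurableSet_closedBall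
  have hk1 : ∀ a z, ‖k a z‖ ≤ ρ ^ a := by
    intro a z
    by_cases hz : z ∈ closedBall c ρ
    · simp only [hk]
      rw [indicator_of_mem hz, norm_pow]
      rw [mem_closedBall, dist_eq_norm] at hz
      exact pow_le_pow_left₀ (norm_nonneg _) hz a
    · simp only [hk]
      rw [indicator_of_notMem hz, norm_zero]
      positivity
  have hkk : ∀ a z, k (a + 1) z = (z - c) * k a z := by
    intro a z
    by_cases hz : z ∈ closedBall c ρ
    · simp only [hk]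
      rw [indicator_of_mem hz, indicator_of_mem hz, pow_succ']
    · simp only [hk]
      rw [indicator_of_notMem hz, indicator_of_notMem hz, mul_zero]
  have hkint : ∀ a, ∫ z, k a z * h z ∂nu = ∫ z in closedBall c ρ, h z * (z - c) ^ a := by
    intro a
    refine integral_congr_ae ?_
    filter_upwards [ae_restrict_mem measurableSet_closedBall] with z hz
    simp only [hk]
    rw [indicator_of_mem hz, mul_comm]
  have hstep : ∀ a, (N + t • fr u v n) (X (μ := μ) nu u n x t (fun z : ℂ => z) φ h g (k a)) -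
      c • X (μ := μ) nu u n x t (fun z : ℂ => z) φ h g (k a) =
      X (μ := μ) nu u n x t (fun z : ℂ => z) φ h g (k (a + 1)) -
        (∫ z, k a z * h z ∂nu) • x := fun a =>
    step hN u v n x t c hz hA0 hWE hh hg hh1 hg1 hrel (hkm a) (by positivity : 0 ≤ ρ ^ a)
      (hk1 a) (hkm (a + 1)) (by positivity : 0 ≤ ρ ^ (a + 1)) (hk1 (a + 1)) (hkk a)
  refine ⟨fun a => X (μ := μ) nu u n x t (fun z : ℂ => z) φ h g (k (a + 1)),
    - X (μ := μ) nu u n x t (fun z : ℂ => z) φ h g (k 0), ?_, ?_, ?_, ?_⟩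
  · intro a
    have h1 := hstep (a + 1)
    rw [hkint, hmom a, zero_smul, sub_zero] at h1
    exact h1
  · intro a
    have h1 := X_norm2 hN u n x t hz hA0 hWE hh hg hh1 hg1 hQ0 hQ (hkm (a + 1))
      (by positivity : 0 ≤ ρ ^ (a + 1)) (hk1 (a + 1))
    refine h1.trans (le_of_eq ?_)
    ring
  · have h1 := hstep 0
    have h2 : ∫ z, k 0 z * h z ∂nu = ∫ z in closedBall c ρ, h z := by
      rw [hkint]
      simp
    rw [h2] at h1
    rw [map_neg, smul_neg, neg_sub_neg, h1, neg_smul, sub_eq_add_neg]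
  · rw [norm_neg]
    have h1 := X_norm2 hN u n x t hz hA0 hWE hh hg hh1 hg1 hQ0 hQ (hkm 0)
      (by positivity : 0 ≤ ρ ^ 0) (hk1 0)
    refine h1.trans (le_of_eq ?_)
    ring

end Pool.Agent.K4H47.HS.CB
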