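import Pool.Agent.K4H47.HS.Mat2

/-!
# Project HS: the determinant of `1 - t⁴ F⁴` and the inverse of `1 - t F`
-/

set_option autoImplicit false

namespace Pool.Agent.K4H47.HS

open Matrix
open scoped ComplexOrder

variable {n : ℕ}

/-- the determinant of `1 - t⁴ F⁴` -/
noncomputable def dd (F : Matrix (Fin n) (Fin n) ℂ) (t : ℂ) : ℂ :=
  (1 - ((t • F) * (t • F)) * ((t • F) * (t • F))).det

lemma fac1 (A : Matrix (Fin n) (Fin n) ℂ) : (1 - A) * (1 + A) = 1 - A * A := by noncomm_ring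

lemma fac2 (A : Matrix (Fin n) (Fin n) ℂ) : (1 + A) * (1 - A) = 1 - A * A := by noncomm_ring

lemma dd_eq (F : Matrix (Fin n) (Fin n) ℂ) (t : ℂ) :
    dd F t = (1 - t • F).det * (1 - (-t) • F).det * (1 - (Complex.I * t) • F).det *
      (1 - (-(Complex.I * t)) • F).det := by
  have h1 : (1 - t • F) * (1 - (-t) • F) = 1 - (t • F) * (t • F) := by
    rw [neg_smul, sub_neg_eq_add, fac1]
  have h2 : (1 - (Complex.I * t) • F) * (1 - (-(Complex.I * t)) • F) = 1 + (t • F) * (t • F) := by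
    rw [neg_smul, sub_neg_eq_add, fac1]
    simp only [Matrix.smul_mul, Matrix.mul_smul, smul_smul]
    have : Complex.I * t * (Complex.I * t) = -(t * t) := by
      have := Complex.I_mul_I
      calc Complex.I * t * (Complex.I * t) = (Complex.I * Complex.I) * (t * t) := by ring
        _ = _ := by rw [this]; ring
    rw [this, neg_smul, sub_neg_eq_add]
  unfold dd
  rw [← Matrix.det_mul, h1, mul_assoc (_ : ℂ) (_ : ℂ) (_ : ℂ), ← Matrix.det_mul, h2,
    ← Matrix.det_mul, fac1]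

/-- **eigenvalues** -/
theorem eig {F : Matrix (Fin n) (Fin n) ℂ} {Γ : ℝ} (h : Gam F Γ) :
    ∃ μ : Fin n → ℂ, (∀ t, dd F t = ∏ k, (1 - t ^ 4 * μ k ^ 4)) ∧ ∑ k, ps ‖μ k‖ ≤ Γ := by
  obtain ⟨U, hU, hdet⟩ := Pool.Agent.Y978.NK.schur_det n F
  refine ⟨fun k => (star U * F * U) k k, fun t => ?_, ?_⟩
  · rw [dd_eq, hdet, hdet, hdet, hdet, ← Finset.prod_mul_distrib, ← Finset.prod_mul_distrib,
      ← Finset.prod_mul_distrib]
    refine Finset.prod_congr rfl fun k _ => ?_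
    set w := (star U * F * U) k k
    have hI : Complex.I ^ 2 = -1 := Complex.I_sq
    calc (1 - t * w) * (1 - -t * w) * (1 - Complex.I * t * w) * (1 - -(Complex.I * t) * w)
        = (1 - t ^ 2 * w ^ 2) * (1 - Complex.I ^ 2 * (t ^ 2 * w ^ 2)) := by ring
      _ = _ := by rw [hI]; ring
  · have h1 := h Uᵀ Uᵀ (ctr_transpose hU) (ctr_transpose hU)
    refine le_trans (le_of_eq ?_) h1
    refine Finset.sum_congr rfl fun k _ => ?_
    congr 2
    show (star U * F * U) k k = _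
    rw [Matrix.mul_apply]
    simp only [Matrix.mul_apply, Finset.sum_mul]
    rw [Finset.sum_comm]
    refine Finset.sum_congr rfl fun i _ => Finset.sum_congr rfl fun j _ => ?_
    rfl

lemma nsq_eq_zero {x : Fin n → ℂ} (h : nsq x = 0) : x = 0 := by
  unfold nsq at h
  rw [Finset.sum_eq_zero_iff_of_nonneg (fun _ _ => sq_nonneg _)] at h
  funext i
  have := h i (Finset.mem_univ i)
  rw [Pi.zero_apply]
  exact norm_eq_zero.1 (pow_eq_zero_iff two_ne_zero |>.1 this)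

lemma sqrt_nsq_add (x y : Fin n → ℂ) :
    Real.sqrt (nsq (x + y)) ≤ Real.sqrt (nsq x) + Real.sqrt (nsq y) := by
  have e : ∀ z : Fin n → ℂ, Real.sqrt (nsq z) = ‖(WithLp.toLp 2 z : EuclideanSpace ℂ (Fin n))‖ := by
    intro z
    rw [EuclideanSpace.norm_eq]
    rfl
  rw [e, e, e, WithLp.toLp_add]
  exact norm_add_le _ _

lemma nsq_smul (a : ℂ) (x : Fin n → ℂ) : nsq (a • x) = ‖a‖ ^ 2 * nsq x := by
  unfold nsq
  rw [Finset.mul_sum]
  refine Finset.sum_congr rfl fun i _ => ?_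
  rw [Pi.smul_apply, smul_eq_mul, norm_mul, mul_pow]

/-- **the inverse**, normalised form -/
theorem inv1 {A : Matrix (Fin n) (Fin n) ℂ} {Γ : ℝ} (h : Gam A Γ) (b c : Fin n → ℂ)
    (hdet : (1 - (A * A) * (A * A)).det ≠ 0) (hc : (1 - A) *ᵥ c = b) :
    Real.sqrt (nsq c) ≤ Real.sqrt (nsq b) *
      (8 * Real.exp (10 * Γ) / ‖(1 - (A * A) * (A * A)).det‖) := by
  obtain ⟨h1, h2, h3⟩ := det_sing h
  set Δ := ‖(1 + (Aᴴ * A) * (Aᴴ * A)).det‖ with hΔ
  set M := 1 - (A * A) * (A * A) with hM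
  have hd0 : 0 < ‖M.det‖ := norm_pos_iff.2 hdet
  set q := Real.sqrt Δ with hq
  have hq1 : 1 ≤ q := by
    rw [hq]
    exact Real.one_le_sqrt.2 h2
  have hqΔ : q ^ 2 = Δ := Real.sq_sqrt (by linarith)
  have hA : ∀ x, Real.sqrt (nsq (A *ᵥ x)) ≤ q * Real.sqrt (nsq x) := by
    intro x
    rw [hq, ← Real.sqrt_mul (by linarith)]
    exact Real.sqrt_le_sqrt (h3 x)
  have hAA : ∀ x, Real.sqrt (nsq ((A * A) *ᵥ x)) ≤ q ^ 2 * Real.sqrt (nsq x) := by
    intro x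
    rw [← Matrix.mulVec_mulVec]
    calc _ ≤ q * Real.sqrt (nsq (A *ᵥ x)) := hA _
      _ ≤ q * (q * Real.sqrt (nsq x)) := by gcongr; exact hA x
      _ = _ := by ring
  -- the transformed right hand side
  set b₁ := (1 + A * A) *ᵥ ((1 + A) *ᵥ b) with hb₁
  have hMc : M *ᵥ c = b₁ := by
    rw [hb₁, ← hc, Matrix.mulVec_mulVec, Matrix.mulVec_mulVec, mul_assoc, fac2, hM, fac2]
  have hb1 : Real.sqrt (nsq b₁) ≤ 4 * q ^ 3 * Real.sqrt (nsq b) := by
    have e1 : Real.sqrt (nsq ((1 + A) *ᵥ b)) ≤ 2 * q * Real.sqrt (nsq b) := by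
      rw [Matrix.add_mulVec, Matrix.one_mulVec]
      refine (sqrt_nsq_add _ _).trans ?_
      have := hA b
      nlinarith [Real.sqrt_nonneg (nsq b)]
    have e2 : Real.sqrt (nsq b₁) ≤ 2 * q ^ 2 * Real.sqrt (nsq ((1 + A) *ᵥ b)) := by
      rw [hb₁, Matrix.add_mulVec, Matrix.one_mulVec]
      refine (sqrt_nsq_add _ _).trans ?_
      have := hAA ((1 + A) *ᵥ b)
      have h5 : 1 ≤ q ^ 2 := one_le_pow₀ hq1
      nlinarith [Real.sqrt_nonneg (nsq ((1 + A) *ᵥ b))]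
    calc Real.sqrt (nsq b₁) ≤ 2 * q ^ 2 * Real.sqrt (nsq ((1 + A) *ᵥ b)) := e2
      _ ≤ 2 * q ^ 2 * (2 * q * Real.sqrt (nsq b)) := by gcongr
      _ = _ := by ring
  -- the bordered determinant
  set γ := Real.sqrt (nsq c) with hγ
  set β := Real.sqrt (nsq b₁) with hβ
  have hγ0 : 0 ≤ γ := Real.sqrt_nonneg _
  have hβ0 : 0 ≤ β := Real.sqrt_nonneg _
  have hγ2 : γ ^ 2 = nsq c := Real.sq_sqrt (nsq_nonneg _)
  have hβ2 : β ^ 2 = nsq b₁ := Real.sq_sqrt (nsq_nonneg _)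
  have hmain : γ ≤ β * (2 * Δ / ‖M.det‖) := by
    rcases hγ0.eq_or_lt with h0 | hγp
    · rw [← h0]
      have : 0 ≤ Δ := norm_nonneg _
      positivity
    have hβp : 0 < β := by
      rcases hβ0.eq_or_lt with h0 | h0
      · exfalso
        have h5 : b₁ = 0 := nsq_eq_zero (by rw [← hβ2, ← h0]; norm_num)
        have h6 : c = 0 := by
          rw [h5] at hMc
          exact Matrix.eq_zero_of_mulVec_eq_zero hdet hMc
        rw [h6] at hγ2
        simp [nsq] at hγ2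
        linarith
      · exact h0
    set b' : Fin n → ℂ := (β : ℂ)⁻¹ • b₁ with hb'
    set c' : Fin n → ℂ := (β : ℂ)⁻¹ • c with hc'
    set v : Fin n → ℂ := (γ : ℂ)⁻¹ • star c with hv
    have hMc' : M *ᵥ c' = b' := by rw [hc', hb', Matrix.mulVec_smul, hMc]
    have hnb : nsq b' ≤ 1 := by
      rw [hb', nsq_smul, ← hβ2, norm_inv, Complex.norm_real, Real.norm_of_nonneg hβ0]
      field_simp
      exact le_rfl
    have hnv : nsq v ≤ 1 := by
      rw [hv, nsq_smul, nsq_star, ← hγ2, norm_inv, Complex.norm_real, Real.norm_of_nonneg hγ0]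
      field_simp
      exact le_rfl
    have hvc : v ⬝ᵥ c' = ((γ / β : ℝ) : ℂ) := by
      rw [hv, hc', smul_dotProduct, dotProduct_smul, star_dot_self, ← hγ2]
      have h3 : (γ : ℂ) ≠ 0 := by exact_mod_cast hγp.ne'
      have h4 : (β : ℂ) ≠ 0 := by exact_mod_cast hβp.ne'
      simp only [smul_eq_mul]
      push_cast
      field_simp
    have hd := Pool.Agent.Y907.NK.det_rank_one M c' b' v hMc'
    rw [hvc] at hd
    have hbd := det_border (A * A) b' v hnb hnv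
    rw [← hM, hd, norm_mul] at hbd
    have hn : ‖(1 : ℂ) + ((γ / β : ℝ) : ℂ)‖ = 1 + γ / β := by
      have : (1 : ℂ) + ((γ / β : ℝ) : ℂ) = ((1 + γ / β : ℝ) : ℂ) := by push_cast; ring
      rw [this, Complex.norm_real, Real.norm_eq_abs, abs_of_pos (by positivity)]
    rw [hn] at hbd
    have h5 := det_sq_le A
    have h6 : ‖M.det‖ * (1 + γ / β) ≤ 2 * Δ := hbd.trans (by linarith)
    have h7 : γ / β ≤ 2 * Δ / ‖M.det‖ := by
      rw [le_div_iff₀ hd0]
      nlinarith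
    rw [div_le_iff₀ hβp] at h7
    linarith
  have hΔe : Δ ≤ Real.exp (4 * Γ) := h1
  have hqe : q ≤ Real.exp (2 * Γ) := by
    rw [hq]
    calc Real.sqrt Δ ≤ Real.sqrt (Real.exp (4 * Γ)) := Real.sqrt_le_sqrt hΔe
      _ = Real.exp (2 * Γ) := by
          rw [show 4 * Γ = 2 * Γ + 2 * Γ by ring, Real.exp_add, Real.sqrt_mul_self (Real.exp_pos _).le]
  have hfin : 4 * q ^ 3 * (2 * Δ) ≤ 8 * Real.exp (10 * Γ) := by
    have e1 : q ^ 3 ≤ Real.exp (2 * Γ) ^ 3 := pow_le_pow_left₀ (by linarith) hqe 3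
    have e2 : Real.exp (2 * Γ) ^ 3 * Real.exp (4 * Γ) = Real.exp (10 * Γ) := by
      rw [← Real.exp_nat_mul, ← Real.exp_add]
      congr 1
      push_cast
      ring
    calc 4 * q ^ 3 * (2 * Δ) = 8 * (q ^ 3 * Δ) := by ring
      _ ≤ 8 * (Real.exp (2 * Γ) ^ 3 * Real.exp (4 * Γ)) := by
          have : 0 ≤ Δ := norm_nonneg _
          gcongr
      _ = _ := by rw [e2]
  calc γ ≤ β * (2 * Δ / ‖M.det‖) := hmain
    _ ≤ (4 * q ^ 3 * Real.sqrt (nsq b)) * (2 * Δ / ‖M.det‖) := by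
        have : 0 ≤ Δ := norm_nonneg _
        gcongr
    _ = Real.sqrt (nsq b) * ((4 * q ^ 3 * (2 * Δ)) / ‖M.det‖) := by ring
    _ ≤ _ := by gcongr

/-- **the inverse** -/
theorem inv2 {F : Matrix (Fin n) (Fin n) ℂ} {Γ : ℝ} (h : Gam F Γ) (t : ℂ) (b c : Fin n → ℂ)
    (hdet : dd F t ≠ 0) (hc : (1 - t • F) *ᵥ c = b) :
    Real.sqrt (nsq c) ≤ Real.sqrt (nsq b) *
      (8 * Real.exp (10 * ((1 + ‖t‖ ^ 4) * Γ)) / ‖dd F t‖) :=
  inv1 (h.smul t) b c hdet hc

end Pool.Agent.K4H47.HS
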