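import Pool.Agent.K4H47.HS.Out1

/-!
# Project HS: outer functions on discs
-/

set_option autoImplicit false

namespace Pool.Agent.K4H47.HS

open MeasureTheory Set Metric Filter Topology
open scoped InnerProductSpace ENNReal NNReal ComplexConjugate

/-- the lower bound on circles -/
lemma circ_lower (B : ℝ≥0) : ∃ δ : ℝ, 0 < δ ∧ ∀ m : ℝ → ℝ≥0∞, Measurable m →
    (∫⁻ θ in Ioc (0:ℝ) (2 * Real.pi), m θ) ≤ B → ∀ (P : Polynomial ℂ) (r : ℝ),
    ENNReal.ofReal δ ≤ ∫⁻ θ in Ioc (0:ℝ) (2 * Real.pi),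
      ‖1 - (r * circleMap 0 1 θ) * P.eval (r * circleMap 0 1 θ)‖ₑ *
        ENNReal.ofReal (Real.exp (-(m θ).toReal)) := by
  obtain ⟨δ, hδ, hδ2⟩ := Pool.Agent.Y681.NK.OUTQ.main B
  refine ⟨δ, hδ, fun m hm hB P r => ?_⟩
  obtain ⟨h, hh, hle, hlow, hmom⟩ := hδ2 m hm hB
  have hpi : (0:ℝ) ≤ 2 * Real.pi := by positivity
  set ν : Measure ℝ := volume.restrict (Ioc (0:ℝ) (2 * Real.pi)) with hν
  have hint : ∀ f : ℝ → ℂ, (∫ θ in (0:ℝ)..(2 * Real.pi), f θ) = ∫ θ, f θ ∂ν := fun f => by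
    rw [intervalIntegral.integral_of_le hpi]
  have hh1 : ∀ᵐ θ ∂ν, ‖h θ‖ ≤ 1 := by
    filter_upwards [hle] with θ hθ
    refine hθ.2.trans ?_
    rw [Real.exp_le_one_iff]
    simp
  have hcm : Measurable (circleMap 0 1) := (continuous_circleMap 0 1).measurable
  have hc1 : ∀ θ, ‖circleMap 0 1 θ‖ = 1 := fun θ => by simp
  have hi : ∀ a : ℕ, Integrable (fun θ => h θ * circleMap 0 1 θ ^ a) ν := by
    intro a
    refine (integrable_const (1:ℝ)).mono' (hh.mul (hcm.pow_const a)).aestronglyMeasurable ?_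
    filter_upwards [hh1] with θ hθ
    rw [norm_mul, norm_pow, hc1, one_pow, mul_one]
    exact hθ
  -- the integral against `1 - z P z`
  have h1 : ∫ θ, h θ * (1 - (r * circleMap 0 1 θ) * P.eval (r * circleMap 0 1 θ)) ∂ν =
      ∫ θ, h θ ∂ν := by
    have e1 : ∀ θ, h θ * (1 - (r * circleMap 0 1 θ) * P.eval (r * circleMap 0 1 θ)) =
        h θ * circleMap 0 1 θ ^ 0 - ∑ i ∈ Finset.range (P.natDegree + 1),
          (P.coeff i * (r:ℂ) ^ (i + 1)) * (h θ * circleMap 0 1 θ ^ (i + 1)) := by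
      intro θ
      rw [Polynomial.eval_eq_sum_range, mul_sub, pow_zero, mul_one, Finset.mul_sum, Finset.mul_sum]
      congr 1
      refine Finset.sum_congr rfl fun i _ => ?_
      rw [mul_pow]
      ring
    simp_rw [e1]
    rw [integral_sub (hi 0) (integrable_finsetSum _ fun i _ => (hi (i + 1)).const_mul _),
      integral_finsetSum _ fun i _ => (hi (i + 1)).const_mul _]
    have e2 : ∀ i, ∫ θ, (P.coeff i * (r:ℂ) ^ (i + 1)) * (h θ * circleMap 0 1 θ ^ (i + 1)) ∂ν = 0 := by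
      intro i
      rw [integral_const_mul, ← hint, hmom i, mul_zero]
    rw [Finset.sum_eq_zero fun i _ => e2 i, sub_zero]
    simp
  rw [hint, ← h1] at hlow
  calc ENNReal.ofReal δ
      ≤ ENNReal.ofReal ‖∫ θ, h θ *
        (1 - (r * circleMap 0 1 θ) * P.eval (r * circleMap 0 1 θ)) ∂ν‖ :=
        ENNReal.ofReal_le_ofReal hlow
    _ = ‖∫ θ, h θ * (1 - (r * circleMap 0 1 θ) * P.eval (r * circleMap 0 1 θ)) ∂ν‖ₑ :=
        ofReal_norm _
    _ ≤ ∫⁻ θ, ‖h θ * (1 - (r * circleMap 0 1 θ) * P.eval (r * circleMap 0 1 θ))‖ₑ ∂ν :=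
        enorm_integral_le_lintegral_enorm _
    _ ≤ _ := by
        refine lintegral_mono_ae ?_
        filter_upwards [hle] with θ hθ
        rw [enorm_mul, mul_comm]
        refine mul_le_mul' le_rfl ?_
        rw [← ofReal_norm]
        exact ENNReal.ofReal_le_ofReal hθ.2

/-- the lower bound on discs -/
lemma disc_lower (c : ℂ) (ρ : ℝ) (hρ : 0 < ρ) (B : ℝ≥0) : ∃ δ : ℝ, 0 < δ ∧
    ∀ M : ℂ → ℝ≥0∞, Measurable M → (∫⁻ z in closedBall c ρ, M z) ≤ B → ∀ (P : Polynomial ℂ),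
    ENNReal.ofReal δ ≤ ∫⁻ z in closedBall c ρ,
      ‖1 - (z - c) * P.eval (z - c)‖ₑ * ENNReal.ofReal (Real.exp (-(M z).toReal)) := by
  set B' : ℝ≥0 := (8 * B / ρ ^ 2 + 1).toNNReal with hB'
  have hB'r : (B' : ℝ) = 8 * B / ρ ^ 2 + 1 := by
    rw [hB', Real.coe_toNNReal]
    positivity
  obtain ⟨δ, hδ, hδ2⟩ := circ_lower B'
  refine ⟨ρ / 2 * (δ * (ρ / 4)), by positivity, fun M hM hB P => ?_⟩
  have hcont : Continuous fun p : ℝ × ℝ => circleMap c p.1 p.2 := by
    unfold circleMap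
    fun_prop
  -- the good radii
  set g : ℝ → ℝ≥0∞ := fun r => ∫⁻ θ in Ioc (0:ℝ) (2 * Real.pi), M (circleMap c r θ) with hg
  have hgm : Measurable g := Measurable.lintegral_prod_right'
    (f := fun p : ℝ × ℝ => M (circleMap c p.1 p.2)) (hM.comp hcont.measurable)
  set f : ℂ → ℝ≥0∞ := fun z =>
    ‖1 - (z - c) * P.eval (z - c)‖ₑ * ENNReal.ofReal (Real.exp (-(M z).toReal)) with hf
  have hfm : Measurable f := by
    refine Measurable.mul ?_ (Real.measurable_exp.comp hM.ennreal_toReal.neg).ennreal_ofReal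
    have : Continuous fun z : ℂ => 1 - (z - c) * P.eval (z - c) := by fun_prop
    exact this.measurable.enorm
  set G : Set ℝ := {r | g r ≤ B'} with hG
  have hGm : MeasurableSet G := measurableSet_le hgm measurable_const
  have hpol := Pool.Agent.Y487.NK.polar M hM c ρ hρ
  have h1 : ENNReal.ofReal (ρ / 2) * ∫⁻ r in Ioc (ρ / 2) ρ, g r ≤ B := hpol.trans hB
  set lam : Measure ℝ := volume.restrict (Ioc (ρ / 2) ρ) with hlam
  have hbad : lam Gᶜ ≤ ENNReal.ofReal (ρ / 4) := by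
    have h2 : (B' : ℝ≥0∞) * lam Gᶜ ≤ ∫⁻ r, g r ∂lam := by
      refine le_trans ?_ (mul_meas_ge_le_lintegral hgm (B' : ℝ≥0∞))
      refine mul_le_mul' le_rfl (measure_mono ?_)
      intro r hr
      have : ¬ g r ≤ B' := hr
      exact (not_le.1 this).le
    have h3 : ENNReal.ofReal (ρ / 2) * ((B' : ℝ≥0∞) * lam Gᶜ) ≤ B :=
      (mul_le_mul' le_rfl h2).trans h1
    have hfin : lam Gᶜ ≠ ⊤ := measure_ne_top _ _
    have h4 : ρ / 2 * (B' * (lam Gᶜ).toReal) ≤ B := by
      have h5 := ENNReal.toReal_mono ENNReal.coe_ne_top h3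
      rwa [ENNReal.toReal_mul, ENNReal.toReal_mul, ENNReal.toReal_ofReal (by positivity),
        ENNReal.coe_toReal, ENNReal.coe_toReal] at h5
    rw [ENNReal.le_ofReal_iff_toReal_le hfin (by positivity)]
    by_contra hcon
    push Not at hcon
    have h6 : (B:ℝ) < ρ / 2 * (B' * (lam Gᶜ).toReal) := by
      rw [hB'r]
      have hB0 : (0:ℝ) ≤ B := B.2
      have h7 : ρ / 2 * ((8 * B / ρ ^ 2 + 1) * (ρ / 4)) <
          ρ / 2 * ((8 * B / ρ ^ 2 + 1) * (lam Gᶜ).toReal) := by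
        have : 0 < 8 * (B:ℝ) / ρ ^ 2 + 1 := by positivity
        gcongr
      refine lt_of_le_of_lt ?_ h7
      have : ρ / 2 * ((8 * B / ρ ^ 2 + 1) * (ρ / 4)) = B + ρ ^ 2 / 8 := by
        field_simp
        ring
      rw [this]
      have : 0 < ρ ^ 2 := by positivity
      linarith
    linarith
  have hgood : ENNReal.ofReal (ρ / 4) ≤ lam G := by
    have h2 : lam univ = ENNReal.ofReal (ρ / 2) := by
      rw [hlam, Measure.restrict_apply_univ, Real.volume_Ioc]
      congr 1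
      ring
    have h3 : lam G + lam Gᶜ = ENNReal.ofReal (ρ / 2) := by
      rw [measure_add_measure_compl hGm, h2]
    have h4 : ENNReal.ofReal (ρ / 2) = ENNReal.ofReal (ρ / 4) + ENNReal.ofReal (ρ / 4) := by
      rw [← ENNReal.ofReal_add (by positivity) (by positivity)]
      congr 1
      ring
    by_contra hcon
    push Not at hcon
    have h5 : lam G + lam Gᶜ < ENNReal.ofReal (ρ / 4) + ENNReal.ofReal (ρ / 4) :=
      ENNReal.add_lt_add_of_lt_of_le (measure_ne_top _ _) hcon hbad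
    rw [h3, h4] at h5
    exact lt_irrefl _ h5
  have hpol2 := Pool.Agent.Y487.NK.polar f hfm c ρ hρ
  refine le_trans ?_ hpol2
  rw [ENNReal.ofReal_mul (by positivity)]
  refine mul_le_mul' le_rfl ?_
  calc ENNReal.ofReal (δ * (ρ / 4)) = ENNReal.ofReal δ * ENNReal.ofReal (ρ / 4) :=
        ENNReal.ofReal_mul hδ.le
    _ ≤ ENNReal.ofReal δ * lam G := mul_le_mul' le_rfl hgood
    _ = ∫⁻ r in G, ENNReal.ofReal δ ∂lam := by rw [setLIntegral_const]
    _ ≤ ∫⁻ r in G, (∫⁻ θ in Ioc (0:ℝ) (2 * Real.pi), f (circleMap c r θ)) ∂lam := by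
        refine lintegral_mono_ae ?_
        filter_upwards [ae_restrict_mem hGm] with r hr
        have hcm : Measurable (circleMap c r) := (continuous_circleMap c r).measurable
        refine (hδ2 (fun θ => M (circleMap c r θ)) (hM.comp hcm) hr P r).trans (le_of_eq ?_)
        refine lintegral_congr fun θ => ?_
        have e1 : circleMap c r θ - c = r * circleMap 0 1 θ := by
          simp [circleMap]
        simp only [hf]
        rw [e1]
    _ ≤ ∫⁻ r, (∫⁻ θ in Ioc (0:ℝ) (2 * Real.pi), f (circleMap c r θ)) ∂lam :=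
        setLIntegral_le_lintegral _ _
    _ = ∫⁻ r in Ioc (ρ / 2) ρ, ∫⁻ θ in Ioc (0:ℝ) (2 * Real.pi), f (circleMap c r θ) := by
        rw [hlam]

/-- **outer functions on discs** -/
theorem out2 (c : ℂ) (ρ : ℝ) (hρ : 0 < ρ) (B : ℝ≥0) : ∃ δ : ℝ, 0 < δ ∧
    ∀ M : ℂ → ℝ≥0∞, Measurable M → (∫⁻ z in closedBall c ρ, M z) ≤ B →
    ∃ h : ℂ → ℂ, Measurable h ∧
      (∀ᵐ z ∂(volume.restrict (closedBall c ρ)),
        M z ≠ ⊤ ∧ ‖h z‖ ≤ Real.exp (-(M z).toReal)) ∧
      δ ≤ ‖∫ z in closedBall c ρ, h z‖ ∧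
      ∀ a : ℕ, (∫ z in closedBall c ρ, h z * (z - c) ^ (a + 1)) = 0 := by
  obtain ⟨δ, hδ, hδ2⟩ := disc_lower c ρ hρ B
  refine ⟨δ, hδ, fun M hM hB => ?_⟩
  have hlow := hδ2 M hM hB
  set ν : Measure ℂ := volume.restrict (closedBall c ρ) with hν
  have hνf : IsFiniteMeasure ν := by
    refine ⟨?_⟩
    rw [hν, Measure.restrict_apply_univ]
    exact measure_closedBall_lt_top
  set w : ℂ → ℝ := fun z => Real.exp (-(M z).toReal) with hw
  have hwm : Measurable w := Real.measurable_exp.comp hM.ennreal_toReal.neg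
  have hw0 : ∀ z, 0 ≤ w z := fun z => (Real.exp_pos _).le
  have hw1 : ∀ z, w z ≤ 1 := fun z => by
    simp only [hw]
    rw [Real.exp_le_one_iff]
    simp
  -- the vectors
  have hmemw : ∀ (q : ℂ → ℂ), Continuous q → ∀ p : ℝ≥0∞, MemLp (fun z => (w z : ℂ) * q z) p ν := by
    intro q hq p
    obtain ⟨C, hC⟩ := (isCompact_closedBall c ρ).exists_bound_of_continuousOn hq.continuousOn
    refine MemLp.of_bound ((Complex.measurable_ofReal.comp hwm).mul
      hq.measurable).aestronglyMeasurable C ?_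
    filter_upwards [ae_restrict_mem measurableSet_closedBall] with z hz
    rw [norm_mul, Complex.norm_real, Real.norm_eq_abs, abs_of_nonneg (hw0 z)]
    calc w z * ‖q z‖ ≤ 1 * ‖q z‖ := mul_le_mul_of_nonneg_right (hw1 z) (norm_nonneg _)
      _ ≤ C := by rw [one_mul]; exact hC z hz
  have hqc : ∀ P : Polynomial ℂ, Continuous fun z : ℂ => (z - c) * P.eval (z - c) := fun P => by
    fun_prop
  set V : Polynomial ℂ →ₗ[ℂ] Lp ℂ 1 ν :=
    { toFun := fun P => (hmemw _ (hqc P) 1).toLp _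
      map_add' := fun P P' => by
        rw [← MemLp.toLp_add]
        refine MemLp.toLp_congr _ _ (Eventually.of_forall fun z => ?_)
        simp only [Pi.add_apply, Polynomial.eval_add]
        ring
      map_smul' := fun a P => by
        rw [RingHom.id_apply, ← MemLp.toLp_const_smul]
        refine MemLp.toLp_congr _ _ (Eventually.of_forall fun z => ?_)
        simp only [Pi.smul_apply, Polynomial.eval_smul, smul_eq_mul]
        ring } with hV
  set e : Lp ℂ 1 ν := (hmemw (fun _ => 1) continuous_const 1).toLp _ with he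
  obtain ⟨f, hf1, hf2, hf3⟩ := hb (LinearMap.range V) e hδ (by
    rintro q ⟨P, rfl⟩
    have e1 : e - V P = ((hmemw (fun _ => 1) continuous_const 1).sub
        (hmemw _ (hqc P) 1)).toLp _ :=
      (MemLp.toLp_sub (hmemw (fun _ => 1) continuous_const 1) (hmemw _ (hqc P) 1)).symm
    rw [e1, Lp.norm_toLp, eLpNorm_one_eq_lintegral_enorm,
      ← ENNReal.ofReal_le_iff_le_toReal]
    · refine (hlow P).trans (le_of_eq ?_)
      refine lintegral_congr fun z => ?_
      have e2 : ((fun z => (w z : ℂ) * 1) - fun z => (w z : ℂ) * ((z - c) * P.eval (z - c))) z =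
          (1 - (z - c) * P.eval (z - c)) * (w z : ℂ) := by
        simp only [Pi.sub_apply]
        ring
      rw [e2, enorm_mul]
      congr 1
      rw [← ofReal_norm, Complex.norm_real, Real.norm_eq_abs, abs_of_nonneg (hw0 z)]
    · have h5 := ((hmemw (fun _ => 1) continuous_const 1).sub (hmemw _ (hqc P) 1)).2
      rw [eLpNorm_one_eq_lintegral_enorm] at h5
      exact h5.ne)
  obtain ⟨b, hbm, hb1, hb2⟩ := riesz1 ν f hf1
  refine ⟨fun z => (w z : ℂ) * conj (b z), (Complex.measurable_ofReal.comp hwm).mul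
    (Complex.continuous_conj.measurable.comp hbm), ?_, ?_, ?_⟩
  · have hMfin : ∀ᵐ z ∂ν, M z < ⊤ :=
      ae_lt_top hM (ne_top_of_le_ne_top ENNReal.coe_ne_top hB)
    filter_upwards [hb1, hMfin] with z hz hz2
    refine ⟨hz2.ne, ?_⟩
    rw [norm_mul, Complex.norm_real, Real.norm_eq_abs, abs_of_nonneg (hw0 z), RCLike.norm_conj]
    calc w z * ‖b z‖ ≤ w z * 1 := mul_le_mul_of_nonneg_left hz (hw0 z)
      _ = _ := mul_one _
  · refine hf3.trans (le_of_eq ?_)
    rw [he, hb2 _ (hmemw (fun _ => 1) continuous_const 2)]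
    congr 2
    funext z
    ring
  · intro a
    have h1 := hf2 (V (Polynomial.X ^ a)) ⟨_, rfl⟩
    have h2 : V (Polynomial.X ^ a) = (hmemw _ (hqc (Polynomial.X ^ a)) 1).toLp _ := rfl
    rw [h2, hb2 _ (hmemw _ (hqc (Polynomial.X ^ a)) 2)] at h1
    rw [← h1]
    congr 1
    funext z
    simp only [Polynomial.eval_pow, Polynomial.eval_X]
    ring

end Pool.Agent.K4H47.HS
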