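import Pool.Agent.K4H47.HS.Lv5
import Pool.Agent.K4H47.HS.Mat3
import Pool.Agent.K4H47.HS.CoreC
import Pool.Agent.K4H47.HS.Out2
import Pool.Agent.Y283.NK.Loc

/-!
# Project HS: vectors with small local spectrum, finite rank
-/

set_option autoImplicit false

namespace Pool.Agent.K4H47.HS

open MeasureTheory Set Metric Filter Topology
open scoped InnerProductSpace ENNReal NNReal ComplexConjugate
open Pool.Agent.Y283.NK

/-- the numerical inequality behind the choice of the weight -/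
lemma num2 {P e τ D L : ℝ} (hP : 0 ≤ P) (he : 0 ≤ e) (hτ : 0 ≤ τ) (hL : 0 ≤ L) (hD : 0 < D)
    {M : ℝ} (hM : (3 + 5 * L) + (3 + 10 * (1 + τ ^ 4) * (4 + 4096 * L ^ 3)) * (P + e) +
      Real.posLog D⁻¹ ≤ M) :
    Real.exp (-M) * (Real.sqrt ((2 * P + 3 * L) * e) *
      (8 * Real.exp (10 * ((1 + τ ^ 4) * ((4 + 4096 * L ^ 3) * P))) / D)) *
      Real.sqrt (2 * P + 3 * L + 1) ≤ 1 := by
  have h1 : Real.sqrt ((2 * P + 3 * L) * e) ≤ Real.exp ((2 * P + 3 * L + e) / 2) := by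
    have e1 : Real.sqrt ((2 * P + 3 * L) * e) ≤ (2 * P + 3 * L + e) / 2 := by
      rw [Real.sqrt_le_left (by positivity)]
      nlinarith [sq_nonneg ((2 * P + 3 * L) - e)]
    exact e1.trans (by linarith [Real.add_one_le_exp ((2 * P + 3 * L + e) / 2)])
  have h2 : Real.sqrt (2 * P + 3 * L + 1) ≤ Real.exp (2 * P + 3 * L) := by
    have e1 : Real.sqrt (2 * P + 3 * L + 1) ≤ 2 * P + 3 * L + 1 := by
      rw [Real.sqrt_le_left (by positivity)]
      nlinarith
    exact e1.trans (Real.add_one_le_exp _)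
  have h3 : D⁻¹ ≤ Real.exp (Real.posLog D⁻¹) := by
    have : Real.log D⁻¹ ≤ Real.posLog D⁻¹ := (le_max_right _ _)
    calc D⁻¹ = Real.exp (Real.log D⁻¹) := (Real.exp_log (by positivity)).symm
      _ ≤ _ := Real.exp_le_exp.2 this
  have h4 : (8:ℝ) ≤ Real.exp 3 := by
    have e1 : (2:ℝ) ≤ Real.exp 1 := by linarith [Real.add_one_le_exp (1:ℝ)]
    calc (8:ℝ) = 2 ^ 3 := by norm_num
      _ ≤ (Real.exp 1) ^ 3 := pow_le_pow_left₀ (by norm_num) e1 3
      _ = Real.exp 3 := by rw [← Real.exp_nat_mul]; norm_num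
  set E := 10 * ((1 + τ ^ 4) * ((4 + 4096 * L ^ 3) * P)) with hE
  calc Real.exp (-M) * (Real.sqrt ((2 * P + 3 * L) * e) * (8 * Real.exp E / D)) *
      Real.sqrt (2 * P + 3 * L + 1)
      ≤ Real.exp (-M) * (Real.exp ((2 * P + 3 * L + e) / 2) *
        (Real.exp 3 * Real.exp E * Real.exp (Real.posLog D⁻¹))) * Real.exp (2 * P + 3 * L) := by
        rw [div_eq_mul_inv]
        gcongr
    _ = Real.exp (-M + ((2 * P + 3 * L + e) / 2 + (3 + E + Real.posLog D⁻¹)) +
        (2 * P + 3 * L)) := by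
        simp only [Real.exp_add]
    _ ≤ 1 := by
        apply Real.exp_le_one_iff.2
        have q1 : 0 ≤ (1 + τ ^ 4) * (4 + 4096 * L ^ 3) := by positivity
        have q2 : 0 ≤ (1 + τ ^ 4) * (4 + 4096 * L ^ 3) * e := mul_nonneg q1 he
        have q3 : E = 10 * (1 + τ ^ 4) * (4 + 4096 * L ^ 3) * P := by rw [hE]; ring
        rw [q3]
        nlinarith

/-- the weight on the disc -/
noncomputable def wt2 {S : Type} [MeasurableSpace S] {μ : Measure S} (φ : S → ℂ)
    (u v : ℕ → Lp ℂ 2 μ) (l : ℕ → ℕ) (L : ℝ) (n : ℕ) (x : Lp ℂ 2 μ) (t z : ℂ) : ℝ≥0∞ :=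
  ENNReal.ofReal (3 + 5 * L) +
    ENNReal.ofReal (3 + 10 * (1 + ‖t‖ ^ 4) * (4 + 4096 * L ^ 3)) *
    (pot φ u v l z + eb φ x z) + lm ‖dd (FF φ u v n z) t‖

section

variable {S : Type} [MeasurableSpace S] {μ : Measure S} [SigmaFinite μ] {φ : S → ℂ}

lemma meas_FF (hφ : Measurable φ) (u v : ℕ → Lp ℂ 2 μ) (n : ℕ) (i j : Fin n) :
    Measurable fun z => FF φ u v n z i j :=
  Pool.Agent.Y604.NK.meas_ct hφ (v i) (u j)

lemma meas_mul {α : Type} [MeasurableSpace α] {n : ℕ} {A B : α → Matrix (Fin n) (Fin n) ℂ}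
    (hA : ∀ i j, Measurable fun a => A a i j) (hB : ∀ i j, Measurable fun a => B a i j)
    (i j : Fin n) : Measurable fun a => (A a * B a) i j := by
  simp only [Matrix.mul_apply]
  exact Finset.measurable_fun_sum _ fun k _ => (hA i k).mul (hB k j)

lemma meas_dd (hφ : Measurable φ) (u v : ℕ → Lp ℂ 2 μ) (n : ℕ) :
    Measurable fun p : ℂ × ℂ => dd (FF φ u v n p.1) p.2 := by
  unfold dd
  refine measurable_det fun i j => ?_
  have h1 : ∀ i j, Measurable fun p : ℂ × ℂ => (p.2 • FF φ u v n p.1) i j := fun i j =>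
    measurable_snd.mul ((meas_FF hφ u v n i j).comp measurable_fst)
  exact measurable_const.sub (meas_mul (meas_mul h1 h1) (meas_mul h1 h1) i j)

lemma meas_lmdd (hφ : Measurable φ) (u v : ℕ → Lp ℂ 2 μ) (n : ℕ) :
    Measurable fun p : ℂ × ℂ => lm ‖dd (FF φ u v n p.1) p.2‖ :=
  Pool.Agent.Y604.NK.meas_lm.comp (meas_dd hφ u v n).norm

lemma meas_lmdd' (hφ : Measurable φ) (u v : ℕ → Lp ℂ 2 μ) (n : ℕ) (t : ℂ) :
    Measurable fun z : ℂ => lm ‖dd (FF φ u v n z) t‖ := by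
  have h1 : Measurable fun z : ℂ => ((z, t) : ℂ × ℂ) := measurable_id.prodMk measurable_const
  have h2 : Measurable fun z : ℂ => dd (FF φ u v n z) t :=
    Measurable.comp (g := fun p : ℂ × ℂ => dd (FF φ u v n p.1) p.2) (f := fun z : ℂ => (z, t))
      (meas_dd hφ u v n) h1
  exact Pool.Agent.Y604.NK.meas_lm.comp h2.norm

lemma meas_wt2 (hφ : Measurable φ) (u v : ℕ → Lp ℂ 2 μ) (l : ℕ → ℕ) (L : ℝ) (n : ℕ)
    (x : Lp ℂ 2 μ) (t : ℂ) : Measurable (wt2 φ u v l L n x t) := by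
  unfold wt2
  exact (measurable_const.add (measurable_const.mul
    ((meas_pot hφ u v l).add (meas_eb hφ x)))).add (meas_lmdd' hφ u v n t)

omit [SigmaFinite μ] in
/-- consequences of finiteness of the weight -/
lemma wt2_fin {u v : ℕ → Lp ℂ 2 μ} {l : ℕ → ℕ} {L : ℝ} (hL : 0 ≤ L) {n : ℕ} {x : Lp ℂ 2 μ}
    {t z : ℂ} (h : wt2 φ u v l L n x t z ≠ ⊤) :
    pot φ u v l z ≠ ⊤ ∧ eb φ x z ≠ ⊤ ∧ dd (FF φ u v n z) t ≠ 0 ∧
    (3 + 5 * L) + (3 + 10 * (1 + ‖t‖ ^ 4) * (4 + 4096 * L ^ 3)) *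
      ((pot φ u v l z).toReal + (eb φ x z).toReal) +
      Real.posLog ‖dd (FF φ u v n z) t‖⁻¹ ≤ (wt2 φ u v l L n x t z).toReal := by
  have hpos : (0:ℝ) < 3 + 10 * (1 + ‖t‖ ^ 4) * (4 + 4096 * L ^ 3) := by positivity
  unfold wt2 at h
  rw [ENNReal.add_ne_top, ENNReal.add_ne_top] at h
  obtain ⟨⟨-, h1⟩, h2⟩ := h
  have h3 : pot φ u v l z + eb φ x z ≠ ⊤ := by
    intro h4
    rw [h4, ENNReal.mul_top (by simpa using hpos)] at h1
    exact h1 rfl
  obtain ⟨h4, h5⟩ := ENNReal.add_ne_top.1 h3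
  have h7 : dd (FF φ u v n z) t ≠ 0 := by
    intro h8
    rw [h8] at h2
    simp [lm] at h2
  refine ⟨h4, h5, h7, ?_⟩
  have h8 : lm ‖dd (FF φ u v n z) t‖ =
      ENNReal.ofReal (Real.posLog ‖dd (FF φ u v n z) t‖⁻¹) := by
    unfold lm
    rw [if_neg (by simpa using h7)]
  unfold wt2
  rw [ENNReal.toReal_add (ENNReal.add_ne_top.2 ⟨by simp, h1⟩) h2, ENNReal.toReal_add (by simp) h1,
    ENNReal.toReal_mul, ENNReal.toReal_ofReal hpos.le,
    ENNReal.toReal_add h4 h5, h8,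
    ENNReal.toReal_ofReal Real.posLog_nonneg, ENNReal.toReal_ofReal (by positivity)]

omit [SigmaFinite μ] in
lemma ct_enorm_le (hφ : Measurable φ) (y x : Lp ℂ 2 μ) (z : ℂ) :
    ‖ct φ y x z‖ₑ ≤ eb φ y z + eb φ x z := by
  have hy := (Lp.stronglyMeasurable y).measurable
  have hq : Measurable fun s => ENNReal.ofReal ‖z - φ s‖⁻¹ := (aesm_dist hφ z).inv.ennreal_ofReal
  unfold ct eb
  have hm1 : Measurable fun s => ‖y s‖ₑ ^ 2 * ENNReal.ofReal ‖z - φ s‖⁻¹ :=
    (hy.enorm.pow_const 2).mul hq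
  rw [← lintegral_add_left hm1]
  refine (enorm_integral_le_lintegral_enorm _).trans (lintegral_mono fun s => ?_)
  rw [enorm_mul, enorm_mul, RCLike.enorm_conj, ← add_mul]
  refine mul_le_mul' ?_ ?_
  · rcases le_total ‖y s‖ₑ ‖x s‖ₑ with h | h
    · refine (mul_le_mul' h le_rfl).trans ?_
      rw [← pow_two]
      exact le_add_self
    · refine (mul_le_mul' le_rfl h).trans ?_
      rw [← pow_two]
      exact le_self_add
  · rw [← ofReal_norm, norm_inv]

/-- **one step** -/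
theorem step2 {N : Lp ℂ 2 μ →L[ℂ] Lp ℂ 2 μ} (hN : IsMul φ N) {u v : ℕ → Lp ℂ 2 μ} {l : ℕ → ℕ}
    {L : ℝ} (hu : Lev u l L) (hv : Lev v l L) (x : Lp ℂ 2 μ)
    (t c : ℂ) (ρ : ℝ) (hρ : 0 < ρ) (B : ℝ≥0) : ∃ (Q δ : ℝ), 0 ≤ Q ∧ 0 < δ ∧
    ∀ n, (∫⁻ z in closedBall c ρ, wt2 φ u v l L n x t z) ≤ B →
    ∃ (X : ℕ → Lp ℂ 2 μ) (Z : Lp ℂ 2 μ) (κ : ℂ),
      (∀ a, (N + t • fr u v n) (X a) - c • X a = X (a + 1)) ∧
      (∀ a, ‖X a‖ ≤ Q * ρ ^ a) ∧
      c • Z - (N + t • fr u v n) Z = X 0 + κ • x ∧ ‖Z‖ ≤ Q ∧ δ ≤ ‖κ‖ ∧ ‖κ‖ ≤ Q := by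
  have hφ := hN.meas
  have hL := hu.pos
  obtain ⟨δ, hδ, hδ2⟩ := out2 c ρ hρ B
  obtain ⟨C₀, hC₀, hC₀2⟩ := int_eb (μ := μ) hφ (‖c‖ + ρ + 1)
  have hsub : closedBall c ρ ⊆ ball (0:ℂ) (‖c‖ + ρ + 1) := by
    intro z hz
    rw [mem_closedBall, dist_eq_norm] at hz
    rw [mem_ball_zero_iff]
    calc ‖z‖ = ‖(z - c) + c‖ := by rw [sub_add_cancel]
      _ ≤ ‖z - c‖ + ‖c‖ := norm_add_le _ _
      _ < _ := by linarith
  set Vo : ℝ := (volume (closedBall c ρ)).toReal with hVo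
  have hVo0 : 0 ≤ Vo := ENNReal.toReal_nonneg
  have hVoE : volume (closedBall c ρ) = ENNReal.ofReal Vo :=
    (ENNReal.ofReal_toReal measure_closedBall_lt_top.ne).symm
  have hI : ∀ f : Lp ℂ 2 μ, ∫⁻ z in closedBall c ρ, eb φ f z ≤ ENNReal.ofReal (‖f‖ ^ 2 * C₀) :=
    fun f => (lintegral_mono_set hsub).trans (hC₀2 f)
  set Q : ℝ := C₀ + ‖x‖ ^ 2 * C₀ + ‖t‖ * (Vo + C₀) with hQdef
  have hQ0 : 0 ≤ Q := by positivity
  refine ⟨ρ * Q + Q + Vo, δ, by positivity, hδ, fun n hB => ?_⟩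
  set m : ℂ → ℝ≥0∞ := wt2 φ u v l L n x t with hmdef
  have hm : Measurable m := meas_wt2 hφ u v l L n x t
  obtain ⟨h, hh, hle, hlow, hmom⟩ := hδ2 m hm hB
  set G : Set ℂ := {z | m z ≠ ⊤ ∧ ‖h z‖ ≤ Real.exp (-(m z).toReal)} with hG
  have hGm : MeasurableSet G := by
    refine MeasurableSet.inter ?_ ?_
    · exact (hm (measurableSet_singleton ⊤)).compl
    · exact measurableSet_le hh.norm (Real.measurable_exp.comp hm.ennreal_toReal.neg)
  have hGae : ∀ᵐ z ∂(volume.restrict (closedBall c ρ)), z ∈ G := hle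
  set MMz : ℂ → Matrix (Fin n) (Fin n) ℂ := fun z => 1 - t • FF φ u v n z with hMMz
  set bz : ℂ → Fin n → ℂ := fun z i => ct φ (v i) x z with hbz
  set cr : ℂ → Fin n → ℂ := fun z => ((MMz z).det)⁻¹ • Matrix.cramer (MMz z) (bz z) with hcr
  have hMMe : ∀ i j, Measurable fun z => MMz z i j := by
    intro i j
    exact measurable_const.sub (measurable_const.mul (meas_FF hφ u v n i j))
  have hbm : ∀ i, Measurable fun z => bz z i := fun i => Pool.Agent.Y604.NK.meas_ct hφ (v i) x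
  have hcrm : ∀ i, Measurable fun z => cr z i := by
    intro i
    have e1 : (fun z => cr z i) = fun z => ((MMz z).det)⁻¹ * ((MMz z).updateCol i (bz z)).det := by
      funext z
      simp [hcr, Matrix.cramer_apply]
    rw [e1]
    refine (measurable_det hMMe).inv.mul (measurable_det fun k l => ?_)
    by_cases hl : l = i
    · subst hl
      simpa using hbm k
    · have e2 : (fun z => (MMz z).updateCol i (bz z) k l) = fun z => MMz z k l := by
        funext z
        rw [Matrix.updateCol_ne hl]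
      rw [e2]
      exact hMMe k l
  -- properties on the good set
  have hgood : ∀ z ∈ G, (MMz z).mulVec (cr z) = bz z ∧
      ‖h z‖ ^ 2 * (∑ i, ‖cr z i‖ ^ 2) * (2 * (pot φ u v l z).toReal + 3 * L + 1) ≤ 1 ∧
      ‖h z‖ ≤ 1 ∧ pot φ u v l z ≠ ⊤ := by
    intro z hz
    obtain ⟨h1, h2⟩ := hz
    obtain ⟨w1, w2, w3, w4⟩ := wt2_fin hL.le h1
    have hdet : (MMz z).det ≠ 0 := by
      intro h0
      apply w3
      rw [dd_eq]
      have : (1 - t • FF φ u v n z).det = 0 := h0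
      rw [this, zero_mul, zero_mul, zero_mul]
    have hmul : (MMz z).mulVec (cr z) = bz z := by
      rw [hcr]
      simp only
      rw [Matrix.mulVec_smul, Matrix.mulVec_cramer, smul_smul, inv_mul_cancel₀ hdet, one_smul]
    have hgam := gam_pot hφ hu hv w1 n
    have hinv := inv2 hgam t (bz z) (cr z) w3 hmul
    have hb := p_b hφ hv w1 n w2
    have hP0 : 0 ≤ (pot φ u v l z).toReal := ENNReal.toReal_nonneg
    have he0 : 0 ≤ (eb φ x z).toReal := ENNReal.toReal_nonneg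
    have hnum := num2 (P := (pot φ u v l z).toReal) (e := (eb φ x z).toReal) (τ := ‖t‖)
      (L := L) (D := ‖dd (FF φ u v n z) t‖) hP0 he0 (norm_nonneg _) hL.le (by simpa using w3) w4
    have hD : 0 < ‖dd (FF φ u v n z) t‖ := by simpa using w3
    have h3 : ‖h z‖ * Real.sqrt (nsq (cr z)) *
        Real.sqrt (2 * (pot φ u v l z).toReal + 3 * L + 1) ≤ 1 := by
      refine le_trans ?_ hnum
      refine mul_le_mul_of_nonneg_right ?_ (Real.sqrt_nonneg _)
      refine mul_le_mul h2 (hinv.trans ?_) (Real.sqrt_nonneg _) (Real.exp_pos _).le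
      refine mul_le_mul_of_nonneg_right (Real.sqrt_le_sqrt hb) (by positivity)
    have h4 : 0 ≤ ∑ i, ‖cr z i‖ ^ 2 := Finset.sum_nonneg fun i _ => by positivity
    refine ⟨hmul, ?_, ?_, w1⟩
    · have h5 : ‖h z‖ ^ 2 * (∑ i, ‖cr z i‖ ^ 2) * (2 * (pot φ u v l z).toReal + 3 * L + 1) =
          (‖h z‖ * Real.sqrt (nsq (cr z)) *
            Real.sqrt (2 * (pot φ u v l z).toReal + 3 * L + 1)) ^ 2 := by
        rw [mul_pow, mul_pow, Real.sq_sqrt (nsq_nonneg _), Real.sq_sqrt (by positivity)]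
        rfl
      rw [h5]
      exact pow_le_one₀ (by positivity) h3
    · refine h2.trans ?_
      rw [Real.exp_le_one_iff]
      simp
  set h' : ℂ → ℂ := G.indicator h with hh'
  set g : ℕ → ℂ → ℂ := fun j z => if hj : j < n then G.indicator (fun z => h z * cr z ⟨j, hj⟩) z
    else 0 with hg
  have hh'm : Measurable h' := hh.indicator hGm
  have hgm : ∀ j, Measurable (g j) := by
    intro j
    by_cases hj : j < n
    · have e1 : g j = G.indicator (fun z => h z * cr z ⟨j, hj⟩) := by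
        funext z; simp only [hg, dif_pos hj]
      rw [e1]
      exact (hh.mul (hcrm ⟨j, hj⟩)).indicator hGm
    · have e1 : g j = fun _ => 0 := by
        funext z; simp only [hg, dif_neg hj]
      rw [e1]
      exact measurable_const
  have hh'1 : ∀ z, ‖h' z‖ ≤ 1 := by
    intro z
    by_cases hz : z ∈ G
    · rw [hh', indicator_of_mem hz]; exact (hgood z hz).2.2.1
    · rw [hh', indicator_of_notMem hz]; simp
  have hgval : ∀ z ∈ G, ∀ i : Fin n, g i z = h z * cr z i := by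
    intro z hz i
    simp only [hg, dif_pos i.2, indicator_of_mem hz]
  have hgout : ∀ z, z ∉ G → ∀ j, g j z = 0 := by
    intro z hz j
    simp only [hg]
    split_ifs
    · rw [indicator_of_notMem hz]
    · rfl
  have hgs : ∀ z ∈ G, (∑ j ∈ Finset.range n, ‖g j z‖ ^ 2) *
      (2 * (pot φ u v l z).toReal + 3 * L + 1) ≤ 1 := by
    intro z hz
    rw [Finset.sum_range]
    refine le_trans (le_of_eq ?_) (hgood z hz).2.1
    congr 1
    rw [Finset.mul_sum]
    refine Finset.sum_congr rfl fun i _ => ?_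
    rw [hgval z hz i, norm_mul, mul_pow]
  have hg1 : ∀ z, ∑ j ∈ Finset.range n, ‖g j z‖ ^ 2 ≤ 1 := by
    intro z
    by_cases hz : z ∈ G
    · have h1 := hgs z hz
      have h2 : 0 ≤ ∑ j ∈ Finset.range n, ‖g j z‖ ^ 2 :=
        Finset.sum_nonneg fun j _ => sq_nonneg _
      have h3 : 0 ≤ (pot φ u v l z).toReal := ENNReal.toReal_nonneg
      nlinarith [mul_nonneg h2 h3, mul_nonneg h2 hL.le]
    · simp [hgout z hz]
  have hrel : ∀ᵐ z ∂(volume.restrict (closedBall c ρ)), ∀ i < n,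
      h' z * ct φ (v i) x z +
        t * ∑ j ∈ Finset.range n, ct φ (v i) (u j) z * g j z = g i z := by
    filter_upwards [hGae] with z hz i hi
    have e1 := congrFun (hgood z hz).1 ⟨i, hi⟩
    rw [hMMz] at e1
    simp only [FF] at e1
    rw [Matrix.sub_mulVec, Matrix.one_mulVec, Matrix.smul_mulVec] at e1
    simp only [Pi.sub_apply, Pi.smul_apply, smul_eq_mul, Matrix.mulVec, dotProduct,
      Matrix.of_apply, hbz] at e1
    rw [Finset.sum_range, hh', indicator_of_mem hz]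
    have e2 : g i z = h z * cr z ⟨i, hi⟩ := hgval z hz ⟨i, hi⟩
    rw [e2, ← e1]
    have e3 : ∑ j : Fin n, ct φ (v i) (u j) z * g j z =
        h z * ∑ j : Fin n, ct φ (v i) (u j) z * cr z j := by
      rw [Finset.mul_sum]
      refine Finset.sum_congr rfl fun j _ => ?_
      rw [hgval z hz j]; ring
    rw [e3]
    ring
  have hint : ∀ F : ℂ → ℂ → ℂ, (∫ z in closedBall c ρ, F z (h' z)) =
      ∫ z in closedBall c ρ, F z (h z) := by
    intro F
    refine integral_congr_ae ?_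
    filter_upwards [hGae] with z hz
    rw [hh', indicator_of_mem hz]
  have hmom' : ∀ a : ℕ, (∫ z in closedBall c ρ, h' z * (z - c) ^ (a + 1)) = 0 := by
    intro a
    rw [hint (fun z w => w * (z - c) ^ (a + 1))]
    exact hmom a
  -- the bound for the inner products
  have hQ : ∀ y : Lp ℂ 2 μ, ‖y‖ ≤ 1 → ∫⁻ z in closedBall c ρ, ‖h' z * ct φ y x z +
        t * ∑ j ∈ Finset.range n, ct φ y (u j) z * g j z‖ₑ ≤ ENNReal.ofReal Q := by
    intro y hy
    have hpt : ∀ z, ‖h' z * ct φ y x z + t * ∑ j ∈ Finset.range n, ct φ y (u j) z * g j z‖ₑ ≤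
        (eb φ y z + eb φ x z) + ENNReal.ofReal ‖t‖ * (1 + eb φ y z) := by
      intro z
      refine (enorm_add_le _ _).trans (add_le_add ?_ ?_)
      · rw [enorm_mul]
        calc ‖h' z‖ₑ * ‖ct φ y x z‖ₑ ≤ 1 * (eb φ y z + eb φ x z) := by
              refine mul_le_mul' ?_ (ct_enorm_le hφ y x z)
              rw [← ofReal_norm]
              exact ENNReal.ofReal_le_one.2 (hh'1 z)
          _ = _ := one_mul _
      · rw [enorm_mul]
        refine mul_le_mul' (by rw [← ofReal_norm]) ?_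
        by_cases hz : z ∈ G
        swap
        · simp [hgout z hz]
        by_cases hy2 : eb φ y z = ⊤
        · rw [hy2]; simp
        have h1 := p_y hφ hu (hgood z hz).2.2.2 n hy2
        have h2 := hgs z hz
        have h3 : 0 ≤ (pot φ u v l z).toReal := ENNReal.toReal_nonneg
        have h4 : 0 ≤ (eb φ y z).toReal := ENNReal.toReal_nonneg
        have h5 : ‖∑ j ∈ Finset.range n, ct φ y (u j) z * g j z‖ ^ 2 ≤ (eb φ y z).toReal := by
          have s2 : 0 ≤ ∑ j ∈ Finset.range n, ‖g j z‖ ^ 2 :=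
            Finset.sum_nonneg fun j _ => sq_nonneg _
          have s1 : ∑ j ∈ Finset.range n, ‖ct φ y (u j) z‖ ^ 2 ≤
              (2 * (pot φ u v l z).toReal + 3 * L) * (eb φ y z).toReal := by
            rw [Finset.sum_range]
            exact h1
          calc ‖∑ j ∈ Finset.range n, ct φ y (u j) z * g j z‖ ^ 2
              ≤ (∑ j ∈ Finset.range n, ‖ct φ y (u j) z‖ * ‖g j z‖) ^ 2 := by
                refine pow_le_pow_left₀ (norm_nonneg _) ((norm_sum_le _ _).trans ?_) 2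
                exact Finset.sum_le_sum fun j _ => (norm_mul _ _).le
            _ ≤ (∑ j ∈ Finset.range n, ‖ct φ y (u j) z‖ ^ 2) *
                ∑ j ∈ Finset.range n, ‖g j z‖ ^ 2 := Finset.sum_mul_sq_le_sq_mul_sq _ _ _
            _ ≤ ((2 * (pot φ u v l z).toReal + 3 * L) * (eb φ y z).toReal) *
                ∑ j ∈ Finset.range n, ‖g j z‖ ^ 2 := mul_le_mul_of_nonneg_right s1 s2
            _ = (eb φ y z).toReal * ((∑ j ∈ Finset.range n, ‖g j z‖ ^ 2) *
                (2 * (pot φ u v l z).toReal + 3 * L)) := by ring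
            _ ≤ (eb φ y z).toReal * 1 := by
                refine mul_le_mul_of_nonneg_left ?_ h4
                nlinarith
            _ = _ := mul_one _
        have h6 : ‖∑ j ∈ Finset.range n, ct φ y (u j) z * g j z‖ ≤ 1 + (eb φ y z).toReal := by
          by_contra hcon
          push Not at hcon
          nlinarith
        rw [← ofReal_norm]
        refine (ENNReal.ofReal_le_ofReal h6).trans ?_
        rw [ENNReal.ofReal_add zero_le_one h4, ENNReal.ofReal_one, ENNReal.ofReal_toReal hy2]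
    have my := meas_eb (μ := μ) hφ y
    have mx := meas_eb (μ := μ) hφ x
    calc ∫⁻ z in closedBall c ρ, ‖h' z * ct φ y x z +
        t * ∑ j ∈ Finset.range n, ct φ y (u j) z * g j z‖ₑ
        ≤ ∫⁻ z in closedBall c ρ, ((eb φ y z + eb φ x z) +
          ENNReal.ofReal ‖t‖ * (1 + eb φ y z)) := lintegral_mono hpt
      _ = (∫⁻ z in closedBall c ρ, eb φ y z) + (∫⁻ z in closedBall c ρ, eb φ x z) +
          ENNReal.ofReal ‖t‖ * (volume (closedBall c ρ) + ∫⁻ z in closedBall c ρ, eb φ y z) := by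
          have myx : Measurable fun z => eb φ y z + eb φ x z := my.add mx
          rw [lintegral_add_left myx, lintegral_add_left my,
            lintegral_const_mul' _ _ ENNReal.ofReal_ne_top, lintegral_add_left measurable_const,
            setLIntegral_one]
      _ ≤ ENNReal.ofReal C₀ + ENNReal.ofReal (‖x‖ ^ 2 * C₀) +
          ENNReal.ofReal ‖t‖ * (ENNReal.ofReal Vo + ENNReal.ofReal C₀) := by
          have hy2 : ∫⁻ z in closedBall c ρ, eb φ y z ≤ ENNReal.ofReal C₀ := by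
            refine (hI y).trans (ENNReal.ofReal_le_ofReal ?_)
            have : ‖y‖ ^ 2 ≤ 1 := pow_le_one₀ (norm_nonneg _) hy
            nlinarith
          rw [hVoE]
          gcongr
          exact hI x
      _ = ENNReal.ofReal Q := by
          rw [← ENNReal.ofReal_add hC₀ (by positivity), ← ENNReal.ofReal_add hVo0 hC₀,
            ← ENNReal.ofReal_mul (norm_nonneg _), ← ENNReal.ofReal_add (by positivity)
            (by positivity)]
  obtain ⟨X, Z, x1, x2, x3, x4⟩ := CB.core2 hN u v n x t c ρ hρ Q hQ0 h' g hh'm hgm hh'1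
    hg1 hQ hrel hmom'
  refine ⟨X, Z, _, x1, fun a => (x2 a).trans ?_, x3, x4.trans ?_, ?_, ?_⟩
  · have : 0 ≤ ρ ^ a := by positivity
    refine mul_le_mul_of_nonneg_right ?_ this
    linarith
  · have : 0 ≤ ρ * Q := by positivity
    linarith
  · rw [norm_neg, hint (fun z w => w)]
    exact hlow
  · rw [norm_neg]
    have e1 : ‖∫ z in closedBall c ρ, h' z‖ ≤ 1 * (volume.real (closedBall c ρ)) :=
      norm_setIntegral_le_of_norm_le_const measure_closedBall_lt_top fun z _ => hh'1 z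
    rw [one_mul] at e1
    have : 0 ≤ ρ * Q := by positivity
    have e2 : volume.real (closedBall c ρ) = Vo := rfl
    linarith

end

end Pool.Agent.K4H47.HS
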