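import Pool.Agent.K4H47.HS.Rep
import Pool.Agent.Y25.NK.SPN

/-!
# Project HS: good couplings give hyperinvariant subspaces; the theorem for representations
-/

set_option autoImplicit false

namespace Pool.Agent.K4H47.HS

open MeasureTheory Set Metric Filter Topology
open scoped InnerProductSpace ENNReal NNReal ComplexConjugate
open Pool.Agent.Y283.NK

section

variable {S : Type} [MeasurableSpace S] {μ : Measure S} [SigmaFinite μ] {φ : S → ℂ}
  {u v : ℕ → Lp ℂ 2 μ} {l : ℕ → ℕ} {L : ℝ}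

theorem hyp2 {N : Lp ℂ 2 μ →L[ℂ] Lp ℂ 2 μ} (hN : IsMul φ N) {K : Lp ℂ 2 μ →L[ℂ] Lp ℂ 2 μ}
    (hK : HSR K u v l L) (t : ℂ) (R : ℝ) (hR : ‖N + t • K‖ + 1 < R)
    (I : Set ℕ) (B : ℝ≥0) (hI : I.Infinite)
    (hB : ∀ n ∈ I, ∫⁻ z in ball (0:ℂ) R, lm ‖dd (FF φ u v n z) t‖ ≤ B) :
    (∃ c : ℂ, N + t • K = c • 1) ∨ HasHyp (N + t • K) := by
  by_cases hsc : ∃ c : ℂ, N + t • K = c • 1
  · exact Or.inl hsc
  right
  push Not at hsc
  set T : Lp ℂ 2 μ →L[ℂ] Lp ℂ 2 μ := N + t • K with hT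
  by_cases e1 : ∃ (z : ℂ) (f : Lp ℂ 2 μ), T f = z • f ∧ f ≠ 0
  · obtain ⟨z, f, h1, h2⟩ := e1
    exact hyp_of_eigen h2 h1 hsc
  by_cases e2 : ∃ (z : ℂ) (f : Lp ℂ 2 μ), ContinuousLinearMap.adjoint T f = z • f ∧ f ≠ 0
  · obtain ⟨z, f, h1, h2⟩ := e2
    exact hyp_of_adj_eigen h2 h1 hsc
  push Not at e1 e2
  have hnt : Nontrivial (Lp ℂ 2 μ) := by
    by_contra h
    rw [not_nontrivial_iff_subsingleton] at h
    apply hsc 0
    ext1 f
    exact Subsingleton.elim _ _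
  have hN' := Pool.Agent.Y77.NK.isMul_adj hN
  have hstarN : IsStarNormal N := by
    constructor
    show ContinuousLinearMap.adjoint N * N = N * ContinuousLinearMap.adjoint N
    ext1 f
    apply Lp.ext
    have a1 := hN'.eq (N f)
    have a2 := hN.eq f
    have a3 := hN.eq (ContinuousLinearMap.adjoint N f)
    have a4 := hN'.eq f
    show (⇑(ContinuousLinearMap.adjoint N (N f)) : S → ℂ) =ᵐ[μ]
      ⇑(N (ContinuousLinearMap.adjoint N f))
    filter_upwards [a1, a2, a3, a4] with s b1 b2 b3 b4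
    rw [b1, b2, b3, b4]
    ring
  have hKc : IsCompactOperator K := hK.compact
  obtain ⟨c₁, hc₁⟩ := spectrum.nonempty T
  by_cases hone : spectrum ℂ T = {c₁}
  · -- one point spectrum
    have h1 : IsCompactOperator (t • K) := hKc.smul t
    have h2 := Pool.Agent.W806.HI.main (Lp ℂ 2 μ) N (t • K) c₁ hstarN h1 hone
    have h3 : IsCompactOperator (T - c₁ • (1 : Lp ℂ 2 μ →L[ℂ] Lp ℂ 2 μ)) := by
      have h4 : T - c₁ • (1 : Lp ℂ 2 μ →L[ℂ] Lp ℂ 2 μ) =
          (N - c₁ • (1 : Lp ℂ 2 μ →L[ℂ] Lp ℂ 2 μ)) + t • K := by rw [hT]; abel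
      rw [h4]
      exact h2.add h1
    refine hyp_shift c₁ (Pool.Agent.W577.HI.G1.main _ _ h3 ?_)
    rintro ⟨c, hc⟩
    apply hsc (c + c₁)
    rw [add_smul, ← hc]
    abel
  -- two points
  obtain ⟨c₂, hc₂, hne⟩ : ∃ c₂ ∈ spectrum ℂ T, c₂ ≠ c₁ := by
    by_contra hcon
    push Not at hcon
    apply hone
    ext z
    exact ⟨fun hz => hcon z hz, fun hz => by rw [mem_singleton_iff.1 hz]; exact hc₁⟩
  have hdist : 0 < ‖c₁ - c₂‖ := norm_pos_iff.2 (sub_ne_zero.2 (Ne.symm hne))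
  set ρ : ℝ := min (‖c₁ - c₂‖ / 4) 1 with hρdef
  have hρ : 0 < ρ := lt_min (by positivity) one_pos
  have hρ1 : ρ ≤ 1 := min_le_right _ _
  have hρ2 : ρ ≤ ‖c₁ - c₂‖ / 4 := min_le_left _ _
  have hballs : ∀ c : ℂ, ‖c‖ ≤ ‖T‖ → closedBall c ρ ⊆ ball (0:ℂ) R := by
    intro c hc z hz
    rw [mem_closedBall, dist_eq_norm] at hz
    rw [mem_ball_zero_iff]
    calc ‖z‖ = ‖(z - c) + c‖ := by rw [sub_add_cancel]
      _ ≤ ‖z - c‖ + ‖c‖ := norm_add_le _ _
      _ < R := by linarith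
  obtain ⟨x, hx⟩ := not_surj e1 hc₁
  obtain ⟨C₁, X, X1, X2, X3⟩ := loc2 hN hK t c₁ ρ R hρ
    (hballs c₁ (spectrum.norm_le_norm_of_mem hc₁)) I B hI hB x hx
  -- the adjoint
  have hTadj : ContinuousLinearMap.adjoint T =
      ContinuousLinearMap.adjoint N + (conj t) • ContinuousLinearMap.adjoint K := by
    rw [hT, map_add]
    congr 1
    ext1 f
    refine ext_inner_right ℂ fun y => ?_
    rw [ContinuousLinearMap.adjoint_inner_left]
    show ⟪f, t • K y⟫_ℂ = ⟪(conj t) • ContinuousLinearMap.adjoint K f, y⟫_ℂ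
    rw [inner_smul_right, inner_smul_left, ContinuousLinearMap.adjoint_inner_left,
      Complex.conj_conj]
  have hc₂' : (conj c₂) ∈ spectrum ℂ (ContinuousLinearMap.adjoint T) := by
    have h1 : ContinuousLinearMap.adjoint T = star T := rfl
    rw [h1, spectrum.map_star]
    simpa using hc₂
  obtain ⟨y, hy⟩ := not_surj e2 hc₂'
  have hB' : ∀ n ∈ I, ∫⁻ z in ball (0:ℂ) R,
      lm ‖dd (FF (fun s => conj (φ s)) v u n z) (conj t)‖ ≤ B := by
    intro n hn
    rw [reflect2]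
    exact hB n hn
  have hnc₂ : ‖conj c₂‖ ≤ ‖T‖ := by
    rw [RCLike.norm_conj]
    exact spectrum.norm_le_norm_of_mem hc₂
  rw [hTadj] at hy
  obtain ⟨C₂, Y, Y1, Y2, Y3⟩ := loc2 hN' hK.adj (conj t) (conj c₂) ρ R hρ (hballs _ hnc₂) I B hI
    hB' y hy
  refine Pool.Agent.Y529.NK.ANN.main (Lp ℂ 2 μ) T c₁ c₂ ρ ρ C₁ C₂ X Y hρ.le hρ.le ?_ X1 X2 ?_ Y2
    X3 Y3
  · linarith
  · intro a
    rw [hTadj]
    exact Y1 a

/-- the local part: small local spectra at every point of the spectrum -/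
theorem locvec2 {N : Lp ℂ 2 μ →L[ℂ] Lp ℂ 2 μ} (hN : IsMul φ N) {K : Lp ℂ 2 μ →L[ℂ] Lp ℂ 2 μ}
    (hK : HSR K u v l L) (t : ℂ) (R : ℝ) (hR : ‖N + t • K‖ + 1 < R)
    (I : Set ℕ) (B : ℝ≥0) (hI : I.Infinite)
    (hB : ∀ n ∈ I, ∫⁻ z in ball (0:ℂ) R, lm ‖dd (FF φ u v n z) t‖ ≤ B) :
    LocVec (N + t • K) := by
  intro c hc ε hε
  set T : Lp ℂ 2 μ →L[ℂ] Lp ℂ 2 μ := N + t • K with hT
  have hnt : Nontrivial (Lp ℂ 2 μ) := by
    by_contra h
    rw [not_nontrivial_iff_subsingleton] at h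
    have : IsUnit (algebraMap ℂ (Lp ℂ 2 μ →L[ℂ] Lp ℂ 2 μ) c - T) := by
      refine isUnit_iff_exists_inv.2 ⟨0, ?_⟩
      ext1 f
      exact Subsingleton.elim _ _
    exact hc this
  by_cases hinj : ∃ f : Lp ℂ 2 μ, T f = c • f ∧ f ≠ 0
  · obtain ⟨f, h1, h2⟩ := hinj
    refine ⟨f, ‖f‖, h2, fun n => ?_⟩
    have h3 : (T - c • (1 : Lp ℂ 2 μ →L[ℂ] Lp ℂ 2 μ)) f = 0 := by
      show T f - c • f = 0
      rw [h1, sub_self]
    cases n with
    | zero => simp
    | succ n =>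
      rw [pow_succ, ContinuousLinearMap.mul_apply, h3, map_zero, norm_zero]
      positivity
  push Not at hinj
  have hx : ∃ x, ∀ y, c • y - T y ≠ x := by
    by_contra hcon
    push Not at hcon
    apply hc
    rw [spectrum.mem_resolventSet_iff, ContinuousLinearMap.isUnit_iff_bijective]
    have hval : ∀ y, (algebraMap ℂ (Lp ℂ 2 μ →L[ℂ] Lp ℂ 2 μ) c - T) y = c • y - T y := by
      intro y
      rw [Algebra.algebraMap_eq_smul_one]
      rfl
    constructor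
    · rw [injective_iff_map_eq_zero]
      intro y hy
      rw [hval, sub_eq_zero] at hy
      exact hinj y hy.symm
    · intro x
      obtain ⟨y, hy⟩ := hcon x
      exact ⟨y, (hval y).trans hy⟩
  obtain ⟨x, hx⟩ := hx
  set ρ : ℝ := min ε 1 with hρdef
  have hρ : 0 < ρ := lt_min hε one_pos
  have hρ1 : ρ ≤ 1 := min_le_right _ _
  have hball : closedBall c ρ ⊆ ball (0:ℂ) R := by
    intro z hz
    rw [mem_closedBall, dist_eq_norm] at hz
    rw [mem_ball_zero_iff]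
    have h1 : ‖c‖ ≤ ‖T‖ := spectrum.norm_le_norm_of_mem hc
    calc ‖z‖ = ‖(z - c) + c‖ := by rw [sub_add_cancel]
      _ ≤ ‖z - c‖ + ‖c‖ := norm_add_le _ _
      _ < R := by linarith
  obtain ⟨C, X, X1, X2, X3⟩ := loc2 hN hK t c ρ R hρ hball I B hI hB x hx
  refine ⟨X 0, C, X3, fun n => ?_⟩
  rw [pow_of_rec X1 n]
  have hC : 0 ≤ C := by
    have h1 := X2 0
    rw [pow_zero, mul_one] at h1
    exact (norm_nonneg _).trans h1
  refine (X2 n).trans ?_
  have h2 : ρ ≤ ε := min_le_left _ _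
  gcongr

end

/-- **the theorem for operators with a representation** -/
theorem main_hsr (H : Type) [NormedAddCommGroup H] [InnerProductSpace ℂ H] [CompleteSpace H]
    [TopologicalSpace.SeparableSpace H] (N K : H →L[ℂ] H) (hN : IsStarNormal N) (u v : ℕ → H)
    (l : ℕ → ℕ) (L : ℝ) (hK : HSR K u v l L) (m : Measure ℂ) [SFinite m] (hm : LogBd m) :
    ∀ᵐ t ∂m, ((∃ c : ℂ, N + t • K = c • 1) ∨ HasHyp (N + t • K)) ∧ LocVec (N + t • K) ∧
      LocVec (ContinuousLinearMap.adjoint (N + t • K)) := by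
  obtain ⟨S, _, μ, _, φ, W, hφ, hφb, hW⟩ := Pool.Agent.Y25.NK.SPN.main H N hN
  have hMul : IsMul φ (cj W N) := by
    refine ⟨hφ, ⟨‖N‖, hφb⟩, fun f => ?_⟩
    have h1 : MemLp (fun s => φ s * f s) 2 μ := by
      refine MemLp.of_le_mul (c := ‖N‖) (Lp.memLp f)
        (hφ.aestronglyMeasurable.mul (Lp.aestronglyMeasurable f))
        (Eventually.of_forall fun s => ?_)
      rw [norm_mul]
      exact mul_le_mul_of_nonneg_right (hφb s) (norm_nonneg _)
    have h2 := hW f (h1.toLp _) h1.coeFn_toLp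
    rw [cj_apply, h2, LinearIsometryEquiv.symm_apply_apply]
    exact h1.coeFn_toLp
  have hK' : HSR (cj W K) (fun j => W.symm (u j)) (fun j => W.symm (v j)) l L := hK.cj W
  have hall : ∀ᵐ t ∂m, ∀ k : ℕ, t ∈ ball (0:ℂ) k → ∃ (I : Set ℕ) (B : ℝ≥0), I.Infinite ∧
      ∀ n ∈ I, ∫⁻ z in ball (0:ℂ) (‖cj W N‖ + k * ‖cj W K‖ + 2),
        lm ‖dd (FF φ (fun j => W.symm (u j)) (fun j => W.symm (v j)) n z) t‖ ≤ B := by
    rw [ae_all_iff]
    intro k
    rw [← ae_restrict_iff' measurableSet_ball]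
    exact gen2 hφ hK'.lu hK'.lv hK'.sm m hm k _
  filter_upwards [hall] with t ht
  obtain ⟨k, hk⟩ := exists_nat_gt ‖t‖
  obtain ⟨I, B, hI, hB⟩ := ht k (by rw [mem_ball_zero_iff]; exact hk)
  have hR : ‖cj W N + t • cj W K‖ + 1 < ‖cj W N‖ + k * ‖cj W K‖ + 2 := by
    have h1 : ‖cj W N + t • cj W K‖ ≤ ‖cj W N‖ + ‖t‖ * ‖cj W K‖ :=
      (norm_add_le _ _).trans (by rw [norm_smul])
    have h2 : ‖t‖ * ‖cj W K‖ ≤ k * ‖cj W K‖ := mul_le_mul_of_nonneg_right hk.le (norm_nonneg _)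
    linarith
  have hadj : ContinuousLinearMap.adjoint (cj W N + t • cj W K) =
      ContinuousLinearMap.adjoint (cj W N) + (conj t) • ContinuousLinearMap.adjoint (cj W K) := by
    rw [map_add]
    congr 1
    ext1 f
    refine ext_inner_right ℂ fun y => ?_
    rw [ContinuousLinearMap.adjoint_inner_left]
    show ⟪f, t • cj W K y⟫_ℂ = ⟪(conj t) • ContinuousLinearMap.adjoint (cj W K) f, y⟫_ℂ
    rw [inner_smul_right, inner_smul_left, ContinuousLinearMap.adjoint_inner_left,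
      Complex.conj_conj]
  refine ⟨?_, ?_, ?_⟩
  · rcases hyp2 hMul hK' t _ hR I B hI hB with ⟨c, hc⟩ | h
    · rw [← cj_add_smul] at hc
      exact Or.inl ⟨c, scalar_of_cj W hc⟩
    · rw [← cj_add_smul] at h
      exact Or.inr (hyp_of_cj W h)
  · have h := locvec2 hMul hK' t _ hR I B hI hB
    rw [← cj_add_smul] at h
    exact locvec_of_cj W h
  · have hR' : ‖ContinuousLinearMap.adjoint (cj W N) +
        (conj t) • ContinuousLinearMap.adjoint (cj W K)‖ + 1 <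
        ‖cj W N‖ + k * ‖cj W K‖ + 2 := by
      rw [← hadj, LinearIsometryEquiv.norm_map]
      exact hR
    have h := locvec2 (Pool.Agent.Y77.NK.isMul_adj hMul) hK'.adj (conj t) _ hR' I B hI
      (fun n hn => by
        rw [reflect2]
        exact hB n hn)
    rw [← hadj] at h
    have h2 : ContinuousLinearMap.adjoint (cj W N + t • cj W K) =
        cj W (ContinuousLinearMap.adjoint (N + t • K)) := by
      rw [← cj_add_smul]
      ext1 f
      refine ext_inner_right ℂ fun y => ?_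
      rw [ContinuousLinearMap.adjoint_inner_left, cj_apply, cj_apply]
      calc ⟪f, W.symm ((N + t • K) (W y))⟫_ℂ = ⟪W f, (N + t • K) (W y)⟫_ℂ := by
            rw [← W.inner_map_map, LinearIsometryEquiv.apply_symm_apply]
        _ = ⟪ContinuousLinearMap.adjoint (N + t • K) (W f), W y⟫_ℂ := by
            rw [ContinuousLinearMap.adjoint_inner_left]
        _ = ⟪W.symm (ContinuousLinearMap.adjoint (N + t • K) (W f)), y⟫_ℂ := by
            rw [← W.inner_map_map, LinearIsometryEquiv.apply_symm_apply]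
    rw [h2] at h
    exact locvec_of_cj W h

end Pool.Agent.K4H47.HS
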