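import Pool.Agent.K4H47.HS.Mat2
import Pool.Agent.Y283.NK.Stm2

/-!
# Project HS: levels
-/

set_option autoImplicit false

namespace Pool.Agent.K4H47.HS

open MeasureTheory Set Metric Filter Topology Matrix
open scoped InnerProductSpace ENNReal NNReal ComplexConjugate
open Pool.Agent.Y283.NK

/-- the levels -/
noncomputable def th (k : ℕ) : ℝ := (16:ℝ)⁻¹ ^ k

lemma th_pos (k : ℕ) : 0 < th k := by unfold th; positivity

lemma th_le_one (k : ℕ) : th k ≤ 1 := pow_le_one₀ (by norm_num) (by norm_num)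

/-- families of vectors which satisfy Bessel's inequality with constant `L θ_k` on level `k` -/
structure Lev {H : Type} [NormedAddCommGroup H] [InnerProductSpace ℂ H] {ι : Type} (u : ι → H)
    (l : ι → ℕ) (L : ℝ) : Prop where
  pos : 0 < L
  bes : ∀ (k : ℕ) (s : Finset ι), (∀ j ∈ s, l j = k) → ∀ g : H,
    ∑ j ∈ s, ‖⟪u j, g⟫_ℂ‖ ^ 2 ≤ L * th k * ‖g‖ ^ 2

lemma Lev.comp {H : Type} [NormedAddCommGroup H] [InnerProductSpace ℂ H] {ι ι' : Type} {u : ι → H}
    {l : ι → ℕ} {L : ℝ} (h : Lev u l L) (e : ι' ↪ ι) : Lev (fun j => u (e j)) (fun j => l (e j)) L := by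
  refine ⟨h.pos, fun k s hs g => ?_⟩
  have h1 := h.bes k (s.map e) (fun j hj => by
    obtain ⟨i, hi, rfl⟩ := Finset.mem_map.1 hj
    exact hs i hi) g
  rw [Finset.sum_map] at h1
  exact h1

lemma Lev.norm_sq {H : Type} [NormedAddCommGroup H] [InnerProductSpace ℂ H] {ι : Type} {u : ι → H}
    {l : ι → ℕ} {L : ℝ} (h : Lev u l L) (j : ι) : ‖u j‖ ^ 2 ≤ L * th (l j) := by
  have h1 := h.bes (l j) {j} (fun i hi => by rw [Finset.mem_singleton.1 hi]) (u j)
  rw [Finset.sum_singleton, inner_self_eq_norm_sq_to_K] at h1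
  have h2 : ‖((‖u j‖ : ℂ) ^ 2)‖ = ‖u j‖ ^ 2 := by
    rw [norm_pow, Complex.norm_real, norm_norm]
  have h3 : (‖u j‖ ^ 2) ^ 2 ≤ L * th (l j) * ‖u j‖ ^ 2 := by
    rw [← h2]
    simpa using h1
  rcases (sq_nonneg ‖u j‖).eq_or_lt with h4 | h4
  · rw [← h4]
    exact (mul_pos h.pos (th_pos _)).le
  · nlinarith

/-- the geometric sums of the levels which are below `ρ` -/
lemma sum_th_le (s : Finset ℕ) (ρ : ℝ) (hρ : 0 ≤ ρ) :
    ∑ k ∈ s, (if th k ≤ ρ then th k else 0) ≤ 16 / 15 * ρ := by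
  classical
  rw [← Finset.sum_filter]
  by_cases he : (s.filter fun k => th k ≤ ρ).Nonempty
  · obtain ⟨k0, hk0, hmin⟩ := Finset.exists_min_image _ (fun k => k) he
    have h1 : th k0 ≤ ρ := (Finset.mem_filter.1 hk0).2
    have h2 : (s.filter fun k => th k ≤ ρ) ⊆
        (Finset.range ((s.filter fun k => th k ≤ ρ).sup id + 1)).map
          (addLeftEmbedding k0) := by
      intro k hk
      rw [Finset.mem_map]
      refine ⟨k - k0, ?_, ?_⟩
      · rw [Finset.mem_range]
        have : k ≤ (s.filter fun k => th k ≤ ρ).sup id := Finset.le_sup (f := id) hk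
        omega
      · have := hmin k hk
        simp only [addLeftEmbedding_apply]
        omega
    calc ∑ k ∈ s.filter (fun k => th k ≤ ρ), th k
        ≤ ∑ k ∈ (Finset.range ((s.filter fun k => th k ≤ ρ).sup id + 1)).map
          (addLeftEmbedding k0), th k :=
          Finset.sum_le_sum_of_subset_of_nonneg h2 fun k _ _ => (th_pos k).le
      _ = th k0 * ∑ k ∈ Finset.range ((s.filter fun k => th k ≤ ρ).sup id + 1), (16:ℝ)⁻¹ ^ k := by
          rw [Finset.sum_map, Finset.mul_sum]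
          refine Finset.sum_congr rfl fun k _ => ?_
          simp only [addLeftEmbedding_apply, th]
          rw [pow_add]
      _ ≤ th k0 * (16 / 15) := by
          gcongr
          · exact (th_pos _).le
          · have h3 := Summable.sum_le_tsum
              (Finset.range ((s.filter fun k => th k ≤ ρ).sup id + 1))
              (f := fun k : ℕ => (16:ℝ)⁻¹ ^ k) (fun k _ => by positivity)
              (summable_geometric_of_lt_one (by norm_num) (by norm_num))
            rw [tsum_geometric_of_lt_one (by norm_num) (by norm_num)] at h3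
            refine h3.trans (by norm_num)
      _ ≤ _ := by nlinarith
  · rw [Finset.not_nonempty_iff_eq_empty] at he
    rw [he, Finset.sum_empty]
    positivity

/-- the geometric sums with ratio `1/2` of the levels which are below `r ^ 4` -/
lemma sum_half_le (s : Finset ℕ) (r : ℝ) (hr : 0 ≤ r) :
    ∑ k ∈ s, (if th k ≤ r ^ 4 then (2:ℝ)⁻¹ ^ k else 0) ≤ 2 * r := by
  classical
  rw [← Finset.sum_filter]
  by_cases he : (s.filter fun k => th k ≤ r ^ 4).Nonempty
  · obtain ⟨k0, hk0, hmin⟩ := Finset.exists_min_image _ (fun k => k) he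
    have h1 : th k0 ≤ r ^ 4 := (Finset.mem_filter.1 hk0).2
    have h1' : (2:ℝ)⁻¹ ^ k0 ≤ r := by
      have h5 : th k0 = ((2:ℝ)⁻¹ ^ k0) ^ 4 := by
        unfold th
        rw [← pow_mul, mul_comm, pow_mul]
        norm_num
      rw [h5] at h1
      exact (pow_le_pow_iff_left₀ (by positivity) hr (by norm_num)).1 h1
    have h2 : (s.filter fun k => th k ≤ r ^ 4) ⊆
        (Finset.range ((s.filter fun k => th k ≤ r ^ 4).sup id + 1)).map
          (addLeftEmbedding k0) := by
      intro k hk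
      rw [Finset.mem_map]
      refine ⟨k - k0, ?_, ?_⟩
      · rw [Finset.mem_range]
        have : k ≤ (s.filter fun k => th k ≤ r ^ 4).sup id := Finset.le_sup (f := id) hk
        omega
      · have := hmin k hk
        simp only [addLeftEmbedding_apply]
        omega
    calc ∑ k ∈ s.filter (fun k => th k ≤ r ^ 4), (2:ℝ)⁻¹ ^ k
        ≤ ∑ k ∈ (Finset.range ((s.filter fun k => th k ≤ r ^ 4).sup id + 1)).map
          (addLeftEmbedding k0), (2:ℝ)⁻¹ ^ k :=
          Finset.sum_le_sum_of_subset_of_nonneg h2 fun k _ _ => by positivity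
      _ = (2:ℝ)⁻¹ ^ k0 * ∑ k ∈ Finset.range ((s.filter fun k => th k ≤ r ^ 4).sup id + 1),
          (2:ℝ)⁻¹ ^ k := by
          rw [Finset.sum_map, Finset.mul_sum]
          refine Finset.sum_congr rfl fun k _ => ?_
          simp only [addLeftEmbedding_apply]
          rw [pow_add]
      _ ≤ (2:ℝ)⁻¹ ^ k0 * 2 := by
          gcongr
          have h3 := Summable.sum_le_tsum
              (Finset.range ((s.filter fun k => th k ≤ r ^ 4).sup id + 1))
              (f := fun k : ℕ => (2:ℝ)⁻¹ ^ k) (fun k _ => by positivity)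
              (summable_geometric_of_lt_one (by norm_num) (by norm_num))
          rw [tsum_geometric_of_lt_one (by norm_num) (by norm_num)] at h3
          refine h3.trans (by norm_num)
      _ ≤ _ := by nlinarith
  · rw [Finset.not_nonempty_iff_eq_empty] at he
    rw [he, Finset.sum_empty]
    positivity

/-- the weight of level `k`, `r` is the fourth root of the distance -/
noncomputable def wk (k : ℕ) (ρ : ℝ) : ℝ :=
  if th k ≤ ρ then 2 ^ k * ((Real.sqrt (Real.sqrt ρ))⁻¹) ^ 3 else 0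

lemma wk_nonneg (k : ℕ) (ρ : ℝ) : 0 ≤ wk k ρ := by
  unfold wk
  split_ifs <;> positivity

lemma r4_pow {ρ : ℝ} (hρ : 0 ≤ ρ) : (Real.sqrt (Real.sqrt ρ)) ^ 4 = ρ := by
  calc (Real.sqrt (Real.sqrt ρ)) ^ 4 = ((Real.sqrt (Real.sqrt ρ)) ^ 2) ^ 2 := by ring
    _ = ρ := by rw [Real.sq_sqrt (Real.sqrt_nonneg _), Real.sq_sqrt hρ]

lemma wk_pow_four (k : ℕ) {ρ : ℝ} (hρ : 0 ≤ ρ) :
    th k * wk k ρ ^ 4 = if th k ≤ ρ then (ρ⁻¹) ^ 3 else 0 := by
  unfold wk
  split_ifs with h
  · have h1 := r4_pow hρ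
    set r := Real.sqrt (Real.sqrt ρ)
    rw [← h1]
    unfold th
    rw [mul_pow, ← pow_mul, ← pow_mul, inv_pow, inv_pow, inv_pow, ← pow_mul]
    have h2 : (2:ℝ) ^ (k * 4) = 16 ^ k := by
      rw [mul_comm, pow_mul]
      norm_num
    rw [h2]
    have : (16:ℝ) ^ k ≠ 0 := by positivity
    rw [← mul_assoc, inv_mul_cancel₀ this, one_mul]
  · simp

lemma wk_le (k : ℕ) (ρ : ℝ) : wk k ρ ≤ 16 ^ k := by
  unfold wk
  split_ifs with h
  · have hρ : 0 ≤ ρ := (th_pos k).le.trans h
    have h1 := r4_pow hρ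
    set r := Real.sqrt (Real.sqrt ρ) with hr
    have hr0 : 0 ≤ r := Real.sqrt_nonneg _
    have h2 : (2:ℝ)⁻¹ ^ k ≤ r := by
      have h5 : th k = ((2:ℝ)⁻¹ ^ k) ^ 4 := by
        unfold th
        rw [← pow_mul, mul_comm, pow_mul]
        norm_num
      rw [h5, ← h1] at h
      exact (pow_le_pow_iff_left₀ (by positivity) hr0 (by norm_num)).1 h
    have h3 : r⁻¹ ≤ 2 ^ k := by
      rw [inv_le_comm₀ (lt_of_lt_of_le (by positivity) h2) (by positivity), ← inv_pow]
      exact h2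
    calc 2 ^ k * r⁻¹ ^ 3 ≤ 2 ^ k * (2 ^ k) ^ 3 := by
          gcongr
      _ = 16 ^ k := by
          rw [← pow_succ', ← pow_mul, mul_comm, pow_mul]
          norm_num
  · positivity

/-- the geometric weights -/
lemma cs_weights (s : Finset ℕ) (b : ℕ → ℂ) {ρ : ℝ} (hρ : 0 < ρ) :
    ‖∑ k ∈ s, (if th k ≤ ρ then b k else 0)‖ ^ 2 * ρ⁻¹ ≤ 2 * ∑ k ∈ s, wk k ρ * ‖b k‖ ^ 2 := by
  have h1 := r4_pow hρ.le
  set r := Real.sqrt (Real.sqrt ρ) with hr
  have hr0 : 0 < r := Real.sqrt_pos.2 (Real.sqrt_pos.2 hρ)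
  have h2 : ‖∑ k ∈ s, (if th k ≤ ρ then b k else 0)‖ ^ 2 ≤
      (∑ k ∈ s, (if th k ≤ ρ then (2:ℝ)⁻¹ ^ k else 0)) *
        ∑ k ∈ s, (if th k ≤ ρ then 2 ^ k * ‖b k‖ ^ 2 else 0) := by
    calc ‖∑ k ∈ s, (if th k ≤ ρ then b k else 0)‖ ^ 2
        ≤ (∑ k ∈ s, (if th k ≤ ρ then Real.sqrt ((2:ℝ)⁻¹ ^ k) else 0) *
          (if th k ≤ ρ then Real.sqrt (2 ^ k) * ‖b k‖ else 0)) ^ 2 := by
          refine pow_le_pow_left₀ (norm_nonneg _) ((norm_sum_le _ _).trans ?_) 2
          refine Finset.sum_le_sum fun k _ => ?_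
          split_ifs with h
          · rw [← mul_assoc, ← Real.sqrt_mul (by positivity), ← mul_pow]
            norm_num
          · simp
      _ ≤ (∑ k ∈ s, (if th k ≤ ρ then Real.sqrt ((2:ℝ)⁻¹ ^ k) else 0) ^ 2) *
          ∑ k ∈ s, (if th k ≤ ρ then Real.sqrt (2 ^ k) * ‖b k‖ else 0) ^ 2 :=
          Finset.sum_mul_sq_le_sq_mul_sq _ _ _
      _ = _ := by
          congr 1
          · refine Finset.sum_congr rfl fun k _ => ?_
            split_ifs
            · rw [Real.sq_sqrt (by positivity)]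
            · simp
          · refine Finset.sum_congr rfl fun k _ => ?_
            split_ifs
            · rw [mul_pow, Real.sq_sqrt (by positivity)]
            · simp
  have h3 : ∑ k ∈ s, (if th k ≤ ρ then (2:ℝ)⁻¹ ^ k else 0) ≤ 2 * r := by
    have := sum_half_le s r hr0.le
    rwa [h1] at this
  have h4 : 0 ≤ ∑ k ∈ s, (if th k ≤ ρ then 2 ^ k * ‖b k‖ ^ 2 else 0) :=
    Finset.sum_nonneg fun k _ => by split_ifs <;> positivity
  calc ‖∑ k ∈ s, (if th k ≤ ρ then b k else 0)‖ ^ 2 * ρ⁻¹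
      ≤ ((2 * r) * ∑ k ∈ s, (if th k ≤ ρ then 2 ^ k * ‖b k‖ ^ 2 else 0)) * ρ⁻¹ := by
        refine mul_le_mul_of_nonneg_right (h2.trans ?_) (by positivity)
        exact mul_le_mul_of_nonneg_right h3 h4
    _ = 2 * ∑ k ∈ s, wk k ρ * ‖b k‖ ^ 2 := by
        rw [mul_assoc 2, mul_assoc 2, Finset.mul_sum, Finset.sum_mul]
        congr 1
        refine Finset.sum_congr rfl fun k _ => ?_
        unfold wk
        split_ifs
        · rw [← hr, ← h1]
          field_simp
        · simp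

end Pool.Agent.K4H47.HS
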