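import Pool.Agent.K4H47.HS.Lv1

/-!
# Project HS: Bessel's inequality on levels in terms of functions
-/

set_option autoImplicit false

namespace Pool.Agent.K4H47.HS

open MeasureTheory Set Metric Filter Topology Matrix
open scoped InnerProductSpace ENNReal NNReal ComplexConjugate
open Pool.Agent.Y283.NK

variable {S : Type} [MeasurableSpace S] {μ : Measure S}

lemma inner_toLp (f : Lp ℂ 2 μ) {g : S → ℂ} (hg : MemLp g 2 μ) :
    ⟪f, hg.toLp g⟫_ℂ = ∫ x, conj (f x) * g x ∂μ := by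
  rw [L2.inner_def]
  refine integral_congr_ae ?_
  filter_upwards [hg.coeFn_toLp] with x hx
  rw [hx, RCLike.inner_apply, mul_comm]

lemma norm_toLp_sq {g : S → ℂ} (hg : MemLp g 2 μ) :
    ‖hg.toLp g‖ ^ 2 = ∫ x, ‖g x‖ ^ 2 ∂μ := by
  have h1 : ((‖hg.toLp g‖ ^ 2 : ℝ) : ℂ) = ((∫ x, ‖g x‖ ^ 2 ∂μ : ℝ) : ℂ) := by
    have h2 := inner_self_eq_norm_sq_to_K (𝕜 := ℂ) (hg.toLp g)
    rw [inner_toLp] at h2
    have h3 : ((‖hg.toLp g‖ ^ 2 : ℝ) : ℂ) = ∫ x, conj ((hg.toLp g) x) * g x ∂μ := by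
      rw [h2]
      push_cast
      rfl
    rw [h3, ← integral_complex_ofReal]
    refine integral_congr_ae ?_
    filter_upwards [hg.coeFn_toLp] with x hx
    rw [hx, Complex.conj_mul']
    push_cast
    rfl
  exact_mod_cast h1

variable {ι : Type} {u : ι → Lp ℂ 2 μ} {l : ι → ℕ} {L : ℝ}

lemma Lev.bes_fun (h : Lev u l L) (k : ℕ) (s : Finset ι) (hs : ∀ j ∈ s, l j = k) {g : S → ℂ}
    (hg : MemLp g 2 μ) :
    ∑ j ∈ s, ‖∫ x, conj (u j x) * g x ∂μ‖ ^ 2 ≤ L * th k * ∫ x, ‖g x‖ ^ 2 ∂μ := by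
  have h1 := h.bes k s hs (hg.toLp g)
  rw [norm_toLp_sq] at h1
  simpa only [inner_toLp] using h1

/-- the part of level `k` of a combination -/
noncomputable def Uk [Fintype ι] (u : ι → Lp ℂ 2 μ) (l : ι → ℕ) (c : ι → ℂ) (k : ℕ) (x : S) : ℂ :=
  ∑ j, if l j = k then c j * u j x else 0

lemma Uk_memLp [Fintype ι] (u : ι → Lp ℂ 2 μ) (l : ι → ℕ) (c : ι → ℂ) (k : ℕ) :
    MemLp (Uk u l c k) 2 μ := by
  unfold Uk
  refine memLp_finsetSum _ fun j _ => ?_
  split_ifs
  · exact (Lp.memLp (u j)).const_mul _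
  · exact MemLp.zero'

lemma wmul_memLp {w : S → ℝ} (hw : Measurable w) {B : ℝ} (hB : ∀ x, |w x| ≤ B) {f : S → ℂ}
    (hf : MemLp f 2 μ) : MemLp (fun x => (w x : ℂ) * f x) 2 μ := by
  refine MemLp.of_le_mul (c := B) hf ?_ (Eventually.of_forall fun x => ?_)
  · exact (Complex.measurable_ofReal.comp hw).aestronglyMeasurable.mul hf.1
  · rw [norm_mul, Complex.norm_real, Real.norm_eq_abs]
    exact mul_le_mul_of_nonneg_right (hB x) (norm_nonneg _)

lemma conj_mul_int {f g : S → ℂ} (hf : MemLp f 2 μ) (hg : MemLp g 2 μ) :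
    Integrable (fun x => conj (f x) * g x) μ := by
  have h1 : MemLp (fun x => conj (f x)) 2 μ := hf.star
  exact h1.integrable_mul hg

/-- the basic inequality -/
theorem cs_lev [Fintype ι] (h : Lev u l L) (c : ι → ℂ) (hc : ∑ j, ‖c j‖ ^ 2 ≤ 1)
    (w : ℕ → S → ℝ) (hw : ∀ k, Measurable (w k)) (B : ℕ → ℝ)
    (hB : ∀ k x, |w k x| ≤ B k) (la : ℕ → ℝ) (s : Finset ℕ) (hs : ∀ j, l j ∈ s) :
    (∑ k ∈ s, la k * ∫ x, w k x * ‖Uk u l c k x‖ ^ 2 ∂μ) ^ 2 ≤
      ∑ k ∈ s, la k ^ 2 * (L * th k) * ∫ x, w k x ^ 2 * ‖Uk u l c k x‖ ^ 2 ∂μ := by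
  classical
  set e : ι → ℂ := fun j => ∫ x, conj (u j x) * ((w (l j) x : ℂ) * Uk u l c (l j) x) ∂μ with he
  have hmem : ∀ k, MemLp (fun x => (w k x : ℂ) * Uk u l c k x) 2 μ := fun k =>
    wmul_memLp (hw k) (hB k) (Uk_memLp u l c k)
  have h1 : ∀ k, ((∫ x, w k x * ‖Uk u l c k x‖ ^ 2 ∂μ : ℝ) : ℂ) =
      ∑ j, if l j = k then conj (c j) * e j else 0 := by
    intro k
    rw [← integral_complex_ofReal]
    have e1 : ∀ x, ((w k x * ‖Uk u l c k x‖ ^ 2 : ℝ) : ℂ) =
        ∑ j, if l j = k then conj (c j) * (conj (u j x) * ((w k x : ℂ) * Uk u l c k x)) else 0 := by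
      intro x
      have e2 : ((w k x * ‖Uk u l c k x‖ ^ 2 : ℝ) : ℂ) =
          conj (Uk u l c k x) * ((w k x : ℂ) * Uk u l c k x) := by
        push_cast
        rw [← Complex.conj_mul']
        ring
      have e3 : conj (Uk u l c k x) = ∑ j, if l j = k then conj (c j) * conj (u j x) else 0 := by
        unfold Uk
        rw [map_sum]
        refine Finset.sum_congr rfl fun j _ => ?_
        split_ifs
        · rw [map_mul]
        · simp
      rw [e2, e3, Finset.sum_mul]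
      refine Finset.sum_congr rfl fun j _ => ?_
      split_ifs
      · ring
      · simp
    simp_rw [e1]
    rw [integral_finsetSum]
    · refine Finset.sum_congr rfl fun j _ => ?_
      split_ifs with hj
      · rw [integral_const_mul, he]
        simp only
        rw [hj]
      · simp
    · intro j _
      split_ifs
      · exact (conj_mul_int (Lp.memLp (u j)) (hmem k)).const_mul _
      · exact integrable_zero _ _ _
  have h2 : ((∑ k ∈ s, la k * ∫ x, w k x * ‖Uk u l c k x‖ ^ 2 ∂μ : ℝ) : ℂ) =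
      ∑ j, conj (c j) * ((la (l j) : ℂ) * e j) := by
    rw [Complex.ofReal_sum]
    calc ∑ k ∈ s, ((la k * ∫ x, w k x * ‖Uk u l c k x‖ ^ 2 ∂μ : ℝ) : ℂ)
        = ∑ k ∈ s, ∑ j ∈ Finset.univ.filter (fun j => l j = k),
          conj (c j) * ((la (l j) : ℂ) * e j) := by
          refine Finset.sum_congr rfl fun k _ => ?_
          rw [Complex.ofReal_mul, h1, Finset.sum_filter, Finset.mul_sum]
          refine Finset.sum_congr rfl fun j _ => ?_
          split_ifs with hj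
          · rw [hj]; ring
          · simp
      _ = _ := Finset.sum_fiberwise_of_maps_to (fun j _ => hs j) _
  have h3 : (∑ k ∈ s, la k * ∫ x, w k x * ‖Uk u l c k x‖ ^ 2 ∂μ) ^ 2 ≤
      ∑ j, ‖(la (l j) : ℂ) * e j‖ ^ 2 := by
    have h4 : (∑ k ∈ s, la k * ∫ x, w k x * ‖Uk u l c k x‖ ^ 2 ∂μ) ^ 2 =
        ‖∑ j, conj (c j) * ((la (l j) : ℂ) * e j)‖ ^ 2 := by
      rw [← h2, Complex.norm_real, Real.norm_eq_abs, sq_abs]
    rw [h4]
    calc ‖∑ j, conj (c j) * ((la (l j) : ℂ) * e j)‖ ^ 2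
        ≤ (∑ j, ‖c j‖ * ‖(la (l j) : ℂ) * e j‖) ^ 2 := by
          refine pow_le_pow_left₀ (norm_nonneg _) ((norm_sum_le _ _).trans ?_) 2
          refine Finset.sum_le_sum fun j _ => ?_
          rw [norm_mul, RCLike.norm_conj]
      _ ≤ (∑ j, ‖c j‖ ^ 2) * ∑ j, ‖(la (l j) : ℂ) * e j‖ ^ 2 :=
          Finset.sum_mul_sq_le_sq_mul_sq _ _ _
      _ ≤ 1 * ∑ j, ‖(la (l j) : ℂ) * e j‖ ^ 2 := by
          refine mul_le_mul_of_nonneg_right hc (Finset.sum_nonneg fun j _ => by positivity)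
      _ = _ := one_mul _
  refine h3.trans ?_
  calc ∑ j, ‖(la (l j) : ℂ) * e j‖ ^ 2
      = ∑ k ∈ s, ∑ j ∈ Finset.univ.filter (fun j => l j = k), ‖(la (l j) : ℂ) * e j‖ ^ 2 :=
        (Finset.sum_fiberwise_of_maps_to (fun j _ => hs j) _).symm
    _ ≤ ∑ k ∈ s, la k ^ 2 * (L * th k) * ∫ x, w k x ^ 2 * ‖Uk u l c k x‖ ^ 2 ∂μ := by
        refine Finset.sum_le_sum fun k _ => ?_
        have h5 := h.bes_fun k (Finset.univ.filter (fun j => l j = k))
          (fun j hj => (Finset.mem_filter.1 hj).2) (hmem k)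
        calc ∑ j ∈ Finset.univ.filter (fun j => l j = k), ‖(la (l j) : ℂ) * e j‖ ^ 2
            = la k ^ 2 * ∑ j ∈ Finset.univ.filter (fun j => l j = k),
              ‖∫ x, conj (u j x) * ((w k x : ℂ) * Uk u l c k x) ∂μ‖ ^ 2 := by
              rw [Finset.mul_sum]
              refine Finset.sum_congr rfl fun j hj => ?_
              rw [norm_mul, mul_pow, Complex.norm_real, Real.norm_eq_abs, sq_abs,
                (Finset.mem_filter.1 hj).2]
              congr 2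
              rw [he]
              simp only
              rw [(Finset.mem_filter.1 hj).2]
          _ ≤ la k ^ 2 * (L * th k * ∫ x, ‖(w k x : ℂ) * Uk u l c k x‖ ^ 2 ∂μ) :=
              mul_le_mul_of_nonneg_left h5 (sq_nonneg _)
          _ = _ := by
              rw [mul_assoc (la k ^ 2)]
              congr 3
              funext x
              rw [norm_mul, mul_pow, Complex.norm_real, Real.norm_eq_abs, sq_abs]

end Pool.Agent.K4H47.HS
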