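import Pool.Agent.K4H47.HS.Lv2

/-!
# Project HS: the matrices `F(z)` have small diagonals
-/

set_option autoImplicit false

namespace Pool.Agent.K4H47.HS

open MeasureTheory Set Metric Filter Topology Matrix
open scoped InnerProductSpace ENNReal NNReal ComplexConjugate
open Pool.Agent.Y283.NK

variable {S : Type} [MeasurableSpace S] {μ : Measure S} {n : ℕ}

lemma ctr_row {C : Matrix (Fin n) (Fin n) ℂ} (hC : Ctr C) (m : Fin n) :
    ∑ j, ‖C m j‖ ^ 2 ≤ 1 := by
  have h := ctr_adj hC (Pi.single m 1)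
  have e1 : nsq (Pi.single m (1:ℂ)) = 1 := by
    unfold nsq
    rw [Finset.sum_eq_single m]
    · simp
    · intro b _ hb
      rw [Pi.single_eq_of_ne hb]
      simp
    · simp
  rw [e1, Matrix.mulVec_single_one] at h
  unfold nsq at h
  refine le_trans (le_of_eq ?_) h
  refine Finset.sum_congr rfl fun j _ => ?_
  simp [Matrix.conjTranspose_apply]

/-- the near kernel -/
noncomputable def knr (θ ρ : ℝ) : ℝ := if ρ < θ then ρ⁻¹ else 0

/-- the far kernel -/
noncomputable def kfr (θ ρ : ℝ) : ℝ := if θ ≤ ρ then ρ⁻¹ ^ 3 else 0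

lemma knr_nonneg {θ ρ : ℝ} (hρ : 0 ≤ ρ) : 0 ≤ knr θ ρ := by
  unfold knr
  split_ifs <;> positivity

lemma kfr_nonneg {θ ρ : ℝ} (hρ : 0 ≤ ρ) : 0 ≤ kfr θ ρ := by
  unfold kfr
  split_ifs <;> positivity

lemma knr_le {θ ρ : ℝ} (hρ : 0 ≤ ρ) : knr θ ρ ≤ ρ⁻¹ := by
  unfold knr
  split_ifs
  · exact le_rfl
  · positivity

lemma kfr_le {θ ρ : ℝ} (hθ : 0 < θ) : kfr θ ρ ≤ θ⁻¹ ^ 3 := by
  unfold kfr
  split_ifs with h
  · have h1 : ρ⁻¹ ≤ θ⁻¹ := inv_anti₀ hθ h
    have h2 : 0 ≤ ρ⁻¹ := inv_nonneg.2 (hθ.le.trans h)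
    exact pow_le_pow_left₀ h2 h1 3
  · positivity

lemma measurable_knr (θ : ℝ) : Measurable (knr θ) := by
  unfold knr
  exact Measurable.ite measurableSet_Iio measurable_inv measurable_const

lemma measurable_kfr (θ : ℝ) : Measurable (kfr θ) := by
  unfold kfr
  exact Measurable.ite measurableSet_Ici (measurable_inv.pow_const 3) measurable_const

lemma measurable_wk (k : ℕ) : Measurable (wk k) := by
  unfold wk
  refine Measurable.ite measurableSet_Ici ?_ measurable_const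
  exact measurable_const.mul
    ((Real.continuous_sqrt.comp Real.continuous_sqrt).measurable.inv.pow_const 3)

lemma aesm_dist {φ : S → ℂ} (hφ : Measurable φ) (z : ℂ) : Measurable fun x => ‖z - φ x‖ :=
  (measurable_const.sub hφ).norm

section fam

variable {u : Fin n → Lp ℂ 2 μ} {l : Fin n → ℕ} {L : ℝ} {φ : S → ℂ}

/-- integrability of the near and far parts -/
lemma int_knr (hφ : Measurable φ) {z : ℂ} {f : Lp ℂ 2 μ}
    (hI : Integrable (fun x => ‖f x‖ ^ 2 * ‖z - φ x‖⁻¹) μ) (θ : ℝ) :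
    Integrable (fun x => ‖f x‖ ^ 2 * knr θ ‖z - φ x‖) μ := by
  have hm : AEStronglyMeasurable (fun x => ‖f x‖ ^ 2 * knr θ ‖z - φ x‖) μ :=
    (((Lp.stronglyMeasurable f).measurable.norm.pow_const 2).mul
      ((measurable_knr θ).comp (aesm_dist hφ z))).aestronglyMeasurable
  refine hI.mono' hm (Eventually.of_forall fun x => ?_)
  rw [Real.norm_eq_abs, abs_of_nonneg (mul_nonneg (sq_nonneg _) (knr_nonneg (norm_nonneg _)))]
  exact mul_le_mul_of_nonneg_left (knr_le (norm_nonneg _)) (sq_nonneg _)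

lemma int_kfr (hφ : Measurable φ) (z : ℂ) (f : Lp ℂ 2 μ) {θ : ℝ} (hθ : 0 < θ) :
    Integrable (fun x => ‖f x‖ ^ 2 * kfr θ ‖z - φ x‖) μ := by
  have hm : AEStronglyMeasurable (fun x => ‖f x‖ ^ 2 * kfr θ ‖z - φ x‖) μ :=
    (((Lp.stronglyMeasurable f).measurable.norm.pow_const 2).mul
      ((measurable_kfr θ).comp (aesm_dist hφ z))).aestronglyMeasurable
  have h1 : Integrable (fun x => ‖f x‖ ^ 2) μ := by
    have := (Lp.memLp f).integrable_norm_pow (by norm_num)
    simpa using this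
  refine (h1.mul_const (θ⁻¹ ^ 3)).mono' hm (Eventually.of_forall fun x => ?_)
  rw [Real.norm_eq_abs, abs_of_nonneg (mul_nonneg (sq_nonneg _) (kfr_nonneg (norm_nonneg _)))]
  exact mul_le_mul_of_nonneg_left (kfr_le hθ) (sq_nonneg _)

theorem fam (hu : Lev u l L) (hφ : Measurable φ) (z : ℂ)
    (hI : ∀ j, Integrable (fun x => ‖u j x‖ ^ 2 * ‖z - φ x‖⁻¹) μ)
    {C : Matrix (Fin n) (Fin n) ℂ} (hC : Ctr C) :
    ∃ a T : Fin n → ℝ, (∀ m, 0 ≤ a m) ∧ (∀ m, 0 ≤ T m) ∧
      (∀ m, Integrable (fun x => ‖∑ j, C m j * u j x‖ ^ 2 * ‖z - φ x‖⁻¹) μ) ∧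
      (∀ m, ∫ x, ‖∑ j, C m j * u j x‖ ^ 2 * ‖z - φ x‖⁻¹ ∂μ ≤ 2 * a m + 4 * T m) ∧
      ∑ m, a m ≤ ∑ j, ∫ x, ‖u j x‖ ^ 2 * knr (th (l j)) ‖z - φ x‖ ∂μ ∧
      ∑ m, T m ^ 4 ≤ L ^ 3 * ∑ j, th (l j) ^ 2 * ∫ x, ‖u j x‖ ^ 2 * kfr (th (l j)) ‖z - φ x‖ ∂μ := by
  classical
  have hum : ∀ j, Measurable (fun x => (u j x : ℂ)) := fun j =>
    (Lp.stronglyMeasurable (u j)).measurable
  have hρm := aesm_dist hφ z
  set s : Finset ℕ := Finset.univ.image l with hs
  have hls : ∀ j, l j ∈ s := fun j => Finset.mem_image_of_mem _ (Finset.mem_univ j)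
  -- the pieces
  set V : Fin n → S → ℂ := fun j x => if ‖z - φ x‖ < th (l j) then u j x else 0 with hV
  have hVm : ∀ j, Measurable (V j) := fun j =>
    Measurable.ite (measurableSet_lt hρm measurable_const) (hum j) measurable_const
  have hVle : ∀ j x, ‖V j x‖ ≤ ‖u j x‖ := by
    intro j x
    simp only [hV]
    split_ifs
    · exact le_rfl
    · simp
  set A : Fin n → S → ℂ := fun m x => ∑ j, C m j * V j x with hA
  have hAm : ∀ m, Measurable (A m) := fun m =>
    Finset.measurable_fun_sum _ fun j _ => measurable_const.mul (hVm j)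
  have hAsum : ∀ x, ∑ m, ‖A m x‖ ^ 2 ≤ ∑ j, ‖V j x‖ ^ 2 := fun x => hC (fun j => V j x)
  have hUsum : ∀ x, ∑ m, ‖∑ j, C m j * u j x‖ ^ 2 ≤ ∑ j, ‖u j x‖ ^ 2 := fun x =>
    hC (fun j => u j x)
  have hIs : Integrable (fun x => ∑ j, ‖u j x‖ ^ 2 * ‖z - φ x‖⁻¹) μ :=
    integrable_finsetSum _ fun j _ => hI j
  have hq : ∀ x, 0 ≤ ‖z - φ x‖⁻¹ := fun x => inv_nonneg.2 (norm_nonneg _)
  have hqm : Measurable fun x => ‖z - φ x‖⁻¹ := hρm.inv
  have hAint : ∀ m, Integrable (fun x => ‖A m x‖ ^ 2 * ‖z - φ x‖⁻¹) μ := by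
    intro m
    refine hIs.mono' (((hAm m).norm.pow_const 2).mul hqm).aestronglyMeasurable
      (Eventually.of_forall fun x => ?_)
    rw [Real.norm_eq_abs, abs_of_nonneg (mul_nonneg (sq_nonneg _) (hq x)), ← Finset.sum_mul]
    refine mul_le_mul_of_nonneg_right ?_ (hq x)
    calc ‖A m x‖ ^ 2 ≤ ∑ m, ‖A m x‖ ^ 2 :=
          Finset.single_le_sum (f := fun m => ‖A m x‖ ^ 2) (fun _ _ => sq_nonneg _)
            (Finset.mem_univ m)
      _ ≤ ∑ j, ‖V j x‖ ^ 2 := hAsum x
      _ ≤ _ := Finset.sum_le_sum fun j _ => pow_le_pow_left₀ (norm_nonneg _) (hVle j x) 2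
  have hUint : ∀ m, Integrable (fun x => ‖∑ j, C m j * u j x‖ ^ 2 * ‖z - φ x‖⁻¹) μ := by
    intro m
    have hm : Measurable fun x => ∑ j, C m j * u j x :=
      Finset.measurable_fun_sum _ fun j _ => measurable_const.mul (hum j)
    refine hIs.mono' ((hm.norm.pow_const 2).mul hqm).aestronglyMeasurable
      (Eventually.of_forall fun x => ?_)
    rw [Real.norm_eq_abs, abs_of_nonneg (mul_nonneg (sq_nonneg _) (hq x)), ← Finset.sum_mul]
    refine mul_le_mul_of_nonneg_right ?_ (hq x)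
    exact (Finset.single_le_sum (f := fun m => ‖∑ j, C m j * u j x‖ ^ 2) (fun _ _ => sq_nonneg _)
            (Finset.mem_univ m)).trans (hUsum x)
  -- the weights
  set w : ℕ → S → ℝ := fun k x => wk k ‖z - φ x‖ with hw
  have hwm : ∀ k, Measurable (w k) := fun k => (measurable_wk k).comp hρm
  have hwn : ∀ k x, 0 ≤ w k x := fun k x => wk_nonneg _ _
  have hwb : ∀ k x, |w k x| ≤ (16:ℝ) ^ k := fun k x => by
    rw [abs_of_nonneg (hwn k x)]
    exact wk_le _ _
  have hUkint : ∀ (c : Fin n → ℂ) (k : ℕ) (g : S → ℝ), Measurable g → ∀ B : ℝ,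
      (∀ x, |g x| ≤ B) → Integrable (fun x => g x * ‖Uk u l c k x‖ ^ 2) μ := by
    intro c k g hg B hB
    have h1 : Integrable (fun x => ‖Uk u l c k x‖ ^ 2) μ := by
      have := (Uk_memLp u l c k).integrable_norm_pow (by norm_num)
      simpa using this
    exact h1.bdd_mul hg.aestronglyMeasurable (Eventually.of_forall fun x => hB x)
  set T : Fin n → ℝ := fun m => ∑ k ∈ s, ∫ x, w k x * ‖Uk u l (C m) k x‖ ^ 2 ∂μ with hT
  refine ⟨fun m => ∫ x, ‖A m x‖ ^ 2 * ‖z - φ x‖⁻¹ ∂μ, T, ?_, ?_, hUint, ?_, ?_, ?_⟩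
  · intro m
    exact integral_nonneg fun x => mul_nonneg (sq_nonneg _) (hq x)
  · intro m
    exact Finset.sum_nonneg fun k _ => integral_nonneg fun x => mul_nonneg (hwn k x) (sq_nonneg _)
  · intro m
    have hpt : ∀ x, ‖∑ j, C m j * u j x‖ ^ 2 * ‖z - φ x‖⁻¹ ≤
        2 * (‖A m x‖ ^ 2 * ‖z - φ x‖⁻¹) + 4 * ∑ k ∈ s, w k x * ‖Uk u l (C m) k x‖ ^ 2 := by
      intro x
      have hpos : 0 ≤ ∑ k ∈ s, w k x * ‖Uk u l (C m) k x‖ ^ 2 :=
        Finset.sum_nonneg fun k _ => mul_nonneg (hwn k x) (sq_nonneg _)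
      rcases (norm_nonneg (z - φ x)).eq_or_lt with h0 | h0
      · rw [← h0]
        simp only [_root_.inv_zero, mul_zero]
        positivity
      have hsplit : ∑ j, C m j * u j x = A m x +
          ∑ k ∈ s, (if th k ≤ ‖z - φ x‖ then Uk u l (C m) k x else 0) := by
        have e1 : ∑ k ∈ s, (if th k ≤ ‖z - φ x‖ then Uk u l (C m) k x else 0) =
            ∑ j, (if th (l j) ≤ ‖z - φ x‖ then C m j * u j x else 0) := by
          rw [← Finset.sum_fiberwise_of_maps_to (fun j _ => hls j)]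
          refine Finset.sum_congr rfl fun k _ => ?_
          unfold Uk
          rw [Finset.sum_filter]
          split_ifs with h1
          · refine Finset.sum_congr rfl fun j _ => ?_
            split_ifs with h2 h3 h3
            · rfl
            · rw [h2] at h3; exact absurd h1 h3
            · rfl
          · symm
            refine Finset.sum_eq_zero fun j _ => ?_
            split_ifs with h2 h3
            · rw [h2] at h3; exact absurd h3 h1
            · rfl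
            · rfl
        rw [e1, hA, ← Finset.sum_add_distrib]
        refine Finset.sum_congr rfl fun j _ => ?_
        simp only [hV]
        by_cases h1 : ‖z - φ x‖ < th (l j)
        · rw [if_pos h1, if_neg (not_le.2 h1), add_zero]
        · rw [if_neg h1, if_pos (not_lt.1 h1), mul_zero, zero_add]
      have hcs := cs_weights s (fun k => Uk u l (C m) k x) h0
      rw [hsplit]
      set P := A m x
      set Q := ∑ k ∈ s, (if th k ≤ ‖z - φ x‖ then Uk u l (C m) k x else 0)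
      have h1 : ‖P + Q‖ ^ 2 ≤ 2 * ‖P‖ ^ 2 + 2 * ‖Q‖ ^ 2 := by
        have := norm_add_le P Q
        nlinarith [norm_nonneg (P + Q), sq_nonneg (‖P‖ - ‖Q‖), norm_nonneg P, norm_nonneg Q]
      calc ‖P + Q‖ ^ 2 * ‖z - φ x‖⁻¹ ≤ (2 * ‖P‖ ^ 2 + 2 * ‖Q‖ ^ 2) * ‖z - φ x‖⁻¹ :=
            mul_le_mul_of_nonneg_right h1 (hq x)
        _ = 2 * (‖P‖ ^ 2 * ‖z - φ x‖⁻¹) + 2 * (‖Q‖ ^ 2 * ‖z - φ x‖⁻¹) := by ring
        _ ≤ 2 * (‖P‖ ^ 2 * ‖z - φ x‖⁻¹) + 2 * (2 * ∑ k ∈ s, w k x * ‖Uk u l (C m) k x‖ ^ 2) := by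
            gcongr
        _ = _ := by ring
    have hi2 : ∀ k, Integrable (fun x => w k x * ‖Uk u l (C m) k x‖ ^ 2) μ := fun k =>
      hUkint (C m) k (w k) (hwm k) _ (hwb k)
    calc ∫ x, ‖∑ j, C m j * u j x‖ ^ 2 * ‖z - φ x‖⁻¹ ∂μ
        ≤ ∫ x, (2 * (‖A m x‖ ^ 2 * ‖z - φ x‖⁻¹) +
          4 * ∑ k ∈ s, w k x * ‖Uk u l (C m) k x‖ ^ 2) ∂μ := by
          refine integral_mono (hUint m) ?_ hpt
          exact ((hAint m).const_mul 2).add ((integrable_finsetSum _ fun k _ => hi2 k).const_mul 4)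
      _ = _ := by
          rw [integral_add ((hAint m).const_mul 2)
            ((integrable_finsetSum _ fun k _ => hi2 k).const_mul 4), integral_const_mul,
            integral_const_mul, integral_finsetSum _ fun k _ => hi2 k]
  · calc ∑ m, ∫ x, ‖A m x‖ ^ 2 * ‖z - φ x‖⁻¹ ∂μ
        = ∫ x, ∑ m, ‖A m x‖ ^ 2 * ‖z - φ x‖⁻¹ ∂μ := (integral_finsetSum _ fun m _ => hAint m).symm
      _ ≤ ∫ x, ∑ j, ‖u j x‖ ^ 2 * knr (th (l j)) ‖z - φ x‖ ∂μ := by
          refine integral_mono (integrable_finsetSum _ fun m _ => hAint m)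
            (integrable_finsetSum _ fun j _ => int_knr hφ (hI j) _) fun x => ?_
          simp only
          rw [← Finset.sum_mul]
          calc (∑ m, ‖A m x‖ ^ 2) * ‖z - φ x‖⁻¹ ≤ (∑ j, ‖V j x‖ ^ 2) * ‖z - φ x‖⁻¹ :=
                mul_le_mul_of_nonneg_right (hAsum x) (hq x)
            _ = _ := by
                rw [Finset.sum_mul]
                refine Finset.sum_congr rfl fun j _ => ?_
                simp only [hV, knr]
                split_ifs
                · rfl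
                · simp
      _ = _ := integral_finsetSum _ fun j _ => int_knr hφ (hI j) _
  · -- the far part
    set Sm : Fin n → ℝ := fun m =>
      ∑ k ∈ s, (L * th k) * ∫ x, w k x ^ 2 * ‖Uk u l (C m) k x‖ ^ 2 ∂μ with hSm
    have h1 : ∀ m, T m ^ 2 ≤ Sm m := by
      intro m
      have := cs_lev hu (C m) (ctr_row hC m) w hwm _ hwb (fun _ => 1) s hls
      simpa only [one_mul, one_pow] using this
    have hw2m : ∀ k, Measurable (fun x => w k x ^ 2) := fun k => (hwm k).pow_const 2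
    have hw2b : ∀ k x, |w k x ^ 2| ≤ ((16:ℝ) ^ k) ^ 2 := by
      intro k x
      rw [abs_pow]
      exact pow_le_pow_left₀ (abs_nonneg _) (hwb k x) 2
    have h2 : ∀ m, Sm m ^ 2 ≤ ∑ k ∈ s, (L * th k) ^ 2 * (L * th k) *
        ∫ x, (w k x ^ 2) ^ 2 * ‖Uk u l (C m) k x‖ ^ 2 ∂μ := by
      intro m
      exact cs_lev hu (C m) (ctr_row hC m) (fun k x => w k x ^ 2) hw2m _ hw2b
        (fun k => L * th k) s hls
    have hw4m : ∀ k, Measurable (fun x => (w k x ^ 2) ^ 2) := fun k => (hw2m k).pow_const 2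
    have hw4b : ∀ k x, |(w k x ^ 2) ^ 2| ≤ (((16:ℝ) ^ k) ^ 2) ^ 2 := by
      intro k x
      rw [abs_pow]
      exact pow_le_pow_left₀ (abs_nonneg _) (hw2b k x) 2
    have hT0 : ∀ m, 0 ≤ T m := fun m =>
      Finset.sum_nonneg fun k _ => integral_nonneg fun x => mul_nonneg (hwn k x) (sq_nonneg _)
    have hsq : ∀ j, Integrable (fun x => ‖u j x‖ ^ 2) μ := fun j => by
      have := (Lp.memLp (u j)).integrable_norm_pow (by norm_num)
      simpa using this
    have h3 : ∀ k, ∑ m, ∫ x, (w k x ^ 2) ^ 2 * ‖Uk u l (C m) k x‖ ^ 2 ∂μ ≤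
        ∑ j ∈ Finset.univ.filter (fun j => l j = k), ∫ x, (w k x ^ 2) ^ 2 * ‖u j x‖ ^ 2 ∂μ := by
      intro k
      have hi4 : ∀ j, Integrable (fun x => (w k x ^ 2) ^ 2 * ‖u j x‖ ^ 2) μ := fun j =>
        (hsq j).bdd_mul (hw4m k).aestronglyMeasurable (Eventually.of_forall fun x => hw4b k x)
      rw [← integral_finsetSum _ (fun m _ => hUkint (C m) k _ (hw4m k) _ (hw4b k)),
        ← integral_finsetSum _ (fun j _ => hi4 j)]
      refine integral_mono
        (integrable_finsetSum _ (fun m _ => hUkint (C m) k _ (hw4m k) _ (hw4b k)))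
        (integrable_finsetSum _ (fun j _ => hi4 j)) fun x => ?_
      simp only
      rw [← Finset.mul_sum, ← Finset.mul_sum]
      refine mul_le_mul_of_nonneg_left ?_ (by positivity)
      have h4 := hC (fun j => if l j = k then u j x else 0)
      unfold nsq at h4
      calc ∑ m, ‖Uk u l (C m) k x‖ ^ 2
          = ∑ m, ‖(C *ᵥ fun j => if l j = k then u j x else 0) m‖ ^ 2 := by
            refine Finset.sum_congr rfl fun m _ => ?_
            congr 2
            unfold Uk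
            simp only [Matrix.mulVec, dotProduct]
            refine Finset.sum_congr rfl fun j _ => ?_
            split_ifs <;> simp
        _ ≤ _ := h4
        _ = _ := by
            rw [Finset.sum_filter]
            refine Finset.sum_congr rfl fun j _ => ?_
            by_cases h5 : l j = k <;> simp [h5]
    have hL := hu.pos
    calc ∑ m, T m ^ 4 = ∑ m, (T m ^ 2) ^ 2 := Finset.sum_congr rfl fun m _ => by ring
      _ ≤ ∑ m, Sm m ^ 2 := Finset.sum_le_sum fun m _ => pow_le_pow_left₀ (sq_nonneg _) (h1 m) 2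
      _ ≤ ∑ m, ∑ k ∈ s, (L * th k) ^ 2 * (L * th k) *
        ∫ x, (w k x ^ 2) ^ 2 * ‖Uk u l (C m) k x‖ ^ 2 ∂μ := Finset.sum_le_sum fun m _ => h2 m
      _ = ∑ k ∈ s, (L * th k) ^ 2 * (L * th k) *
        ∑ m, ∫ x, (w k x ^ 2) ^ 2 * ‖Uk u l (C m) k x‖ ^ 2 ∂μ := by
          rw [Finset.sum_comm]
          refine Finset.sum_congr rfl fun k _ => ?_
          rw [Finset.mul_sum]
      _ ≤ ∑ k ∈ s, (L * th k) ^ 2 * (L * th k) *
        ∑ j ∈ Finset.univ.filter (fun j => l j = k), ∫ x, (w k x ^ 2) ^ 2 * ‖u j x‖ ^ 2 ∂μ := by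
          refine Finset.sum_le_sum fun k _ => mul_le_mul_of_nonneg_left (h3 k) ?_
          have := th_pos k
          positivity
      _ = ∑ k ∈ s, ∑ j ∈ Finset.univ.filter (fun j => l j = k),
          L ^ 3 * (th (l j) ^ 2 * ∫ x, ‖u j x‖ ^ 2 * kfr (th (l j)) ‖z - φ x‖ ∂μ) := by
          refine Finset.sum_congr rfl fun k _ => ?_
          rw [Finset.mul_sum]
          refine Finset.sum_congr rfl fun j hj => ?_
          rw [(Finset.mem_filter.1 hj).2]
          have e1 : ∀ x, (w k x ^ 2) ^ 2 * ‖u j x‖ ^ 2 =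
              (th k)⁻¹ * (‖u j x‖ ^ 2 * kfr (th k) ‖z - φ x‖) := by
            intro x
            have h5 := wk_pow_four k (norm_nonneg (z - φ x))
            have h6 : kfr (th k) ‖z - φ x‖ = th k * wk k ‖z - φ x‖ ^ 4 := by
              rw [h5]; rfl
            rw [h6]
            have := (th_pos k).ne'
            simp only [hw]
            field_simp
          simp_rw [e1]
          rw [integral_const_mul]
          have := (th_pos k).ne'
          field_simp
      _ = ∑ j, L ^ 3 * (th (l j) ^ 2 * ∫ x, ‖u j x‖ ^ 2 * kfr (th (l j)) ‖z - φ x‖ ∂μ) :=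
          Finset.sum_fiberwise_of_maps_to (fun j _ => hls j) _
      _ = _ := by rw [Finset.mul_sum]

end fam

/-- the numerical inequality for `ps` -/
lemma ps_le_four {a a' T T' : ℝ} (ha : 0 ≤ a) (ha' : 0 ≤ a') (hT : 0 ≤ T) (hT' : 0 ≤ T') :
    ps (a + a' + 2 * T + 2 * T') ≤ 4 * (a + a') + 4096 * (T ^ 4 + T' ^ 4) := by
  have hs : 0 ≤ a + a' + 2 * T + 2 * T' := by positivity
  have p1 : 0 ≤ T ^ 4 := by positivity
  have p2 : 0 ≤ T' ^ 4 := by positivity
  unfold ps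
  by_cases h1 : 2 * T ≤ max a a' ∧ 2 * T' ≤ max a a'
  · refine (min_le_left _ _).trans ?_
    have h2 : max a a' ≤ a + a' := max_le (by linarith) (by linarith)
    have := h1.1
    have := h1.2
    linarith
  · refine (min_le_right _ _).trans ?_
    have h2 : max a a' ≤ 2 * max T T' := by
      by_contra h3
      push Not at h3
      apply h1
      constructor
      · have := le_max_left T T'
        linarith
      · have := le_max_right T T'
        linarith
    have h3 : a + a' + 2 * T + 2 * T' ≤ 8 * max T T' := by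
      have := le_max_left a a'
      have := le_max_right a a'
      have := le_max_left T T'
      have := le_max_right T T'
      linarith
    calc (a + a' + 2 * T + 2 * T') ^ 4 ≤ (8 * max T T') ^ 4 := pow_le_pow_left₀ hs h3 4
      _ = 4096 * (max T T') ^ 4 := by ring
      _ ≤ 4096 * (T ^ 4 + T' ^ 4) := by
          gcongr
          rcases max_cases T T' with ⟨h, -⟩ | ⟨h, -⟩ <;> rw [h] <;> linarith
      _ ≤ _ := by linarith

section gam

variable {u v : Fin n → Lp ℂ 2 μ} {l : Fin n → ℕ} {L : ℝ} {φ : S → ℂ}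

lemma prod_int (hφ : Measurable φ) {z : ℂ} {f g : S → ℂ} (hf : Measurable f) (hg : Measurable g)
    (hI : Integrable (fun x => ‖f x‖ ^ 2 * ‖z - φ x‖⁻¹) μ)
    (hJ : Integrable (fun x => ‖g x‖ ^ 2 * ‖z - φ x‖⁻¹) μ) :
    Integrable (fun x => conj (f x) * g x * (z - φ x)⁻¹) μ := by
  have hm : Measurable (fun x => conj (f x) * g x * (z - φ x)⁻¹) :=
    ((Complex.continuous_conj.measurable.comp hf).mul hg).mul (measurable_const.sub hφ).inv
  refine (hI.add hJ).mono' hm.aestronglyMeasurable (Eventually.of_forall fun x => ?_)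
  have hq : 0 ≤ ‖z - φ x‖⁻¹ := inv_nonneg.2 (norm_nonneg _)
  rw [norm_mul, norm_mul, RCLike.norm_conj, norm_inv, Pi.add_apply, ← add_mul]
  refine mul_le_mul_of_nonneg_right ?_ hq
  nlinarith [sq_nonneg (‖f x‖ - ‖g x‖), sq_nonneg (‖f x‖ + ‖g x‖)]

/-- **the matrices `F(z)`** -/
theorem gam_of (hu : Lev u l L) (hv : Lev v l L) (hφ : Measurable φ) (z : ℂ)
    (hI : ∀ j, Integrable (fun x => ‖u j x‖ ^ 2 * ‖z - φ x‖⁻¹) μ)
    (hJ : ∀ j, Integrable (fun x => ‖v j x‖ ^ 2 * ‖z - φ x‖⁻¹) μ) :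
    Gam (Matrix.of fun i j => ct φ (v i) (u j) z)
      (4 * ((∑ j, ∫ x, ‖u j x‖ ^ 2 * knr (th (l j)) ‖z - φ x‖ ∂μ) +
        (∑ j, ∫ x, ‖v j x‖ ^ 2 * knr (th (l j)) ‖z - φ x‖ ∂μ)) +
      4096 * (L ^ 3 * (∑ j, th (l j) ^ 2 * ∫ x, ‖u j x‖ ^ 2 * kfr (th (l j)) ‖z - φ x‖ ∂μ) +
        L ^ 3 * (∑ j, th (l j) ^ 2 * ∫ x, ‖v j x‖ ^ 2 * kfr (th (l j)) ‖z - φ x‖ ∂μ))) := by
  intro C D hC hD
  have hum : ∀ j, Measurable (fun x => (u j x : ℂ)) := fun j =>
    (Lp.stronglyMeasurable (u j)).measurable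
  have hvm : ∀ j, Measurable (fun x => (v j x : ℂ)) := fun j =>
    (Lp.stronglyMeasurable (v j)).measurable
  obtain ⟨a, T, ha, hT, hi, hb, hsa, hsT⟩ := fam hu hφ z hI hC
  obtain ⟨a', T', ha', hT', hi', hb', hsa', hsT'⟩ := fam hv hφ z hJ hD
  have hx : ∀ m, ‖∑ i, ∑ j, star (D m i) * (Matrix.of fun i j => ct φ (v i) (u j) z) i j * C m j‖ ≤
      a m + a' m + 2 * T m + 2 * T' m := by
    intro m
    have e1 : ∑ i, ∑ j, star (D m i) * (Matrix.of fun i j => ct φ (v i) (u j) z) i j * C m j =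
        ∫ x, conj (∑ i, D m i * v i x) * (∑ j, C m j * u j x) * (z - φ x)⁻¹ ∂μ := by
      have e2 : ∀ x, conj (∑ i, D m i * v i x) * (∑ j, C m j * u j x) * (z - φ x)⁻¹ =
          ∑ i, ∑ j, (star (D m i) * C m j) * (conj (v i x) * u j x * (z - φ x)⁻¹) := by
        intro x
        rw [map_sum, Finset.sum_mul_sum, Finset.sum_mul]
        refine Finset.sum_congr rfl fun i _ => ?_
        rw [Finset.sum_mul]
        refine Finset.sum_congr rfl fun j _ => ?_
        rw [map_mul]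
        simp only [RCLike.star_def]
        ring
      simp_rw [e2]
      have hij : ∀ i j, Integrable (fun x => (star (D m i) * C m j) *
          (conj (v i x) * u j x * (z - φ x)⁻¹)) μ := fun i j =>
        (prod_int hφ (hvm i) (hum j) (hJ i) (hI j)).const_mul _
      rw [integral_finsetSum _ fun i _ => integrable_finsetSum _ fun j _ => hij i j]
      refine Finset.sum_congr rfl fun i _ => ?_
      rw [integral_finsetSum _ fun j _ => hij i j]
      refine Finset.sum_congr rfl fun j _ => ?_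
      rw [integral_const_mul, Matrix.of_apply]
      unfold ct
      ring
    rw [e1]
    calc ‖∫ x, conj (∑ i, D m i * v i x) * (∑ j, C m j * u j x) * (z - φ x)⁻¹ ∂μ‖
        ≤ ∫ x, (1 / 2 * (‖∑ i, D m i * v i x‖ ^ 2 * ‖z - φ x‖⁻¹) +
          1 / 2 * (‖∑ j, C m j * u j x‖ ^ 2 * ‖z - φ x‖⁻¹)) ∂μ := by
          refine norm_integral_le_of_norm_le (((hi' m).const_mul _).add ((hi m).const_mul _))
            (Eventually.of_forall fun x => ?_)
          have hq : 0 ≤ ‖z - φ x‖⁻¹ := inv_nonneg.2 (norm_nonneg _)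
          rw [norm_mul, norm_mul, RCLike.norm_conj, norm_inv]
          set p := ‖∑ i, D m i * v i x‖
          set q := ‖∑ j, C m j * u j x‖
          have : p * q ≤ 1 / 2 * p ^ 2 + 1 / 2 * q ^ 2 := by nlinarith [sq_nonneg (p - q)]
          calc p * q * ‖z - φ x‖⁻¹ ≤ (1 / 2 * p ^ 2 + 1 / 2 * q ^ 2) * ‖z - φ x‖⁻¹ :=
                mul_le_mul_of_nonneg_right this hq
            _ = _ := by ring
      _ = 1 / 2 * (∫ x, ‖∑ i, D m i * v i x‖ ^ 2 * ‖z - φ x‖⁻¹ ∂μ) +
          1 / 2 * (∫ x, ‖∑ j, C m j * u j x‖ ^ 2 * ‖z - φ x‖⁻¹ ∂μ) := by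
          rw [integral_add ((hi' m).const_mul _) ((hi m).const_mul _), integral_const_mul,
            integral_const_mul]
      _ ≤ 1 / 2 * (2 * a' m + 4 * T' m) + 1 / 2 * (2 * a m + 4 * T m) := by
          gcongr
          · exact hb' m
          · exact hb m
      _ = _ := by ring
  calc ∑ m, ps ‖∑ i, ∑ j, star (D m i) * (Matrix.of fun i j => ct φ (v i) (u j) z) i j * C m j‖
      ≤ ∑ m, (4 * (a m + a' m) + 4096 * (T m ^ 4 + T' m ^ 4)) := by
        refine Finset.sum_le_sum fun m _ => ?_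
        exact (ps_mono (norm_nonneg _) (hx m)).trans (ps_le_four (ha m) (ha' m) (hT m) (hT' m))
    _ = 4 * ((∑ m, a m) + ∑ m, a' m) + 4096 * ((∑ m, T m ^ 4) + ∑ m, T' m ^ 4) := by
        rw [Finset.sum_add_distrib, ← Finset.mul_sum, ← Finset.mul_sum, Finset.sum_add_distrib,
          Finset.sum_add_distrib]
    _ ≤ _ := by gcongr

end gam

end Pool.Agent.K4H47.HS
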