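import Pool.Agent.K4H47.HS.Lv3

/-!
# Project HS: inner products with vectors multiplied by the Cauchy kernel
-/

set_option autoImplicit false

namespace Pool.Agent.K4H47.HS

open MeasureTheory Set Metric Filter Topology Matrix
open scoped InnerProductSpace ENNReal NNReal ComplexConjugate
open Pool.Agent.Y283.NK

variable {S : Type} [MeasurableSpace S] {μ : Measure S} {n : ℕ}

lemma cs_int {f g : S → ℝ} (hf : Integrable (fun x => f x ^ 2) μ)
    (hg : Integrable (fun x => g x ^ 2) μ) (hfg : Integrable (fun x => f x * g x) μ) :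
    (∫ x, f x * g x ∂μ) ^ 2 ≤ (∫ x, f x ^ 2 ∂μ) * ∫ x, g x ^ 2 ∂μ := by
  have h1 : ∀ t : ℝ, 0 ≤ (∫ x, g x ^ 2 ∂μ) * (t * t) + (-2 * ∫ x, f x * g x ∂μ) * t +
      ∫ x, f x ^ 2 ∂μ := by
    intro t
    have h2 : 0 ≤ ∫ x, (f x - t * g x) ^ 2 ∂μ := integral_nonneg fun x => sq_nonneg _
    have h3 : ∫ x, (f x - t * g x) ^ 2 ∂μ = ∫ x, (f x ^ 2 + ((-2 * t) * (f x * g x) +
        t ^ 2 * g x ^ 2)) ∂μ := by
      congr 1
      funext x
      ring
    have h5 : Integrable (fun x => (-2 * t) * (f x * g x) + t ^ 2 * g x ^ 2) μ :=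
      (hfg.const_mul _).add (hg.const_mul _)
    rw [h3, integral_add hf h5, integral_add (hfg.const_mul _) (hg.const_mul _),
      integral_const_mul, integral_const_mul] at h2
    linarith
  have h4 := discrim_le_zero h1
  unfold discrim at h4
  nlinarith

variable {u : Fin n → Lp ℂ 2 μ} {l : Fin n → ℕ} {L : ℝ} {φ : S → ℂ}

theorem ppp (hu : Lev u l L) (hφ : Measurable φ) (z : ℂ)
    (hI : ∀ j, Integrable (fun x => ‖u j x‖ ^ 2 * ‖z - φ x‖⁻¹) μ) {y κ : S → ℂ}
    (hy : Measurable y) (hκ : Measurable κ) (hκ1 : ∀ x, ‖κ x‖ ≤ ‖z - φ x‖⁻¹)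
    (hY : Integrable (fun x => ‖y x‖ ^ 2 * ‖z - φ x‖⁻¹) μ) :
    ∑ j, ‖∫ x, conj (u j x) * (y x * κ x) ∂μ‖ ^ 2 ≤
      (2 * (∑ j, ∫ x, ‖u j x‖ ^ 2 * knr (th (l j)) ‖z - φ x‖ ∂μ) + 3 * L) *
        ∫ x, ‖y x‖ ^ 2 * ‖z - φ x‖⁻¹ ∂μ := by
  classical
  have hum : ∀ j, Measurable (fun x => (u j x : ℂ)) := fun j =>
    (Lp.stronglyMeasurable (u j)).measurable
  have hρm := aesm_dist hφ z
  have hq : ∀ x, 0 ≤ ‖z - φ x‖⁻¹ := fun x => inv_nonneg.2 (norm_nonneg _)
  have hqm : Measurable fun x => ‖z - φ x‖⁻¹ := hρm.inv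
  set s : Finset ℕ := Finset.univ.image l with hs
  have hls : ∀ j, l j ∈ s := fun j => Finset.mem_image_of_mem _ (Finset.mem_univ j)
  set gn : ℕ → S → ℂ := fun k x => if ‖z - φ x‖ < th k then y x * κ x else 0 with hgn
  set gf : ℕ → S → ℂ := fun k x => if th k ≤ ‖z - φ x‖ then y x * κ x else 0 with hgf
  have hgnm : ∀ k, Measurable (gn k) := fun k =>
    Measurable.ite (measurableSet_lt hρm measurable_const) (hy.mul hκ) measurable_const
  have hgfm : ∀ k, Measurable (gf k) := fun k =>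
    Measurable.ite (measurableSet_le measurable_const hρm) (hy.mul hκ) measurable_const
  set Ey := ∫ x, ‖y x‖ ^ 2 * ‖z - φ x‖⁻¹ ∂μ with hEy
  have hEy0 : 0 ≤ Ey := integral_nonneg fun x => mul_nonneg (sq_nonneg _) (hq x)
  -- the far parts are square integrable
  have hgfle : ∀ k x, ‖gf k x‖ ^ 2 ≤
      (‖y x‖ ^ 2 * ‖z - φ x‖⁻¹) * ((if th k ≤ ‖z - φ x‖ then 1 else 0) * ‖z - φ x‖⁻¹) := by
    intro k x
    simp only [hgf]
    split_ifs with h
    · rw [norm_mul, mul_pow]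
      have h1 : ‖κ x‖ ^ 2 ≤ ‖z - φ x‖⁻¹ ^ 2 := pow_le_pow_left₀ (norm_nonneg _) (hκ1 x) 2
      calc ‖y x‖ ^ 2 * ‖κ x‖ ^ 2 ≤ ‖y x‖ ^ 2 * ‖z - φ x‖⁻¹ ^ 2 := by gcongr
        _ = _ := by ring
    · simp
  have hkb : ∀ k x, (if th k ≤ ‖z - φ x‖ then (1:ℝ) else 0) * ‖z - φ x‖⁻¹ ≤ (th k)⁻¹ := by
    intro k x
    split_ifs with h
    · rw [one_mul]
      exact inv_anti₀ (th_pos k) h
    · rw [zero_mul]
      exact inv_nonneg.2 (th_pos k).le
  have hgfi : ∀ k, Integrable (fun x => ‖gf k x‖ ^ 2) μ := by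
    intro k
    refine (hY.mul_const (th k)⁻¹).mono' ((hgfm k).norm.pow_const 2).aestronglyMeasurable
      (Eventually.of_forall fun x => ?_)
    rw [Real.norm_eq_abs, abs_of_nonneg (sq_nonneg _)]
    refine (hgfle k x).trans ?_
    exact mul_le_mul_of_nonneg_left (hkb k x) (mul_nonneg (sq_nonneg _) (hq x))
  have hgfL : ∀ k, MemLp (gf k) 2 μ := fun k =>
    (memLp_two_iff_integrable_sq_norm (hgfm k).aestronglyMeasurable).2 (hgfi k)
  -- integrability of the near parts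
  have hni : ∀ j, Integrable (fun x => ‖u j x‖ * ‖y x‖ * knr (th (l j)) ‖z - φ x‖) μ := by
    intro j
    have hm : Measurable fun x => ‖u j x‖ * ‖y x‖ * knr (th (l j)) ‖z - φ x‖ :=
      ((hum j).norm.mul hy.norm).mul ((measurable_knr _).comp hρm)
    refine ((hI j).add hY).mono' hm.aestronglyMeasurable (Eventually.of_forall fun x => ?_)
    have hk := knr_nonneg (θ := th (l j)) (norm_nonneg (z - φ x))
    have hk2 := knr_le (θ := th (l j)) (norm_nonneg (z - φ x))
    rw [Real.norm_eq_abs, abs_of_nonneg (by positivity), Pi.add_apply, ← add_mul]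
    refine mul_le_mul ?_ hk2 hk (by positivity)
    nlinarith [sq_nonneg (‖u j x‖ - ‖y x‖), sq_nonneg (‖u j x‖ + ‖y x‖)]
  have hnb : ∀ j x, ‖conj (u j x) * gn (l j) x‖ ≤ ‖u j x‖ * ‖y x‖ * knr (th (l j)) ‖z - φ x‖ := by
    intro j x
    rw [norm_mul, RCLike.norm_conj]
    simp only [hgn, knr]
    split_ifs with h
    · rw [norm_mul, ← mul_assoc]
      exact mul_le_mul_of_nonneg_left (hκ1 x) (by positivity)
    · simp
  have hnint : ∀ j, Integrable (fun x => conj (u j x) * gn (l j) x) μ := fun j =>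
    (hni j).mono' ((Complex.continuous_conj.measurable.comp (hum j)).mul
      (hgnm (l j))).aestronglyMeasurable (Eventually.of_forall (hnb j))
  have hfint : ∀ j, Integrable (fun x => conj (u j x) * gf (l j) x) μ := fun j =>
    conj_mul_int (Lp.memLp (u j)) (hgfL (l j))
  -- the decomposition
  have hdec : ∀ j, ∫ x, conj (u j x) * (y x * κ x) ∂μ =
      (∫ x, conj (u j x) * gn (l j) x ∂μ) + ∫ x, conj (u j x) * gf (l j) x ∂μ := by
    intro j
    rw [← integral_add (hnint j) (hfint j)]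
    congr 1
    funext x
    simp only [hgn, hgf]
    by_cases h : ‖z - φ x‖ < th (l j)
    · rw [if_pos h, if_neg (not_le.2 h)]; ring
    · rw [if_neg h, if_pos (not_lt.1 h)]; ring
  have hnear : ∀ j, ‖∫ x, conj (u j x) * gn (l j) x ∂μ‖ ^ 2 ≤
      (∫ x, ‖u j x‖ ^ 2 * knr (th (l j)) ‖z - φ x‖ ∂μ) * Ey := by
    intro j
    have h1 : ‖∫ x, conj (u j x) * gn (l j) x ∂μ‖ ≤
        ∫ x, ‖u j x‖ * ‖y x‖ * knr (th (l j)) ‖z - φ x‖ ∂μ :=
      norm_integral_le_of_norm_le (hni j) (Eventually.of_forall (hnb j))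
    set f : S → ℝ := fun x => ‖u j x‖ * Real.sqrt (knr (th (l j)) ‖z - φ x‖) with hf
    set g : S → ℝ := fun x => ‖y x‖ * Real.sqrt (knr (th (l j)) ‖z - φ x‖) with hg
    have hk : ∀ x, 0 ≤ knr (th (l j)) ‖z - φ x‖ := fun x => knr_nonneg (norm_nonneg _)
    have e1 : ∀ x, f x * g x = ‖u j x‖ * ‖y x‖ * knr (th (l j)) ‖z - φ x‖ := by
      intro x
      simp only [hf, hg]
      calc _ = ‖u j x‖ * ‖y x‖ * (Real.sqrt (knr (th (l j)) ‖z - φ x‖) *
            Real.sqrt (knr (th (l j)) ‖z - φ x‖)) := by ring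
        _ = _ := by rw [Real.mul_self_sqrt (hk x)]
    have e2 : ∀ x, f x ^ 2 = ‖u j x‖ ^ 2 * knr (th (l j)) ‖z - φ x‖ := by
      intro x
      simp only [hf]
      rw [mul_pow, Real.sq_sqrt (hk x)]
    have e3 : ∀ x, g x ^ 2 = ‖y x‖ ^ 2 * knr (th (l j)) ‖z - φ x‖ := by
      intro x
      simp only [hg]
      rw [mul_pow, Real.sq_sqrt (hk x)]
    have hyn : Integrable (fun x => ‖y x‖ ^ 2 * knr (th (l j)) ‖z - φ x‖) μ := by
      refine hY.mono' ((hy.norm.pow_const 2).mul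
        ((measurable_knr _).comp hρm)).aestronglyMeasurable (Eventually.of_forall fun x => ?_)
      rw [Real.norm_eq_abs, abs_of_nonneg (mul_nonneg (sq_nonneg _) (hk x))]
      exact mul_le_mul_of_nonneg_left (knr_le (norm_nonneg _)) (sq_nonneg _)
    have h2 := cs_int (μ := μ) (f := f) (g := g) (by simp_rw [e2]; exact int_knr hφ (hI j) _)
      (by simp_rw [e3]; exact hyn) (by simp_rw [e1]; exact hni j)
    simp_rw [e1, e2, e3] at h2
    have h3 : ∫ x, ‖y x‖ ^ 2 * knr (th (l j)) ‖z - φ x‖ ∂μ ≤ Ey :=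
      integral_mono hyn hY fun x => mul_le_mul_of_nonneg_left (knr_le (norm_nonneg _)) (sq_nonneg _)
    calc ‖∫ x, conj (u j x) * gn (l j) x ∂μ‖ ^ 2
        ≤ (∫ x, ‖u j x‖ * ‖y x‖ * knr (th (l j)) ‖z - φ x‖ ∂μ) ^ 2 :=
          pow_le_pow_left₀ (norm_nonneg _) h1 2
      _ ≤ _ := h2
      _ ≤ _ := by
          refine mul_le_mul_of_nonneg_left h3 ?_
          exact integral_nonneg fun x => mul_nonneg (sq_nonneg _) (hk x)
  have hfar : ∑ j, ‖∫ x, conj (u j x) * gf (l j) x ∂μ‖ ^ 2 ≤ 16 / 15 * L * Ey := by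
    have hL := hu.pos
    calc ∑ j, ‖∫ x, conj (u j x) * gf (l j) x ∂μ‖ ^ 2
        = ∑ k ∈ s, ∑ j ∈ Finset.univ.filter (fun j => l j = k),
          ‖∫ x, conj (u j x) * gf (l j) x ∂μ‖ ^ 2 :=
          (Finset.sum_fiberwise_of_maps_to (fun j _ => hls j) _).symm
      _ ≤ ∑ k ∈ s, L * (th k * ∫ x, ‖gf k x‖ ^ 2 ∂μ) := by
          refine Finset.sum_le_sum fun k _ => ?_
          rw [← mul_assoc]
          refine le_trans (le_of_eq ?_) (hu.bes_fun k (Finset.univ.filter (fun j => l j = k))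
            (fun j hj => (Finset.mem_filter.1 hj).2) (hgfL k))
          refine Finset.sum_congr rfl fun j hj => ?_
          rw [(Finset.mem_filter.1 hj).2]
      _ = L * ∫ x, ∑ k ∈ s, th k * ‖gf k x‖ ^ 2 ∂μ := by
          rw [integral_finsetSum _ fun k _ => (hgfi k).const_mul _, Finset.mul_sum]
          refine Finset.sum_congr rfl fun k _ => ?_
          rw [integral_const_mul]
      _ ≤ L * ∫ x, 16 / 15 * (‖y x‖ ^ 2 * ‖z - φ x‖⁻¹) ∂μ := by
          refine mul_le_mul_of_nonneg_left ?_ hL.le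
          refine integral_mono (integrable_finsetSum _ fun k _ => (hgfi k).const_mul _)
            (hY.const_mul _) fun x => ?_
          simp only
          rcases (norm_nonneg (z - φ x)).eq_or_lt with h0 | h0
          · have e1 : ∀ k, gf k x = 0 := by
              intro k
              simp only [hgf]
              rw [if_neg]
              rw [← h0, not_le]
              exact th_pos k
            simp only [e1]
            simp only [norm_zero, ne_eq, OfNat.ofNat_ne_zero, not_false_eq_true, zero_pow, mul_zero,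
              Finset.sum_const_zero]
            have := hq x
            positivity
          · calc ∑ k ∈ s, th k * ‖gf k x‖ ^ 2
                ≤ ∑ k ∈ s, (‖y x‖ ^ 2 * ‖z - φ x‖⁻¹ ^ 2) *
                  (if th k ≤ ‖z - φ x‖ then th k else 0) := by
                  refine Finset.sum_le_sum fun k _ => ?_
                  have h1 := hgfle k x
                  have h2 := mul_le_mul_of_nonneg_left h1 (th_pos k).le
                  refine h2.trans (le_of_eq ?_)
                  split_ifs <;> ring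
              _ = (‖y x‖ ^ 2 * ‖z - φ x‖⁻¹ ^ 2) *
                  ∑ k ∈ s, (if th k ≤ ‖z - φ x‖ then th k else 0) := by rw [Finset.mul_sum]
              _ ≤ (‖y x‖ ^ 2 * ‖z - φ x‖⁻¹ ^ 2) * (16 / 15 * ‖z - φ x‖) := by
                  refine mul_le_mul_of_nonneg_left (sum_th_le s _ h0.le) (by positivity)
              _ = _ := by
                  field_simp
      _ = _ := by
          rw [integral_const_mul]
          ring
  calc ∑ j, ‖∫ x, conj (u j x) * (y x * κ x) ∂μ‖ ^ 2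
      ≤ ∑ j, (2 * ‖∫ x, conj (u j x) * gn (l j) x ∂μ‖ ^ 2 +
        2 * ‖∫ x, conj (u j x) * gf (l j) x ∂μ‖ ^ 2) := by
        refine Finset.sum_le_sum fun j _ => ?_
        rw [hdec j]
        set P := ∫ x, conj (u j x) * gn (l j) x ∂μ
        set Q := ∫ x, conj (u j x) * gf (l j) x ∂μ
        have := norm_add_le P Q
        nlinarith [norm_nonneg (P + Q), sq_nonneg (‖P‖ - ‖Q‖), norm_nonneg P, norm_nonneg Q]
    _ = 2 * (∑ j, ‖∫ x, conj (u j x) * gn (l j) x ∂μ‖ ^ 2) +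
        2 * ∑ j, ‖∫ x, conj (u j x) * gf (l j) x ∂μ‖ ^ 2 := by
        rw [Finset.sum_add_distrib, ← Finset.mul_sum, ← Finset.mul_sum]
    _ ≤ 2 * (∑ j, (∫ x, ‖u j x‖ ^ 2 * knr (th (l j)) ‖z - φ x‖ ∂μ) * Ey) +
        2 * (16 / 15 * L * Ey) := by
        gcongr with j
        exact hnear j
    _ = (2 * (∑ j, ∫ x, ‖u j x‖ ^ 2 * knr (th (l j)) ‖z - φ x‖ ∂μ) + 32 / 15 * L) * Ey := by
        rw [← Finset.sum_mul]
        ring
    _ ≤ _ := by
        refine mul_le_mul_of_nonneg_right ?_ hEy0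
        have := hu.pos
        linarith

end Pool.Agent.K4H47.HS
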