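import Pool.Agent.K4H47.HS.Lv4
import Pool.Agent.Y891.NK.AREA
import Pool.Agent.Y604.NK.MEAS

/-!
# Project HS: the potentials
-/

set_option autoImplicit false

namespace Pool.Agent.K4H47.HS

open MeasureTheory Set Metric Filter Topology Matrix
open scoped InnerProductSpace ENNReal NNReal ComplexConjugate
open Pool.Agent.Y283.NK

/-- integrals of radial functions -/
theorem radial (F : ℝ → ℝ≥0∞) (hF : Measurable F) :
    ∫⁻ z : ℂ, F ‖z‖ = ENNReal.ofReal (2 * Real.pi) * ∫⁻ r in Ioi (0:ℝ), ENNReal.ofReal r * F r := by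
  have h2 := Complex.lintegral_comp_polarCoord_symm (fun z => F ‖z‖)
  have hmeas : Measurable fun p : ℝ × ℝ => ENNReal.ofReal p.1 • F ‖Complex.polarCoord.symm p‖ := by
    have hcont : Continuous fun p : ℝ × ℝ => Complex.polarCoord.symm p := by
      simp only [Complex.polarCoord_symm_apply]
      fun_prop
    simp only [smul_eq_mul]
    exact (ENNReal.measurable_ofReal.comp measurable_fst).mul (hF.comp hcont.measurable.norm)
  rw [polarCoord_target, Measure.volume_eq_prod, ← Measure.prod_restrict,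
    lintegral_prod _ hmeas.aemeasurable] at h2
  rw [← h2, ← lintegral_const_mul' _ _ ENNReal.ofReal_ne_top]
  refine setLIntegral_congr_fun measurableSet_Ioi fun r hr => ?_
  simp only
  have hr0 : 0 < r := hr
  have e1 : ∀ y : ℝ, ENNReal.ofReal r • F ‖Complex.polarCoord.symm (r, y)‖ =
      ENNReal.ofReal r * F r := by
    intro y
    rw [Complex.norm_polarCoord_symm, abs_of_pos hr0, smul_eq_mul]
  simp_rw [e1]
  rw [setLIntegral_const, Real.volume_Ioo, mul_comm]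
  congr 2
  ring

theorem area_knr {θ : ℝ} (hθ : 0 < θ) (w : ℂ) :
    ∫⁻ z : ℂ, ENNReal.ofReal (knr θ ‖z - w‖) ≤ ENNReal.ofReal (2 * Real.pi * θ) := by
  have hm : Measurable fun r : ℝ => ENNReal.ofReal (knr θ r) := (measurable_knr θ).ennreal_ofReal
  rw [lintegral_sub_right_eq_self (fun z : ℂ => ENNReal.ofReal (knr θ ‖z‖)) w, radial _ hm,
    ENNReal.ofReal_mul (p := 2 * Real.pi) (by positivity)]
  refine mul_le_mul' (le_refl (ENNReal.ofReal (2 * Real.pi))) ?_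
  calc ∫⁻ r in Ioi (0:ℝ), ENNReal.ofReal r * ENNReal.ofReal (knr θ r)
      ≤ ∫⁻ r in Ioi (0:ℝ), (Ioo (0:ℝ) θ).indicator (fun _ => 1) r := by
        refine setLIntegral_mono' measurableSet_Ioi fun r hr => ?_
        have hr0 : 0 < r := hr
        rw [← ENNReal.ofReal_mul hr0.le]
        unfold knr
        split_ifs with h
        · rw [indicator_of_mem (show r ∈ Ioo (0:ℝ) θ from ⟨hr0, h⟩), mul_inv_cancel₀ hr0.ne',
            ENNReal.ofReal_one]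
        · simp
    _ ≤ ∫⁻ r, (Ioo (0:ℝ) θ).indicator (fun _ => 1) r := setLIntegral_le_lintegral _ _
    _ = ENNReal.ofReal θ := by
        rw [lintegral_indicator measurableSet_Ioo, setLIntegral_const, Real.volume_Ioo, sub_zero,
          one_mul]

theorem area_kfr {θ : ℝ} (hθ : 0 < θ) (w : ℂ) :
    ∫⁻ z : ℂ, ENNReal.ofReal (kfr θ ‖z - w‖) ≤ ENNReal.ofReal (2 * Real.pi * θ⁻¹) := by
  have hm : Measurable fun r : ℝ => ENNReal.ofReal (kfr θ r) := (measurable_kfr θ).ennreal_ofReal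
  rw [lintegral_sub_right_eq_self (fun z : ℂ => ENNReal.ofReal (kfr θ ‖z‖)) w, radial _ hm,
    ENNReal.ofReal_mul (p := 2 * Real.pi) (by positivity)]
  refine mul_le_mul' (le_refl (ENNReal.ofReal (2 * Real.pi))) ?_
  have hi := integral_Ioi_rpow_of_lt (a := -2) (by norm_num) hθ
  have hi2 := integrableOn_Ioi_rpow_of_lt (a := -2) (by norm_num) hθ
  calc ∫⁻ r in Ioi (0:ℝ), ENNReal.ofReal r * ENNReal.ofReal (kfr θ r)
      ≤ ∫⁻ r in Ioi (0:ℝ), (Ici θ).indicator (fun r => ENNReal.ofReal (r ^ (-2:ℝ))) r := by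
        refine setLIntegral_mono' measurableSet_Ioi fun r hr => ?_
        have hr0 : 0 < r := hr
        rw [← ENNReal.ofReal_mul hr0.le]
        unfold kfr
        split_ifs with h
        · rw [indicator_of_mem (show r ∈ Ici θ from h)]
          apply le_of_eq
          congr 1
          rw [Real.rpow_neg hr0.le]
          have : r ^ (2:ℝ) = r ^ 2 := by
            rw [← Real.rpow_natCast]; norm_num
          rw [this]
          field_simp
        · simp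
    _ ≤ ∫⁻ r, (Ici θ).indicator (fun r => ENNReal.ofReal (r ^ (-2:ℝ))) r :=
        setLIntegral_le_lintegral _ _
    _ = ∫⁻ r in Ioi θ, ENNReal.ofReal (r ^ (-2:ℝ)) := by
        rw [lintegral_indicator measurableSet_Ici]
        exact setLIntegral_congr Ioi_ae_eq_Ici.symm
    _ = ENNReal.ofReal (∫ r in Ioi θ, r ^ (-2:ℝ)) := by
        rw [ofReal_integral_eq_lintegral_ofReal hi2]
        filter_upwards [ae_restrict_mem measurableSet_Ioi] with r hr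
        have : 0 < r := lt_trans hθ hr
        positivity
    _ = ENNReal.ofReal θ⁻¹ := by
        rw [hi]
        congr 1
        norm_num
        rw [Real.rpow_neg_one]

variable {S : Type} [MeasurableSpace S] {μ : Measure S}

/-- the potential of `|f|² μ` -/
noncomputable def eb (φ : S → ℂ) (f : Lp ℂ 2 μ) (z : ℂ) : ℝ≥0∞ :=
  ∫⁻ s, ‖f s‖ₑ ^ 2 * ENNReal.ofReal ‖z - φ s‖⁻¹ ∂μ

/-- the near potentials -/
noncomputable def al (φ : S → ℂ) (u : ℕ → Lp ℂ 2 μ) (l : ℕ → ℕ) (z : ℂ) : ℝ≥0∞ :=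
  ∑' j, ∫⁻ s, ‖u j s‖ₑ ^ 2 * ENNReal.ofReal (knr (th (l j)) ‖z - φ s‖) ∂μ

/-- the far potentials -/
noncomputable def be (φ : S → ℂ) (u : ℕ → Lp ℂ 2 μ) (l : ℕ → ℕ) (z : ℂ) : ℝ≥0∞ :=
  ∑' j, ENNReal.ofReal (th (l j) ^ 2) *
    ∫⁻ s, ‖u j s‖ₑ ^ 2 * ENNReal.ofReal (kfr (th (l j)) ‖z - φ s‖) ∂μ

lemma meas_rad [SigmaFinite μ] {φ : S → ℂ} (hφ : Measurable φ) (f : Lp ℂ 2 μ) {k : ℝ → ℝ}
    (hk : Measurable k) :
    Measurable fun z : ℂ => ∫⁻ s, ‖f s‖ₑ ^ 2 * ENNReal.ofReal (k ‖z - φ s‖) ∂μ := by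
  have h0 : Measurable (fun p : ℂ × S => f p.2) :=
    (Lp.stronglyMeasurable f).measurable.comp measurable_snd
  have h2 : Measurable (fun p : ℂ × S => ‖p.1 - φ p.2‖) :=
    (measurable_fst.sub (hφ.comp measurable_snd)).norm
  exact Measurable.lintegral_prod_right'
    (f := fun p : ℂ × S => ‖f p.2‖ₑ ^ 2 * ENNReal.ofReal (k ‖p.1 - φ p.2‖))
    ((h0.enorm.pow_const 2).mul (hk.comp h2).ennreal_ofReal)

lemma meas_eb [SigmaFinite μ] {φ : S → ℂ} (hφ : Measurable φ) (f : Lp ℂ 2 μ) :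
    Measurable (eb φ f) := meas_rad hφ f measurable_inv

lemma meas_al [SigmaFinite μ] {φ : S → ℂ} (hφ : Measurable φ) (u : ℕ → Lp ℂ 2 μ) (l : ℕ → ℕ) :
    Measurable (al φ u l) :=
  Measurable.tsum fun j => meas_rad hφ (u j) (measurable_knr _)

lemma meas_be [SigmaFinite μ] {φ : S → ℂ} (hφ : Measurable φ) (u : ℕ → Lp ℂ 2 μ) (l : ℕ → ℕ) :
    Measurable (be φ u l) :=
  Measurable.tsum fun j => (meas_rad hφ (u j) (measurable_kfr _)).const_mul _

/-- the lower integral of the square of the norm -/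
lemma lint_norm_sq (f : Lp ℂ 2 μ) : ∫⁻ s, ‖f s‖ₑ ^ 2 ∂μ = ENNReal.ofReal (‖f‖ ^ 2) := by
  have h1 : f = (Lp.memLp f).toLp f := (Lp.toLp_coeFn f (Lp.memLp f)).symm
  have h2 : ‖f‖ ^ 2 = ∫ x, ‖f x‖ ^ 2 ∂μ := by
    conv_lhs => rw [h1]
    exact norm_toLp_sq (Lp.memLp f)
  have h3 : Integrable (fun x => ‖f x‖ ^ 2) μ := by
    have := (Lp.memLp f).integrable_norm_pow (by norm_num)
    simpa using this
  rw [h2, ofReal_integral_eq_lintegral_ofReal h3 (Eventually.of_forall fun x => sq_nonneg _)]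
  refine lintegral_congr fun x => ?_
  rw [ENNReal.ofReal_pow (norm_nonneg _), ofReal_norm]

lemma swap_rad [SigmaFinite μ] {φ : S → ℂ} (hφ : Measurable φ) (f : Lp ℂ 2 μ) {k : ℝ → ℝ}
    (hk : Measurable k) (A : ℝ) (ν : Measure ℂ) [SFinite ν]
    (hA : ∀ w : ℂ, ∫⁻ z : ℂ, ENNReal.ofReal (k ‖z - w‖) ∂ν ≤ ENNReal.ofReal A) :
    ∫⁻ z : ℂ, ∫⁻ s, ‖f s‖ₑ ^ 2 * ENNReal.ofReal (k ‖z - φ s‖) ∂μ ∂ν ≤
      ENNReal.ofReal (‖f‖ ^ 2 * A) := by
  have h0 : Measurable (fun p : ℂ × S => f p.2) :=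
    (Lp.stronglyMeasurable f).measurable.comp measurable_snd
  have h2 : Measurable (fun p : ℂ × S => ‖p.1 - φ p.2‖) :=
    (measurable_fst.sub (hφ.comp measurable_snd)).norm
  have h3 : Measurable (Function.uncurry fun (z : ℂ) (s : S) =>
      ‖f s‖ₑ ^ 2 * ENNReal.ofReal (k ‖z - φ s‖)) :=
    (h0.enorm.pow_const 2).mul (hk.comp h2).ennreal_ofReal
  rw [lintegral_lintegral_swap h3.aemeasurable]
  calc ∫⁻ s, ∫⁻ z : ℂ, ‖f s‖ₑ ^ 2 * ENNReal.ofReal (k ‖z - φ s‖) ∂ν ∂μ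
      ≤ ∫⁻ s, ‖f s‖ₑ ^ 2 * ENNReal.ofReal A ∂μ := by
        refine lintegral_mono fun s => ?_
        rw [lintegral_const_mul' _ _ (by simp)]
        exact mul_le_mul' le_rfl (hA _)
    _ = _ := by
        rw [lintegral_mul_const' _ _ ENNReal.ofReal_ne_top, lint_norm_sq,
          ← ENNReal.ofReal_mul (sq_nonneg _)]

section tot

variable {u : ℕ → Lp ℂ 2 μ} {l : ℕ → ℕ} {L : ℝ}

lemma int_al [SigmaFinite μ] {φ : S → ℂ} (hφ : Measurable φ) (hu : Lev u l L)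
    (hs : Summable fun j => th (l j) ^ 2) : ∫⁻ z : ℂ, al φ u l z ≠ ⊤ := by
  unfold al
  rw [lintegral_tsum fun j => (meas_rad hφ (u j) (measurable_knr _)).aemeasurable]
  have h1 : Summable fun j => 2 * Real.pi * L * th (l j) ^ 2 := hs.mul_left _
  have hL := hu.pos
  refine ne_top_of_le_ne_top (ENNReal.ofReal_ne_top (r := ∑' j, 2 * Real.pi * L * th (l j) ^ 2)) ?_
  rw [ENNReal.ofReal_tsum_of_nonneg (fun j => by positivity) h1]
  refine ENNReal.tsum_le_tsum fun j => ?_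
  refine (swap_rad hφ (u j) (measurable_knr _) _ volume
    (fun w => area_knr (th_pos (l j)) w)).trans ?_
  apply ENNReal.ofReal_le_ofReal
  have h2 := hu.norm_sq j
  have h3 := th_pos (l j)
  calc ‖u j‖ ^ 2 * (2 * Real.pi * th (l j)) ≤ (L * th (l j)) * (2 * Real.pi * th (l j)) := by
        gcongr
    _ = _ := by ring

lemma int_be [SigmaFinite μ] {φ : S → ℂ} (hφ : Measurable φ) (hu : Lev u l L)
    (hs : Summable fun j => th (l j) ^ 2) : ∫⁻ z : ℂ, be φ u l z ≠ ⊤ := by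
  unfold be
  rw [lintegral_tsum fun j => ((meas_rad hφ (u j) (measurable_kfr _)).const_mul _).aemeasurable]
  have h1 : Summable fun j => 2 * Real.pi * L * th (l j) ^ 2 := hs.mul_left _
  have hL := hu.pos
  refine ne_top_of_le_ne_top (ENNReal.ofReal_ne_top (r := ∑' j, 2 * Real.pi * L * th (l j) ^ 2)) ?_
  rw [ENNReal.ofReal_tsum_of_nonneg (fun j => by positivity) h1]
  refine ENNReal.tsum_le_tsum fun j => ?_
  rw [lintegral_const_mul' _ _ ENNReal.ofReal_ne_top]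
  refine (mul_le_mul' le_rfl (swap_rad hφ (u j) (measurable_kfr _) _ volume
    (fun w => area_kfr (th_pos (l j)) w))).trans ?_
  rw [← ENNReal.ofReal_mul (sq_nonneg _)]
  apply ENNReal.ofReal_le_ofReal
  have h2 := hu.norm_sq j
  have h3 := th_pos (l j)
  calc th (l j) ^ 2 * (‖u j‖ ^ 2 * (2 * Real.pi * (th (l j))⁻¹))
      ≤ th (l j) ^ 2 * ((L * th (l j)) * (2 * Real.pi * (th (l j))⁻¹)) := by
        gcongr
    _ = _ := by
        field_simp

end tot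

lemma int_eb [SigmaFinite μ] {φ : S → ℂ} (hφ : Measurable φ) (R : ℝ) : ∃ C : ℝ, 0 ≤ C ∧
    ∀ f : Lp ℂ 2 μ, ∫⁻ z in ball (0:ℂ) R, eb φ f z ≤ ENNReal.ofReal (‖f‖ ^ 2 * C) := by
  obtain ⟨C, hC⟩ := Pool.Agent.Y891.NK.main_area R
  refine ⟨C, C.2, fun f => ?_⟩
  refine swap_rad hφ f measurable_inv C (volume.restrict (ball (0:ℂ) R)) fun w => ?_
  rw [ENNReal.ofReal_coe_nnreal]
  refine (lintegral_mono fun z => ?_).trans (hC w)
  by_cases h : z - w = 0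
  · rw [h]; simp
  · rw [ENNReal.ofReal_inv_of_pos (norm_pos_iff.2 h), ofReal_norm]

/-- the total potential -/
noncomputable def pot (φ : S → ℂ) (u v : ℕ → Lp ℂ 2 μ) (l : ℕ → ℕ) (z : ℂ) : ℝ≥0∞ :=
  al φ u l z + al φ v l z + (be φ u l z + be φ v l z)

lemma meas_pot [SigmaFinite μ] {φ : S → ℂ} (hφ : Measurable φ) (u v : ℕ → Lp ℂ 2 μ) (l : ℕ → ℕ) :
    Measurable (pot φ u v l) :=
  ((meas_al hφ u l).add (meas_al hφ v l)).add ((meas_be hφ u l).add (meas_be hφ v l))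

lemma int_pot [SigmaFinite μ] {φ : S → ℂ} (hφ : Measurable φ) {u v : ℕ → Lp ℂ 2 μ} {l : ℕ → ℕ}
    {L : ℝ} (hu : Lev u l L) (hv : Lev v l L) (hs : Summable fun j => th (l j) ^ 2) :
    ∫⁻ z : ℂ, pot φ u v l z ≠ ⊤ := by
  unfold pot
  have m1 : Measurable fun z => al φ u l z + al φ v l z := (meas_al hφ u l).add (meas_al hφ v l)
  rw [lintegral_add_left m1, lintegral_add_left (meas_al hφ u l),
    lintegral_add_left (meas_be hφ u l)]
  exact ENNReal.add_ne_top.2 ⟨ENNReal.add_ne_top.2 ⟨int_al hφ hu hs, int_al hφ hv hs⟩,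
    ENNReal.add_ne_top.2 ⟨int_be hφ hu hs, int_be hφ hv hs⟩⟩

/-- the matrix `F(z)` of size `n` -/
noncomputable def FF (φ : S → ℂ) (u v : ℕ → Lp ℂ 2 μ) (n : ℕ) (z : ℂ) :
    Matrix (Fin n) (Fin n) ℂ := Matrix.of fun i j : Fin n => ct φ (v i) (u j) z

lemma lint_real {f : S → ℂ} {k : S → ℝ} (hf : Measurable f) (hk : Measurable k)
    (hk0 : ∀ x, 0 ≤ k x) (h : ∫⁻ s, ‖f s‖ₑ ^ 2 * ENNReal.ofReal (k s) ∂μ ≠ ⊤) :
    Integrable (fun x => ‖f x‖ ^ 2 * k x) μ ∧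
      ENNReal.ofReal (∫ x, ‖f x‖ ^ 2 * k x ∂μ) = ∫⁻ s, ‖f s‖ₑ ^ 2 * ENNReal.ofReal (k s) ∂μ := by
  have e1 : ∀ x, ENNReal.ofReal (‖f x‖ ^ 2 * k x) = ‖f x‖ₑ ^ 2 * ENNReal.ofReal (k x) := by
    intro x
    rw [ENNReal.ofReal_mul (sq_nonneg _), ENNReal.ofReal_pow (norm_nonneg _), ofReal_norm]
  have hi : Integrable (fun x => ‖f x‖ ^ 2 * k x) μ := by
    refine ⟨((hf.norm.pow_const 2).mul hk).aestronglyMeasurable, ?_⟩
    rw [hasFiniteIntegral_iff_enorm]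
    refine lt_top_iff_ne_top.2 (ne_top_of_le_ne_top h (le_of_eq ?_))
    refine lintegral_congr fun x => ?_
    rw [Real.enorm_eq_ofReal (mul_nonneg (sq_nonneg _) (hk0 x)), e1]
  refine ⟨hi, ?_⟩
  rw [ofReal_integral_eq_lintegral_ofReal hi
    (Eventually.of_forall fun x => mul_nonneg (sq_nonneg _) (hk0 x))]
  exact lintegral_congr e1

lemma eb_real {φ : S → ℂ} (hφ : Measurable φ) {f : Lp ℂ 2 μ} {z : ℂ} (h : eb φ f z ≠ ⊤) :
    Integrable (fun x => ‖f x‖ ^ 2 * ‖z - φ x‖⁻¹) μ ∧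
      ∫ x, ‖f x‖ ^ 2 * ‖z - φ x‖⁻¹ ∂μ = (eb φ f z).toReal := by
  have h1 := lint_real (μ := μ) (f := f) (k := fun x => ‖z - φ x‖⁻¹)
    (Lp.stronglyMeasurable f).measurable (aesm_dist hφ z).inv
    (fun x => inv_nonneg.2 (norm_nonneg _)) h
  refine ⟨h1.1, ?_⟩
  have h2 : eb φ f z = ENNReal.ofReal (∫ x, ‖f x‖ ^ 2 * ‖z - φ x‖⁻¹ ∂μ) := h1.2.symm
  rw [h2, ENNReal.toReal_ofReal]
  exact integral_nonneg fun x => mul_nonneg (sq_nonneg _) (inv_nonneg.2 (norm_nonneg _))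

lemma al_int {φ : S → ℂ} (hφ : Measurable φ) {u : ℕ → Lp ℂ 2 μ} {l : ℕ → ℕ} {z : ℂ}
    (h : al φ u l z ≠ ⊤) (j : ℕ) : Integrable (fun x => ‖u j x‖ ^ 2 * ‖z - φ x‖⁻¹) μ := by
  have h1 : ∫⁻ s, ‖u j s‖ₑ ^ 2 * ENNReal.ofReal (knr (th (l j)) ‖z - φ s‖) ∂μ ≠ ⊤ :=
    ne_top_of_le_ne_top h (ENNReal.le_tsum j)
  have hum := (Lp.stronglyMeasurable (u j)).measurable
  have h2 := (lint_real (μ := μ) (f := u j) (k := fun x => knr (th (l j)) ‖z - φ x‖) hum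
    ((measurable_knr _).comp (aesm_dist hφ z)) (fun x => knr_nonneg (norm_nonneg _)) h1).1
  have h3 : Integrable (fun x => ‖u j x‖ ^ 2) μ := by
    have := (Lp.memLp (u j)).integrable_norm_pow (by norm_num)
    simpa using this
  refine (h2.add (h3.mul_const (th (l j))⁻¹)).mono'
    ((hum.norm.pow_const 2).mul (aesm_dist hφ z).inv).aestronglyMeasurable
    (Eventually.of_forall fun x => ?_)
  rw [Real.norm_eq_abs, abs_of_nonneg (mul_nonneg (sq_nonneg _) (inv_nonneg.2 (norm_nonneg _))),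
    Pi.add_apply, ← mul_add]
  refine mul_le_mul_of_nonneg_left ?_ (sq_nonneg _)
  unfold knr
  split_ifs with hlt
  · have := inv_nonneg.2 (th_pos (l j)).le
    linarith
  · rw [zero_add]
    exact inv_anti₀ (th_pos _) (not_lt.1 hlt)

lemma fin_sum_le_tsum (f : ℕ → ℝ≥0∞) (h : ∑' j, f j ≠ ⊤) (n : ℕ) :
    ∑ j : Fin n, (f j).toReal ≤ (∑' j, f j).toReal := by
  rw [← ENNReal.toReal_sum (fun j _ => ne_top_of_le_ne_top h (ENNReal.le_tsum _))]
  refine ENNReal.toReal_mono h ?_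
  rw [← Finset.sum_range (fun j => f j)]
  exact ENNReal.sum_le_tsum _

lemma al_sum {φ : S → ℂ} (hφ : Measurable φ) {u : ℕ → Lp ℂ 2 μ} {l : ℕ → ℕ} {z : ℂ}
    (h : al φ u l z ≠ ⊤) (n : ℕ) :
    ∑ j : Fin n, ∫ x, ‖u j x‖ ^ 2 * knr (th (l j)) ‖z - φ x‖ ∂μ ≤ (al φ u l z).toReal := by
  refine le_trans (le_of_eq ?_) (fin_sum_le_tsum _ h n)
  refine Finset.sum_congr rfl fun j _ => ?_
  have h1 : ∫⁻ s, ‖u j s‖ₑ ^ 2 * ENNReal.ofReal (knr (th (l j)) ‖z - φ s‖) ∂μ ≠ ⊤ :=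
    ne_top_of_le_ne_top h (ENNReal.le_tsum (f := fun j : ℕ =>
      ∫⁻ s, ‖u j s‖ₑ ^ 2 * ENNReal.ofReal (knr (th (l j)) ‖z - φ s‖) ∂μ) (j : ℕ))
  rw [← (lint_real (μ := μ) (f := u j) (k := fun x => knr (th (l j)) ‖z - φ x‖)
    (Lp.stronglyMeasurable (u j)).measurable
    ((measurable_knr _).comp (aesm_dist hφ z)) (fun x => knr_nonneg (norm_nonneg _)) h1).2,
    ENNReal.toReal_ofReal]
  exact integral_nonneg fun x => mul_nonneg (sq_nonneg _) (knr_nonneg (norm_nonneg _))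

lemma be_sum {φ : S → ℂ} (hφ : Measurable φ) {u : ℕ → Lp ℂ 2 μ} {l : ℕ → ℕ} {z : ℂ}
    (h : be φ u l z ≠ ⊤) (n : ℕ) :
    ∑ j : Fin n, th (l j) ^ 2 * ∫ x, ‖u j x‖ ^ 2 * kfr (th (l j)) ‖z - φ x‖ ∂μ ≤
      (be φ u l z).toReal := by
  refine le_trans (le_of_eq ?_) (fin_sum_le_tsum _ h n)
  refine Finset.sum_congr rfl fun j _ => ?_
  have h0 := int_kfr (μ := μ) hφ z (u j) (th_pos (l j))
  have h1 : ENNReal.ofReal (∫ x, ‖u j x‖ ^ 2 * kfr (th (l j)) ‖z - φ x‖ ∂μ) =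
      ∫⁻ s, ‖u j s‖ₑ ^ 2 * ENNReal.ofReal (kfr (th (l j)) ‖z - φ s‖) ∂μ := by
    rw [ofReal_integral_eq_lintegral_ofReal h0
      (Eventually.of_forall fun x => mul_nonneg (sq_nonneg _) (kfr_nonneg (norm_nonneg _)))]
    refine lintegral_congr fun x => ?_
    rw [ENNReal.ofReal_mul (sq_nonneg _), ENNReal.ofReal_pow (norm_nonneg _), ofReal_norm]
  rw [← h1, ENNReal.toReal_mul, ENNReal.toReal_ofReal (sq_nonneg _), ENNReal.toReal_ofReal]
  exact integral_nonneg fun x => mul_nonneg (sq_nonneg _) (kfr_nonneg (norm_nonneg _))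

section main

variable {φ : S → ℂ} (hφ : Measurable φ) {u v : ℕ → Lp ℂ 2 μ} {l : ℕ → ℕ}
    {L : ℝ} (hu : Lev u l L) (hv : Lev v l L) {z : ℂ} (h : pot φ u v l z ≠ ⊤)

include h in
lemma pot_fin : al φ u l z ≠ ⊤ ∧ al φ v l z ≠ ⊤ ∧ be φ u l z ≠ ⊤ ∧ be φ v l z ≠ ⊤ ∧
    (pot φ u v l z).toReal = (al φ u l z).toReal + (al φ v l z).toReal +
      ((be φ u l z).toReal + (be φ v l z).toReal) := by
  unfold pot at h ⊢
  obtain ⟨h1, h2⟩ := ENNReal.add_ne_top.1 h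
  obtain ⟨h3, h4⟩ := ENNReal.add_ne_top.1 h1
  obtain ⟨h5, h6⟩ := ENNReal.add_ne_top.1 h2
  refine ⟨h3, h4, h5, h6, ?_⟩
  rw [ENNReal.toReal_add h1 h2, ENNReal.toReal_add h3 h4, ENNReal.toReal_add h5 h6]

include hφ hu hv h in
theorem gam_pot (n : ℕ) :
    Gam (FF φ u v n z) ((4 + 4096 * L ^ 3) * (pot φ u v l z).toReal) := by
  obtain ⟨h1, h2, h3, h4, h5⟩ := pot_fin h
  have hL := hu.pos
  have hg := gam_of (u := fun j : Fin n => u j) (v := fun j : Fin n => v j)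
    (hu.comp Fin.valEmbedding) (hv.comp Fin.valEmbedding) hφ z (fun j => al_int hφ h1 j)
    (fun j => al_int hφ h2 j)
  intro C D hC hD
  refine (hg C D hC hD).trans ?_
  have a1 := al_sum hφ h1 n
  have a2 := al_sum hφ h2 n
  have a3 := be_sum hφ h3 n
  have a4 := be_sum hφ h4 n
  rw [h5]
  have b1 : 0 ≤ (al φ u l z).toReal := ENNReal.toReal_nonneg
  have b2 : 0 ≤ (al φ v l z).toReal := ENNReal.toReal_nonneg
  have b3 : 0 ≤ (be φ u l z).toReal := ENNReal.toReal_nonneg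
  have b4 : 0 ≤ (be φ v l z).toReal := ENNReal.toReal_nonneg
  have hL3 : 0 < L ^ 3 := by positivity
  calc _ ≤ 4 * ((al φ u l z).toReal + (al φ v l z).toReal) +
        4096 * (L ^ 3 * (be φ u l z).toReal + L ^ 3 * (be φ v l z).toReal) := by
        gcongr
        · exact a1
        · exact a2
        · exact a3
        · exact a4
    _ ≤ _ := by
        nlinarith [mul_nonneg hL3.le b1, mul_nonneg hL3.le b2]

include hφ hv h in
theorem p_b (n : ℕ) {x : Lp ℂ 2 μ} (hx : eb φ x z ≠ ⊤) :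
    ∑ i : Fin n, ‖ct φ (v i) x z‖ ^ 2 ≤
      (2 * (pot φ u v l z).toReal + 3 * L) * (eb φ x z).toReal := by
  obtain ⟨h1, h2, h3, h4, h5⟩ := pot_fin h
  have hp := ppp (u := fun j : Fin n => v j) (hv.comp Fin.valEmbedding) hφ z
    (fun j => al_int hφ h2 j) (y := x) (κ := fun s => (z - φ s)⁻¹)
    (Lp.stronglyMeasurable x).measurable (measurable_const.sub hφ).inv
    (fun s => by rw [norm_inv]) (eb_real hφ hx).1
  rw [(eb_real hφ hx).2] at hp
  refine le_trans (le_of_eq ?_) (hp.trans ?_)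
  · refine Finset.sum_congr rfl fun i _ => ?_
    unfold ct
    simp only [mul_assoc]
  · have a2 := al_sum hφ h2 n
    have b1 : 0 ≤ (al φ u l z).toReal := ENNReal.toReal_nonneg
    have b3 : 0 ≤ (be φ u l z).toReal := ENNReal.toReal_nonneg
    have b4 : 0 ≤ (be φ v l z).toReal := ENNReal.toReal_nonneg
    refine mul_le_mul_of_nonneg_right ?_ ENNReal.toReal_nonneg
    rw [h5]
    have e : ∑ j : Fin n, ∫ x, ‖v j x‖ ^ 2 * knr (th ((fun j : Fin n => l (Fin.valEmbedding j)) j))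
        ‖z - φ x‖ ∂μ = ∑ j : Fin n, ∫ x, ‖v j x‖ ^ 2 * knr (th (l j)) ‖z - φ x‖ ∂μ := rfl
    rw [e]
    linarith

include hφ hu h in
theorem p_y (n : ℕ) {y : Lp ℂ 2 μ} (hy : eb φ y z ≠ ⊤) :
    ∑ j : Fin n, ‖ct φ y (u j) z‖ ^ 2 ≤
      (2 * (pot φ u v l z).toReal + 3 * L) * (eb φ y z).toReal := by
  obtain ⟨h1, h2, h3, h4, h5⟩ := pot_fin h
  have hp := ppp (u := fun j : Fin n => u j) (hu.comp Fin.valEmbedding) hφ z
    (fun j => al_int hφ h1 j) (y := y) (κ := fun s => conj ((z - φ s)⁻¹))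
    (Lp.stronglyMeasurable y).measurable
    (Complex.continuous_conj.measurable.comp (measurable_const.sub hφ).inv)
    (fun s => by rw [RCLike.norm_conj, norm_inv]) (eb_real hφ hy).1
  rw [(eb_real hφ hy).2] at hp
  refine le_trans (le_of_eq ?_) (hp.trans ?_)
  · refine Finset.sum_congr rfl fun i _ => ?_
    congr 1
    rw [← RCLike.norm_conj]
    unfold ct
    rw [← integral_conj]
    congr 2
    funext s
    simp only [map_mul, Complex.conj_conj]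
    ring
  · have a2 := al_sum hφ h1 n
    have b1 : 0 ≤ (al φ v l z).toReal := ENNReal.toReal_nonneg
    have b3 : 0 ≤ (be φ u l z).toReal := ENNReal.toReal_nonneg
    have b4 : 0 ≤ (be φ v l z).toReal := ENNReal.toReal_nonneg
    refine mul_le_mul_of_nonneg_right ?_ ENNReal.toReal_nonneg
    rw [h5]
    have e : ∑ j : Fin n, ∫ x, ‖u j x‖ ^ 2 * knr (th ((fun j : Fin n => l (Fin.valEmbedding j)) j))
        ‖z - φ x‖ ∂μ = ∑ j : Fin n, ∫ x, ‖u j x‖ ^ 2 * knr (th (l j)) ‖z - φ x‖ ∂μ := rfl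
    rw [e]
    linarith

end main

end Pool.Agent.K4H47.HS
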