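import Mathlib
import Pool.Agent.Helper209.CX.K04

/-!
# Project HS: determinantal inequalities

`|det M|² ≤ det H₁ det H₂` if `|⟨y, M x⟩|² ≤ ⟨x, H₂ x⟩ ⟨y, H₁ y⟩`, and consequences.
-/

set_option autoImplicit false

namespace Pool.Agent.K4H47.HS

open Matrix
open scoped ComplexOrder

variable {n : ℕ}

/-- the square of the euclidean norm -/
noncomputable def nsq {n : ℕ} (x : Fin n → ℂ) : ℝ := ∑ i, ‖x i‖ ^ 2

lemma nsq_nonneg (x : Fin n → ℂ) : 0 ≤ nsq x := Finset.sum_nonneg fun _ _ => sq_nonneg _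

lemma star_dot_self (x : Fin n → ℂ) : star x ⬝ᵥ x = (nsq x : ℂ) := by
  unfold nsq dotProduct
  push_cast
  refine Finset.sum_congr rfl fun i _ => ?_
  simp only [Pi.star_apply, RCLike.star_def]
  rw [Complex.conj_mul']

/-- Cauchy-Schwarz -/
lemma dot_le (x y : Fin n → ℂ) : ‖x ⬝ᵥ y‖ ^ 2 ≤ nsq x * nsq y := by
  unfold dotProduct nsq
  calc ‖∑ i, x i * y i‖ ^ 2 ≤ (∑ i, ‖x i‖ * ‖y i‖) ^ 2 := by
        refine pow_le_pow_left₀ (norm_nonneg _) ?_ 2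
        exact (norm_sum_le _ _).trans (Finset.sum_le_sum fun i _ => (norm_mul _ _).le)
    _ ≤ _ := Finset.sum_mul_sq_le_sq_mul_sq _ _ _

lemma nsq_star (x : Fin n → ℂ) : nsq (star x) = nsq x := by
  unfold nsq
  exact Finset.sum_congr rfl fun i _ => by rw [Pi.star_apply, norm_star]

/-- contractions -/
def Ctr {n : ℕ} (C : Matrix (Fin n) (Fin n) ℂ) : Prop := ∀ x, nsq (C *ᵥ x) ≤ nsq x

/-- unitary triangularisation -/
theorem schur (K : Matrix (Fin n) (Fin n) ℂ) :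
    ∃ U : Matrix (Fin n) (Fin n) ℂ, star U * U = 1 ∧ U * star U = 1 ∧
      (star U * K * U).BlockTriangular id := by
  obtain ⟨b, -, ho, htri, -, -⟩ := Pool.Agent.Helper209.CX.K04.d4_schur_aux (fun _ => True) n
    (EuclideanSpace ℂ (Fin n)) (by simp) (Matrix.toEuclideanLin K)
  let U : Matrix (Fin n) (Fin n) ℂ := fun x g => b g x
  have hUU : star U * U = 1 := by
    ext g g'
    rw [Matrix.mul_apply, Matrix.one_apply]
    have := orthonormal_iff_ite.1 ho g g'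
    rw [← this, PiLp.inner_apply]
    exact Finset.sum_congr rfl fun x _ => mul_comm _ _
  have hUU' : U * star U = 1 := mul_eq_one_comm.1 hUU
  have hM : ∀ g g', (star U * K * U) g g' = inner ℂ (b g) (Matrix.toEuclideanLin K (b g')) := by
    intro g g'
    simp only [Matrix.mul_apply, PiLp.inner_apply, Matrix.toLpLin_apply]
    simp only [Matrix.mulVec, dotProduct, Finset.sum_mul]
    rw [Finset.sum_comm]
    refine Finset.sum_congr rfl fun x _ => ?_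
    show _ = (∑ y, K x y * (b g') y) * (starRingEnd ℂ) (b g x)
    rw [Finset.sum_mul]
    refine Finset.sum_congr rfl fun y _ => ?_
    show (starRingEnd ℂ) (b g x) * K x y * (b g' y) = _
    ring
  refine ⟨U, hUU, hUU', ?_⟩
  intro g g' h
  rw [hM]
  exact htri _ _ h

lemma nsq_unitary {U : Matrix (Fin n) (Fin n) ℂ} (hU : star U * U = 1) (x : Fin n → ℂ) :
    nsq (U *ᵥ x) = nsq x := by
  have h : ((nsq (U *ᵥ x) : ℝ) : ℂ) = ((nsq x : ℝ) : ℂ) := by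
    rw [← star_dot_self, ← star_dot_self, Matrix.star_mulVec, Matrix.dotProduct_mulVec,
      Matrix.vecMul_vecMul, ← Matrix.star_eq_conjTranspose, hU, Matrix.vecMul_one]
  exact_mod_cast h

/-- the determinant of a contraction -/
theorem det_ctr {V : Matrix (Fin n) (Fin n) ℂ} (hV : Ctr V) : ‖V.det‖ ≤ 1 := by
  obtain ⟨U, hU, hU', hT⟩ := schur V
  have h1 : (star U * V * U).det = V.det := by
    rw [Matrix.det_mul, Matrix.det_mul, mul_comm, ← mul_assoc, ← Matrix.det_mul, hU',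
      Matrix.det_one, one_mul]
  rw [← h1, Matrix.det_of_isUpperTriangular hT, norm_prod]
  refine Finset.prod_le_one (fun _ _ => norm_nonneg _) fun j _ => ?_
  -- the diagonal entries
  set e : Fin n → ℂ := Pi.single j 1 with he
  have hne : nsq e = 1 := by
    unfold nsq
    rw [Finset.sum_eq_single j]
    · simp [he]
    · intro i _ hi
      simp [he, hi]
    · simp
  have h2 : (star U * V * U) j j = star e ⬝ᵥ ((star U * V * U) *ᵥ e) := by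
    rw [he, Matrix.mulVec_single_one]
    simp [dotProduct, Pi.single_apply]
  have h3 : nsq ((star U * V * U) *ᵥ e) ≤ 1 := by
    have hU2 : star (star U) * star U = 1 := by rw [star_star]; exact hU'
    rw [← Matrix.mulVec_mulVec, ← Matrix.mulVec_mulVec, nsq_unitary hU2]
    refine (hV _).trans ?_
    rw [nsq_unitary hU, hne]
  have h4 := dot_le (star e) ((star U * V * U) *ᵥ e)
  rw [← h2, nsq_star, hne, one_mul] at h4
  have h5 : ‖(star U * V * U) j j‖ ^ 2 ≤ 1 := h4.trans h3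
  nlinarith [norm_nonneg ((star U * V * U) j j)]

open scoped MatrixOrder in
lemma exists_factor {H : Matrix (Fin n) (Fin n) ℂ} (h : H.PosSemidef) :
    ∃ C : Matrix (Fin n) (Fin n) ℂ, H = Cᴴ * C := by
  obtain ⟨y, hy⟩ := CStarAlgebra.nonneg_iff_eq_star_mul_self.mp h.nonneg
  exact ⟨y, hy⟩

/-- **the determinantal Cauchy-Schwarz inequality** -/
theorem gl (M H₁ H₂ : Matrix (Fin n) (Fin n) ℂ) (h1 : H₁.PosDef) (h2 : H₂.PosDef)
    (h : ∀ x y : Fin n → ℂ,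
      ‖star y ⬝ᵥ M *ᵥ x‖ ^ 2 ≤ (star x ⬝ᵥ H₂ *ᵥ x).re * (star y ⬝ᵥ H₁ *ᵥ y).re) :
    ‖M.det‖ ^ 2 ≤ ‖H₁.det‖ * ‖H₂.det‖ := by
  obtain ⟨C₁, hC₁⟩ := exists_factor h1.posSemidef
  obtain ⟨C₂, hC₂⟩ := exists_factor h2.posSemidef
  have hd1 : IsUnit C₁.det := by
    have := h1.det_pos
    rw [hC₁, Matrix.det_mul] at this
    rw [isUnit_iff_ne_zero]
    intro h0
    rw [h0, mul_zero] at this
    exact lt_irrefl _ this
  have hd2 : IsUnit C₂.det := by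
    have := h2.det_pos
    rw [hC₂, Matrix.det_mul] at this
    rw [isUnit_iff_ne_zero]
    intro h0
    rw [h0, mul_zero] at this
    exact lt_irrefl _ this
  set V := (C₁ᴴ)⁻¹ * M * C₂⁻¹ with hVdef
  have hd1' : IsUnit (C₁ᴴ).det := by
    rw [Matrix.det_conjTranspose]
    exact hd1.star
  have hMV : M = C₁ᴴ * V * C₂ := by
    rw [hVdef]
    simp only [mul_assoc]
    rw [Matrix.nonsing_inv_mul _ hd2, mul_one, ← mul_assoc, Matrix.mul_nonsing_inv _ hd1', one_mul]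
  have hq : ∀ (C : Matrix (Fin n) (Fin n) ℂ) (x : Fin n → ℂ),
      (star x ⬝ᵥ (Cᴴ * C) *ᵥ x).re = nsq (C *ᵥ x) := by
    intro C x
    rw [← Matrix.mulVec_mulVec, Matrix.dotProduct_mulVec, ← Matrix.star_mulVec, star_dot_self,
      Complex.ofReal_re]
  have hV : Ctr V := by
    intro x
    have key : ∀ y, ‖star y ⬝ᵥ V *ᵥ x‖ ^ 2 ≤ nsq x * nsq y := by
      intro y
      have h3 := h (C₂⁻¹ *ᵥ x) (C₁⁻¹ *ᵥ y)
      have e3 : C₂ *ᵥ C₂⁻¹ *ᵥ x = x := by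
        rw [Matrix.mulVec_mulVec, Matrix.mul_nonsing_inv _ hd2, Matrix.one_mulVec]
      have e4 : C₁ *ᵥ C₁⁻¹ *ᵥ y = y := by
        rw [Matrix.mulVec_mulVec, Matrix.mul_nonsing_inv _ hd1, Matrix.one_mulVec]
      rw [hC₁, hC₂, hq, hq, e3, e4] at h3
      refine le_trans (le_of_eq ?_) h3
      congr 2
      rw [Matrix.star_mulVec, ← Matrix.dotProduct_mulVec, Matrix.mulVec_mulVec, hVdef,
        Matrix.mulVec_mulVec, Matrix.conjTranspose_nonsing_inv]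
    have h4 := key (V *ᵥ x)
    rw [star_dot_self, Complex.norm_real, Real.norm_of_nonneg (nsq_nonneg _)] at h4
    rcases (nsq_nonneg (V *ᵥ x)).eq_or_lt with h5 | h5
    · rw [← h5]
      exact nsq_nonneg _
    · nlinarith
  have h6 := det_ctr hV
  have e1 : ‖H₁.det‖ = ‖C₁.det‖ ^ 2 := by
    rw [hC₁, Matrix.det_mul, norm_mul, Matrix.det_conjTranspose, norm_star, sq]
  have e2 : ‖H₂.det‖ = ‖C₂.det‖ ^ 2 := by
    rw [hC₂, Matrix.det_mul, norm_mul, Matrix.det_conjTranspose, norm_star, sq]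
  rw [hMV, Matrix.det_mul, Matrix.det_mul, norm_mul, norm_mul, Matrix.det_conjTranspose, norm_star,
    e1, e2]
  have h7 : ‖V.det‖ ^ 2 ≤ 1 := pow_le_one₀ (norm_nonneg _) h6
  calc (‖C₁.det‖ * ‖V.det‖ * ‖C₂.det‖) ^ 2 = ‖C₁.det‖ ^ 2 * ‖C₂.det‖ ^ 2 * ‖V.det‖ ^ 2 := by ring
    _ ≤ ‖C₁.det‖ ^ 2 * ‖C₂.det‖ ^ 2 * 1 := by gcongr
    _ = _ := mul_one _

/-- a Cauchy-Schwarz inequality for numbers -/
lemma cs2 {α β : ℂ} {a₁ a₂ b₁ b₂ : ℝ} (ha₁ : 0 ≤ a₁) (ha₂ : 0 ≤ a₂) (hb₁ : 0 ≤ b₁) (hb₂ : 0 ≤ b₂)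
    (h1 : ‖α‖ ^ 2 ≤ a₁ * b₁) (h2 : ‖β‖ ^ 2 ≤ a₂ * b₂) :
    ‖α + β‖ ^ 2 ≤ (a₁ + a₂) * (b₁ + b₂) := by
  have e1 : ‖α‖ ≤ Real.sqrt a₁ * Real.sqrt b₁ := by
    rw [← Real.sqrt_mul ha₁]
    exact Real.le_sqrt_of_sq_le h1
  have e2 : ‖β‖ ≤ Real.sqrt a₂ * Real.sqrt b₂ := by
    rw [← Real.sqrt_mul ha₂]
    exact Real.le_sqrt_of_sq_le h2
  have e3 : ‖α + β‖ ≤ Real.sqrt a₁ * Real.sqrt b₁ + Real.sqrt a₂ * Real.sqrt b₂ :=
    (norm_add_le _ _).trans (add_le_add e1 e2)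
  have q1 := Real.sq_sqrt ha₁
  have q2 := Real.sq_sqrt ha₂
  have q3 := Real.sq_sqrt hb₁
  have q4 := Real.sq_sqrt hb₂
  calc ‖α + β‖ ^ 2 ≤ (Real.sqrt a₁ * Real.sqrt b₁ + Real.sqrt a₂ * Real.sqrt b₂) ^ 2 :=
        pow_le_pow_left₀ (norm_nonneg _) e3 2
    _ ≤ (Real.sqrt a₁ ^ 2 + Real.sqrt a₂ ^ 2) * (Real.sqrt b₁ ^ 2 + Real.sqrt b₂ ^ 2) := by
        nlinarith [sq_nonneg (Real.sqrt a₁ * Real.sqrt b₂ - Real.sqrt a₂ * Real.sqrt b₁)]
    _ = _ := by rw [q1, q2, q3, q4]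

/-- the quadratic form of `1 + Eᴴ E` -/
lemma form_one_add (E : Matrix (Fin n) (Fin n) ℂ) (x : Fin n → ℂ) :
    (star x ⬝ᵥ (1 + Eᴴ * E) *ᵥ x).re = nsq x + nsq (E *ᵥ x) := by
  rw [Matrix.add_mulVec, Matrix.one_mulVec, dotProduct_add, star_dot_self, ← Matrix.mulVec_mulVec,
    Matrix.dotProduct_mulVec, ← Matrix.star_mulVec, star_dot_self, Complex.add_re,
    Complex.ofReal_re, Complex.ofReal_re]

lemma form_one_add' (E : Matrix (Fin n) (Fin n) ℂ) (x : Fin n → ℂ) :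
    (star x ⬝ᵥ (1 + E * Eᴴ) *ᵥ x).re = nsq x + nsq (Eᴴ *ᵥ x) := by
  have := form_one_add Eᴴ x
  rwa [Matrix.conjTranspose_conjTranspose] at this

lemma posDef_one_add (E : Matrix (Fin n) (Fin n) ℂ) : (1 + Eᴴ * E).PosDef :=
  Matrix.PosDef.one.add_posSemidef (Matrix.posSemidef_conjTranspose_mul_self E)

lemma posDef_one_add' (E : Matrix (Fin n) (Fin n) ℂ) : (1 + E * Eᴴ).PosDef :=
  Matrix.PosDef.one.add_posSemidef (Matrix.posSemidef_self_mul_conjTranspose E)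

lemma form_vecMulVec (a x : Fin n → ℂ) :
    (star x ⬝ᵥ (Matrix.vecMulVec a (star a)) *ᵥ x).re = ‖star a ⬝ᵥ x‖ ^ 2 := by
  rw [Matrix.vecMulVec_mulVec, ← Complex.ofReal_re (‖star a ⬝ᵥ x‖ ^ 2)]
  congr 1
  have h1 : star x ⬝ᵥ a = star (star a ⬝ᵥ x) := by
    rw [Matrix.star_dotProduct]
  simp only [MulOpposite.smul_eq_mul_unop, MulOpposite.unop_op, op_smul_eq_smul,
    dotProduct_smul, smul_eq_mul, h1, RCLike.star_def]
  rw [Complex.mul_conj']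
  push_cast
  rfl

/-- adding a rank one matrix to a matrix which is at least one -/
lemma det_add_rank_one {H : Matrix (Fin n) (Fin n) ℂ} (hH : H.PosDef)
    (h1 : ∀ x, nsq x ≤ (star x ⬝ᵥ H *ᵥ x).re) (a : Fin n → ℂ) (ha : nsq a ≤ 1) :
    ‖(H + Matrix.vecMulVec a (star a)).det‖ ≤ 2 * ‖H.det‖ := by
  have hd : IsUnit H.det := isUnit_iff_ne_zero.2 hH.det_pos.ne'
  set c := H⁻¹ *ᵥ a with hc
  have hHc : H *ᵥ c = a := by
    rw [hc, Matrix.mulVec_mulVec, Matrix.mul_nonsing_inv _ hd, Matrix.one_mulVec]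
  have h2 : H + Matrix.vecMulVec a (star a) = H * (1 + Matrix.vecMulVec c (star a)) := by
    rw [mul_add, mul_one, Matrix.mul_vecMulVec, hHc]
  rw [h2, Matrix.det_mul, Matrix.vecMulVec_eq (Fin 1),
    Matrix.det_one_add_replicateCol_mul_replicateRow, norm_mul, mul_comm]
  refine mul_le_mul_of_nonneg_right ?_ (norm_nonneg _)
  -- the number
  have h3 : star a ⬝ᵥ c = star (star c ⬝ᵥ a) := by
    rw [Matrix.star_dotProduct]
  have h4 : ‖star a ⬝ᵥ c‖ = ‖star c ⬝ᵥ a‖ := by rw [h3, norm_star]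
  have h5 : ‖star c ⬝ᵥ a‖ ^ 2 ≤ nsq c * nsq a := by
    have := dot_le (star c) a
    rwa [nsq_star] at this
  have h6 : nsq c ≤ ‖star c ⬝ᵥ a‖ := by
    have := h1 c
    rw [hHc] at this
    exact this.trans (Complex.re_le_norm _)
  have h7 : ‖star c ⬝ᵥ a‖ ≤ 1 := by
    have h8 : ‖star c ⬝ᵥ a‖ ^ 2 ≤ ‖star c ⬝ᵥ a‖ * 1 := by
      refine h5.trans ?_
      exact mul_le_mul h6 ha (nsq_nonneg _) (norm_nonneg _)
    nlinarith [norm_nonneg (star c ⬝ᵥ a)]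
  calc ‖1 + star a ⬝ᵥ c‖ ≤ ‖(1 : ℂ)‖ + ‖star a ⬝ᵥ c‖ := norm_add_le _ _
    _ ≤ 2 := by rw [norm_one, h4]; linarith

/-- the bordered determinant -/
theorem det_border (E : Matrix (Fin n) (Fin n) ℂ) (a b : Fin n → ℂ) (ha : nsq a ≤ 1)
    (hb : nsq b ≤ 1) :
    ‖(1 - E * E + Matrix.vecMulVec a b).det‖ ≤ 2 * ‖(1 + Eᴴ * E).det‖ := by
  set H₁ := (1 + E * Eᴴ) + Matrix.vecMulVec a (star a) with hH₁
  set H₂ := (1 + Eᴴ * E) + Matrix.vecMulVec (star b) (star (star b)) with hH₂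
  have p1 : H₁.PosDef := (posDef_one_add' E).add_posSemidef
    (Matrix.posSemidef_vecMulVec_self_star a)
  have p2 : H₂.PosDef := (posDef_one_add E).add_posSemidef
    (Matrix.posSemidef_vecMulVec_self_star (star b))
  have key := gl (1 - E * E + Matrix.vecMulVec a b) H₁ H₂ p1 p2 (fun x y => by
    have e1 : (star x ⬝ᵥ H₂ *ᵥ x).re = nsq x + nsq (E *ᵥ x) + ‖b ⬝ᵥ x‖ ^ 2 := by
      rw [hH₂, Matrix.add_mulVec, dotProduct_add, Complex.add_re, form_one_add, form_vecMulVec,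
        star_star]
    have e2 : (star y ⬝ᵥ H₁ *ᵥ y).re = nsq y + nsq (Eᴴ *ᵥ y) + ‖star a ⬝ᵥ y‖ ^ 2 := by
      rw [hH₁, Matrix.add_mulVec, dotProduct_add, Complex.add_re, form_one_add', form_vecMulVec]
    have e3 : star y ⬝ᵥ (1 - E * E + Matrix.vecMulVec a b) *ᵥ x =
        (star y ⬝ᵥ x + -(star (Eᴴ *ᵥ y) ⬝ᵥ (E *ᵥ x))) + (b ⬝ᵥ x) * (star y ⬝ᵥ a) := by
      rw [Matrix.add_mulVec, Matrix.sub_mulVec, Matrix.one_mulVec, dotProduct_add,
        dotProduct_sub, Matrix.vecMulVec_mulVec, sub_eq_add_neg]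
      congr 1
      · congr 2
        rw [← Matrix.mulVec_mulVec, Matrix.dotProduct_mulVec, Matrix.star_mulVec,
          Matrix.conjTranspose_conjTranspose]
      · simp only [op_smul_eq_smul, dotProduct_smul, smul_eq_mul]
    rw [e1, e2, e3]
    have c1 : ‖star y ⬝ᵥ x‖ ^ 2 ≤ nsq x * nsq y := by
      have := dot_le (star y) x
      rwa [nsq_star, mul_comm] at this
    have c2 : ‖-(star (Eᴴ *ᵥ y) ⬝ᵥ (E *ᵥ x))‖ ^ 2 ≤ nsq (E *ᵥ x) * nsq (Eᴴ *ᵥ y) := by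
      have := dot_le (star (Eᴴ *ᵥ y)) (E *ᵥ x)
      rw [norm_neg]
      rwa [nsq_star, mul_comm] at this
    have c3 : ‖(b ⬝ᵥ x) * (star y ⬝ᵥ a)‖ ^ 2 ≤ ‖b ⬝ᵥ x‖ ^ 2 * ‖star a ⬝ᵥ y‖ ^ 2 := by
      rw [norm_mul, mul_pow]
      have : star y ⬝ᵥ a = star (star a ⬝ᵥ y) := by rw [Matrix.star_dotProduct]
      rw [this, norm_star]
    exact cs2 (add_nonneg (nsq_nonneg _) (nsq_nonneg _)) (sq_nonneg _)
      (add_nonneg (nsq_nonneg _) (nsq_nonneg _)) (sq_nonneg _)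
      (cs2 (nsq_nonneg _) (nsq_nonneg _) (nsq_nonneg _) (nsq_nonneg _) c1 c2) c3)
  have hdet : (1 + E * Eᴴ).det = (1 + Eᴴ * E).det := Matrix.det_one_add_mul_comm _ _
  have q1 : ‖H₁.det‖ ≤ 2 * ‖(1 + Eᴴ * E).det‖ := by
    rw [← hdet]
    refine det_add_rank_one (posDef_one_add' E) (fun x => ?_) a ha
    rw [form_one_add']
    linarith [nsq_nonneg (Eᴴ *ᵥ x)]
  have q2 : ‖H₂.det‖ ≤ 2 * ‖(1 + Eᴴ * E).det‖ := by
    refine det_add_rank_one (posDef_one_add E) (fun x => ?_) (star b) (by rwa [nsq_star])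
    rw [form_one_add]
    linarith [nsq_nonneg (E *ᵥ x)]
  have q3 : ‖(1 - E * E + Matrix.vecMulVec a b).det‖ ^ 2 ≤ (2 * ‖(1 + Eᴴ * E).det‖) ^ 2 := by
    refine key.trans ?_
    rw [sq]
    exact mul_le_mul q1 q2 (norm_nonneg _) (by positivity)
  exact (pow_le_pow_iff_left₀ (norm_nonneg _) (by positivity) two_ne_zero).1 q3

/-- `det (1 + (F²)ᴴ F²) ≤ det (1 + (Fᴴ F)²)` -/
theorem det_sq_le (F : Matrix (Fin n) (Fin n) ℂ) :
    ‖(1 + (F * F)ᴴ * (F * F)).det‖ ≤ ‖(1 + (Fᴴ * F) * (Fᴴ * F)).det‖ := by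
  have e1 : (1 + (F * F)ᴴ * (F * F)).det = (1 + (Fᴴ * F) * (F * Fᴴ)).det := by
    have h := Matrix.det_one_add_mul_comm Fᴴ (Fᴴ * (F * F))
    rw [Matrix.conjTranspose_mul, mul_assoc, h]
    congr 2
    simp only [mul_assoc]
  have e2 : (1 + (F * Fᴴ)ᴴ * (F * Fᴴ)).det = (1 + (Fᴴ * F) * (Fᴴ * F)).det := by
    have h := Matrix.det_one_add_mul_comm F (Fᴴ * (F * Fᴴ))
    rw [Matrix.conjTranspose_mul, Matrix.conjTranspose_conjTranspose]
    have e3 : F * Fᴴ * (F * Fᴴ) = F * (Fᴴ * (F * Fᴴ)) := by simp only [mul_assoc]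
    rw [e3, h]
    congr 2
    simp only [mul_assoc]
  have e4 : (Fᴴ * F)ᴴ = Fᴴ * F := by
    rw [Matrix.conjTranspose_mul, Matrix.conjTranspose_conjTranspose]
  have key := gl (1 + (Fᴴ * F) * (F * Fᴴ)) (1 + (Fᴴ * F)ᴴ * (Fᴴ * F))
    (1 + (F * Fᴴ)ᴴ * (F * Fᴴ)) (posDef_one_add _) (posDef_one_add _) (fun x y => by
    rw [form_one_add, form_one_add, Matrix.add_mulVec, Matrix.one_mulVec, dotProduct_add]
    refine cs2 (nsq_nonneg _) (nsq_nonneg _) (nsq_nonneg _) (nsq_nonneg _) ?_ ?_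
    · have := dot_le (star y) x
      rwa [nsq_star, mul_comm] at this
    · have h1 : star y ⬝ᵥ ((Fᴴ * F) * (F * Fᴴ)) *ᵥ x =
          star ((Fᴴ * F) *ᵥ y) ⬝ᵥ ((F * Fᴴ) *ᵥ x) := by
        rw [← Matrix.mulVec_mulVec, Matrix.dotProduct_mulVec, Matrix.star_mulVec, e4]
      rw [h1]
      have := dot_le (star ((Fᴴ * F) *ᵥ y)) ((F * Fᴴ) *ᵥ x)
      rwa [nsq_star, mul_comm] at this)
  rw [e2, e4] at key
  rw [e1]
  have h5 : ‖(1 + (Fᴴ * F) * (F * Fᴴ)).det‖ ^ 2 ≤ ‖(1 + (Fᴴ * F) * (Fᴴ * F)).det‖ ^ 2 := by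
    rw [sq ‖(1 + (Fᴴ * F) * (Fᴴ * F)).det‖]
    exact key
  exact (pow_le_pow_iff_left₀ (norm_nonneg _) (norm_nonneg _) two_ne_zero).1 h5

end Pool.Agent.K4H47.HS
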