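import Pool.Agent.K4H47.HS.Mat1
import Pool.Agent.Y978.NK.DET
import Pool.Agent.Y907.NK.INV

/-!
# Project HS: matrices with small diagonals in all bases
-/

set_option autoImplicit false

namespace Pool.Agent.K4H47.HS

open Matrix
open scoped ComplexOrder

variable {n : ℕ}

/-- `min (x, x⁴)` -/
noncomputable def ps (x : ℝ) : ℝ := min x (x ^ 4)

lemma ps_nonneg {x : ℝ} (hx : 0 ≤ x) : 0 ≤ ps x := le_min hx (by positivity)

lemma ps_mono {x y : ℝ} (hx : 0 ≤ x) (h : x ≤ y) : ps x ≤ ps y :=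
  min_le_min h (pow_le_pow_left₀ hx h 4)

lemma ps_mul {x τ T : ℝ} (hx : 0 ≤ x) (hτ : 0 ≤ τ) (hT : 1 + τ ^ 4 ≤ T) :
    ps (τ * x) ≤ T * ps x := by
  have h1 : τ ≤ T := by nlinarith [sq_nonneg (τ - 1), sq_nonneg (τ ^ 2 - 1), sq_nonneg (τ^2)]
  have h2 : τ ^ 4 ≤ T := by linarith
  unfold ps
  rw [mul_min_of_nonneg _ _ (hτ.trans h1)]
  refine min_le_min ?_ ?_
  · exact mul_le_mul_of_nonneg_right h1 hx
  · rw [mul_pow]
    exact mul_le_mul_of_nonneg_right h2 (by positivity)

lemma one_add_pow_four_le {x : ℝ} (hx : 0 ≤ x) : 1 + x ^ 4 ≤ Real.exp (4 * ps x) := by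
  rcases le_total x 1 with h | h
  · have h1 : ps x = x ^ 4 := by
      unfold ps
      refine min_eq_right ?_
      have h3 : x ^ 3 ≤ 1 := pow_le_one₀ hx h
      nlinarith
    rw [h1]
    have h2 := Real.add_one_le_exp (4 * x ^ 4)
    have h3 : 0 ≤ x ^ 4 := by positivity
    linarith
  · have h1 : ps x = x := by
      unfold ps
      refine min_eq_left ?_
      have h3 : 1 ≤ x ^ 3 := one_le_pow₀ h
      nlinarith
    rw [h1]
    have h2 : x ≤ Real.exp (x - 1) := by linarith [Real.add_one_le_exp (x - 1)]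
    have h3 : x ^ 4 ≤ Real.exp (4 * (x - 1)) := by
      calc x ^ 4 ≤ (Real.exp (x - 1)) ^ 4 := pow_le_pow_left₀ hx h2 4
        _ = _ := by rw [← Real.exp_nat_mul]; norm_num
    have h4 : (1:ℝ) ≤ Real.exp (4 * (x - 1)) := Real.one_le_exp (by linarith)
    have h5 : (2:ℝ) ≤ Real.exp 4 := by linarith [Real.add_one_le_exp (4:ℝ)]
    calc 1 + x ^ 4 ≤ 2 * Real.exp (4 * (x - 1)) := by linarith
      _ ≤ Real.exp 4 * Real.exp (4 * (x - 1)) := by gcongr
      _ = _ := by rw [← Real.exp_add]; ring_nf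

/-- the sums of the diagonals are bounded for all contractive changes of bases -/
def Gam (F : Matrix (Fin n) (Fin n) ℂ) (Γ : ℝ) : Prop :=
  ∀ C D : Matrix (Fin n) (Fin n) ℂ, Ctr C → Ctr D →
    ∑ m, ps ‖∑ i, ∑ j, star (D m i) * F i j * C m j‖ ≤ Γ

lemma Gam.smul {F : Matrix (Fin n) (Fin n) ℂ} {Γ : ℝ} (h : Gam F Γ) (t : ℂ) :
    Gam (t • F) ((1 + ‖t‖ ^ 4) * Γ) := by
  intro C D hC hD
  have e : ∀ m, ‖∑ i, ∑ j, star (D m i) * (t • F) i j * C m j‖ =
      ‖t‖ * ‖∑ i, ∑ j, star (D m i) * F i j * C m j‖ := by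
    intro m
    rw [← norm_mul, Finset.mul_sum]
    congr 1
    refine Finset.sum_congr rfl fun i _ => ?_
    rw [Finset.mul_sum]
    refine Finset.sum_congr rfl fun j _ => ?_
    rw [Matrix.smul_apply, smul_eq_mul]
    ring
  calc ∑ m, ps ‖∑ i, ∑ j, star (D m i) * (t • F) i j * C m j‖
      ≤ ∑ m, (1 + ‖t‖ ^ 4) * ps ‖∑ i, ∑ j, star (D m i) * F i j * C m j‖ := by
        refine Finset.sum_le_sum fun m _ => ?_
        rw [e]
        exact ps_mul (norm_nonneg _) (norm_nonneg _) le_rfl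
    _ = (1 + ‖t‖ ^ 4) * ∑ m, ps ‖∑ i, ∑ j, star (D m i) * F i j * C m j‖ := by
        rw [Finset.mul_sum]
    _ ≤ _ := mul_le_mul_of_nonneg_left (h C D hC hD) (by positivity)

lemma Gam.nonneg {F : Matrix (Fin n) (Fin n) ℂ} {Γ : ℝ} (h : Gam F Γ) : 0 ≤ Γ := by
  have h0 : Ctr (0 : Matrix (Fin n) (Fin n) ℂ) := by
    intro x
    rw [Matrix.zero_mulVec]
    simp [nsq]
    exact nsq_nonneg x
  exact (Finset.sum_nonneg fun m _ => ps_nonneg (norm_nonneg _)).trans (h 0 0 h0 h0)

lemma ctr_unitary {U : Matrix (Fin n) (Fin n) ℂ} (hU : star U * U = 1) : Ctr U :=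
  fun x => (nsq_unitary hU x).le

lemma ctr_transpose {U : Matrix (Fin n) (Fin n) ℂ} (hU : U * star U = 1) : Ctr Uᵀ := by
  refine ctr_unitary ?_
  have h1 : star (Uᵀ) = (star U)ᵀ := rfl
  rw [h1, ← Matrix.transpose_mul, hU, Matrix.transpose_one]

lemma ctr_adj {C : Matrix (Fin n) (Fin n) ℂ} (hC : Ctr C) : Ctr Cᴴ := by
  intro y
  have h1 : ((nsq (Cᴴ *ᵥ y) : ℝ) : ℂ) = star y ⬝ᵥ (C *ᵥ (Cᴴ *ᵥ y)) := by
    rw [← star_dot_self, Matrix.star_mulVec, Matrix.conjTranspose_conjTranspose,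
      ← Matrix.dotProduct_mulVec]
  have h2 := dot_le (star y) (C *ᵥ (Cᴴ *ᵥ y))
  rw [← h1, nsq_star, Complex.norm_real, Real.norm_of_nonneg (nsq_nonneg _)] at h2
  have h3 := hC (Cᴴ *ᵥ y)
  rcases (nsq_nonneg (Cᴴ *ᵥ y)).eq_or_lt with h5 | h5
  · rw [← h5]
    exact nsq_nonneg _
  · have h6 : nsq (Cᴴ *ᵥ y) ^ 2 ≤ nsq y * nsq (Cᴴ *ᵥ y) :=
      h2.trans (mul_le_mul_of_nonneg_left h3 (nsq_nonneg _))
    nlinarith

/-- diagonalisation of `Fᴴ F` -/
lemma diag_hermitian (F : Matrix (Fin n) (Fin n) ℂ) :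
    ∃ (U : Matrix (Fin n) (Fin n) ℂ) (l : Fin n → ℝ), star U * U = 1 ∧ U * star U = 1 ∧
      (∀ k, 0 ≤ l k) ∧ star U * (Fᴴ * F) * U = Matrix.diagonal (fun k => (l k : ℂ)) := by
  have hH := Matrix.isHermitian_conjTranspose_mul_self F
  refine ⟨(hH.eigenvectorUnitary : Matrix (Fin n) (Fin n) ℂ), hH.eigenvalues,
    Unitary.coe_star_mul_self _, Unitary.coe_mul_star_self _,
    Matrix.eigenvalues_conjTranspose_mul_self_nonneg F, ?_⟩
  have := hH.conjStarAlgAut_star_eigenvectorUnitary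
  rw [Unitary.conjStarAlgAut_star_apply] at this
  exact this

lemma le_prod {ι : Type} (s : Finset ι) (f : ι → ℝ) (hf : ∀ i, 1 ≤ f i) :
    1 ≤ ∏ i ∈ s, f i ∧ ∀ k ∈ s, f k ≤ ∏ i ∈ s, f i := by
  classical
  induction s using Finset.induction_on with
  | empty => simp
  | insert a s ha ih =>
    rw [Finset.prod_insert ha]
    have h1 := hf a
    refine ⟨by nlinarith [ih.1], fun k hk => ?_⟩
    rcases Finset.mem_insert.1 hk with h | h
    · subst h
      nlinarith [ih.1]
    · have h2 := ih.2 k h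
      have h3 := hf k
      nlinarith

/-- **singular values** -/
theorem det_sing {F : Matrix (Fin n) (Fin n) ℂ} {Γ : ℝ} (h : Gam F Γ) :
    ‖(1 + (Fᴴ * F) * (Fᴴ * F)).det‖ ≤ Real.exp (4 * Γ) ∧
    1 ≤ ‖(1 + (Fᴴ * F) * (Fᴴ * F)).det‖ ∧
    ∀ x, nsq (F *ᵥ x) ≤ ‖(1 + (Fᴴ * F) * (Fᴴ * F)).det‖ * nsq x := by
  obtain ⟨U, l, hU, hU', hl, hd⟩ := diag_hermitian F
  have h1 : (star U * (1 + (Fᴴ * F) * (Fᴴ * F)) * U).det = (1 + (Fᴴ * F) * (Fᴴ * F)).det := by
    rw [Matrix.det_mul, Matrix.det_mul, mul_comm, ← mul_assoc, ← Matrix.det_mul, hU',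
      Matrix.det_one, one_mul]
  have h2 : star U * (1 + (Fᴴ * F) * (Fᴴ * F)) * U =
      Matrix.diagonal (fun k => ((1 + l k ^ 2 : ℝ) : ℂ)) := by
    have e1 : star U * ((Fᴴ * F) * (Fᴴ * F)) * U =
        (star U * (Fᴴ * F) * U) * (star U * (Fᴴ * F) * U) := by
      calc star U * ((Fᴴ * F) * (Fᴴ * F)) * U
          = star U * (Fᴴ * F) * 1 * (Fᴴ * F) * U := by simp only [mul_one, mul_assoc]
        _ = star U * (Fᴴ * F) * (U * star U) * (Fᴴ * F) * U := by rw [hU']
        _ = _ := by simp only [mul_assoc]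
    rw [mul_add, add_mul, mul_one, hU, e1, hd, Matrix.diagonal_mul_diagonal,
      ← Matrix.diagonal_one, Matrix.diagonal_add]
    congr 1
    funext k
    push_cast
    ring
  have h3 : ‖(1 + (Fᴴ * F) * (Fᴴ * F)).det‖ = ∏ k, (1 + l k ^ 2) := by
    rw [← h1, h2, Matrix.det_diagonal, norm_prod]
    refine Finset.prod_congr rfl fun k _ => ?_
    rw [Complex.norm_real, Real.norm_of_nonneg (by positivity)]
  have h4 := le_prod Finset.univ (fun k => 1 + l k ^ 2) (fun k => by nlinarith [sq_nonneg (l k)])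
  set G := F * U with hG
  have hGG : Gᴴ * G = Matrix.diagonal (fun k => (l k : ℂ)) := by
    rw [hG, Matrix.conjTranspose_mul, ← hd, Matrix.star_eq_conjTranspose]
    simp only [mul_assoc]
  have hGij : ∀ m k, ∑ i, star (G i m) * G i k = if m = k then (l m : ℂ) else 0 := by
    intro m k
    have := congrFun (congrFun hGG m) k
    rw [Matrix.mul_apply, Matrix.diagonal_apply] at this
    exact this
  refine ⟨?_, ?_, ?_⟩
  · -- the determinant
    set s : Fin n → ℝ := fun k => Real.sqrt (l k) with hs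
    have hs2 : ∀ k, s k ^ 2 = l k := fun k => Real.sq_sqrt (hl k)
    have hs0 : ∀ k, 0 ≤ s k := fun k => Real.sqrt_nonneg _
    set D : Matrix (Fin n) (Fin n) ℂ := Matrix.of fun m i => G i m * ((s m : ℂ)⁻¹) with hD
    have hDC : Ctr D := by
      have hDD : ∀ y, nsq (Dᴴ *ᵥ y) ≤ nsq y := by
        intro y
        have e1 : D * Dᴴ = Matrix.diagonal (fun k => ((l k * (s k)⁻¹ * (s k)⁻¹ : ℝ) : ℂ)) := by
          ext m k
          rw [Matrix.mul_apply, Matrix.diagonal_apply]
          have e2 : ∀ i, D m i * Dᴴ i k = (s m : ℂ)⁻¹ * (s k : ℂ)⁻¹ * (star (G i k) * G i m) := by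
            intro i
            rw [Matrix.conjTranspose_apply, hD, Matrix.of_apply, Matrix.of_apply, star_mul']
            have e3 : star ((s k : ℂ)⁻¹) = (s k : ℂ)⁻¹ := by
              rw [star_inv₀]
              congr 1
              exact Complex.conj_ofReal _
            rw [e3]
            ring
          rw [Finset.sum_congr rfl fun i _ => e2 i, ← Finset.mul_sum, hGij]
          by_cases hmk : m = k
          · subst hmk
            simp only [if_true]
            push_cast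
            ring
          · rw [if_neg (Ne.symm hmk), if_neg hmk, mul_zero]
        have e2 : ((nsq (Dᴴ *ᵥ y) : ℝ) : ℂ) = star y ⬝ᵥ ((D * Dᴴ) *ᵥ y) := by
          rw [← star_dot_self, Matrix.star_mulVec, Matrix.conjTranspose_conjTranspose,
            ← Matrix.dotProduct_mulVec, Matrix.mulVec_mulVec]
        have e3 : nsq (Dᴴ *ᵥ y) = ∑ k, (l k * (s k)⁻¹ * (s k)⁻¹) * ‖y k‖ ^ 2 := by
          rw [← Complex.ofReal_re (nsq (Dᴴ *ᵥ y)), e2, e1]
          unfold dotProduct
          rw [Complex.re_sum]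
          refine Finset.sum_congr rfl fun k _ => ?_
          rw [Matrix.mulVec_diagonal, Pi.star_apply]
          have e4 : star (y k) * (((l k * (s k)⁻¹ * (s k)⁻¹ : ℝ) : ℂ) * y k) =
              (((l k * (s k)⁻¹ * (s k)⁻¹) * ‖y k‖ ^ 2 : ℝ) : ℂ) := by
            push_cast
            rw [← Complex.conj_mul', RCLike.star_def]
            ring
          rw [e4, Complex.ofReal_re]
        rw [e3]
        unfold nsq
        refine Finset.sum_le_sum fun k _ => ?_
        refine mul_le_of_le_one_left (by positivity) ?_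
        by_cases h0 : s k = 0
        · rw [h0]; simp
        · rw [← hs2 k]
          field_simp
          exact le_rfl
      have := ctr_adj hDD
      rwa [Matrix.conjTranspose_conjTranspose] at this
    have h5 := h Uᵀ D (ctr_transpose hU') hDC
    have h6 : ∀ m, ∑ i, ∑ j, star (D m i) * F i j * Uᵀ m j = (s m : ℂ) := by
      intro m
      have e1 : ∀ i, ∑ j, star (D m i) * F i j * Uᵀ m j = (s m : ℂ)⁻¹ * (star (G i m) * G i m) := by
        intro i
        have e2 : G i m = ∑ j, F i j * U j m := by rw [hG, Matrix.mul_apply]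
        have e3 : star (D m i) = star (G i m) * (s m : ℂ)⁻¹ := by
          rw [hD, Matrix.of_apply, star_mul']
          congr 1
          rw [star_inv₀]
          congr 1
          exact Complex.conj_ofReal _
        calc ∑ j, star (D m i) * F i j * Uᵀ m j = star (D m i) * ∑ j, F i j * U j m := by
              rw [Finset.mul_sum]
              refine Finset.sum_congr rfl fun j _ => ?_
              rw [Matrix.transpose_apply]
              ring
          _ = _ := by rw [← e2, e3]; ring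
      rw [Finset.sum_congr rfl fun i _ => e1 i, ← Finset.mul_sum, hGij, if_pos rfl, ← hs2 m]
      push_cast
      by_cases h0 : (s m : ℂ) = 0
      · rw [h0]; simp
      · field_simp
    rw [h3]
    calc ∏ k, (1 + l k ^ 2) = ∏ k, (1 + s k ^ 4) := by
          refine Finset.prod_congr rfl fun k _ => ?_
          rw [← hs2 k]; ring
      _ ≤ ∏ k, Real.exp (4 * ps (s k)) :=
          Finset.prod_le_prod (fun k _ => by positivity) fun k _ => one_add_pow_four_le (hs0 k)
      _ = Real.exp (4 * ∑ k, ps (s k)) := by rw [← Real.exp_sum, Finset.mul_sum]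
      _ ≤ _ := by
          apply Real.exp_le_exp.2
          refine mul_le_mul_of_nonneg_left ?_ (by norm_num)
          refine le_trans (le_of_eq ?_) h5
          refine Finset.sum_congr rfl fun k _ => ?_
          rw [h6, Complex.norm_real, Real.norm_of_nonneg (hs0 k)]
  · rw [h3]
    exact h4.1
  · intro x
    rw [h3]
    set y := star U *ᵥ x with hy
    have hx : x = U *ᵥ y := by rw [hy, Matrix.mulVec_mulVec, hU', Matrix.one_mulVec]
    have e0 : nsq x = nsq y := by rw [hx, nsq_unitary hU]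
    have e1 : ((nsq (F *ᵥ x) : ℝ) : ℂ) = star y ⬝ᵥ ((Gᴴ * G) *ᵥ y) := by
      rw [← star_dot_self, hx, Matrix.mulVec_mulVec, ← hG, Matrix.star_mulVec,
        ← Matrix.dotProduct_mulVec, Matrix.mulVec_mulVec]
    have e3 : nsq (F *ᵥ x) = ∑ k, l k * ‖y k‖ ^ 2 := by
      rw [← Complex.ofReal_re (nsq (F *ᵥ x)), e1, hGG]
      unfold dotProduct
      rw [Complex.re_sum]
      refine Finset.sum_congr rfl fun k _ => ?_
      rw [Matrix.mulVec_diagonal, Pi.star_apply]
      have e4 : star (y k) * ((l k : ℂ) * y k) = ((l k * ‖y k‖ ^ 2 : ℝ) : ℂ) := by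
        push_cast
        rw [← Complex.conj_mul', RCLike.star_def]
        ring
      rw [e4, Complex.ofReal_re]
    rw [e3, e0]
    unfold nsq
    rw [Finset.mul_sum]
    refine Finset.sum_le_sum fun k _ => ?_
    refine mul_le_mul_of_nonneg_right ?_ (by positivity)
    refine le_trans ?_ (h4.2 k (Finset.mem_univ k))
    nlinarith [sq_nonneg (l k - 1), hl k]

end Pool.Agent.K4H47.HS
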