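import Pool.Agent.Y681.NK.OUTQ
import Pool.Agent.Y487.NK.SEL

/-!
# Project HS: outer functions on discs, abstract part
-/

set_option autoImplicit false

namespace Pool.Agent.K4H47.HS

open MeasureTheory Set Metric Filter Topology
open scoped InnerProductSpace ENNReal NNReal ComplexConjugate

/-- Hahn-Banach -/
theorem hb {X : Type} [SeminormedAddCommGroup X] [NormedSpace ℂ X] (Q : Submodule ℂ X) (e : X)
    {δ : ℝ} (hδ : 0 < δ) (h : ∀ q ∈ Q, δ ≤ ‖e - q‖) :
    ∃ f : X →L[ℂ] ℂ, (∀ x, ‖f x‖ ≤ ‖x‖) ∧ (∀ q ∈ Q, f q = 0) ∧ δ ≤ ‖f e‖ := by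
  have h1 : δ ≤ ‖(Submodule.Quotient.mk e : X ⧸ Q)‖ := by
    have h2 : ‖(Submodule.Quotient.mk e : X ⧸ Q)‖ = infDist e (Q : Set X) :=
      QuotientAddGroup.norm_mk (S := Q.toAddSubgroup) e
    rw [h2]
    have hne : (Q : Set X).Nonempty := ⟨0, Q.zero_mem⟩
    rw [le_infDist hne]
    intro q hq
    rw [dist_eq_norm]
    exact h q hq
  obtain ⟨g, hg1, hg2⟩ := exists_dual_vector ℂ (Submodule.Quotient.mk e : X ⧸ Q)
    (by linarith : ‖(Submodule.Quotient.mk e : X ⧸ Q)‖ ≠ 0)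
  have hb : ∀ x : X, ‖g (Submodule.Quotient.mk x)‖ ≤ ‖x‖ := by
    intro x
    calc ‖g (Submodule.Quotient.mk x)‖ ≤ ‖g‖ * ‖(Submodule.Quotient.mk x : X ⧸ Q)‖ :=
          g.le_opNorm _
      _ = ‖(Submodule.Quotient.mk x : X ⧸ Q)‖ := by rw [hg1, one_mul]
      _ ≤ ‖x‖ := Submodule.Quotient.norm_mk_le Q x
  refine ⟨LinearMap.mkContinuous ((g : X ⧸ Q →ₗ[ℂ] ℂ).comp Q.mkQ) 1 (fun x => ?_), fun x => ?_,
    fun q hq => ?_, ?_⟩
  · rw [one_mul]
    exact hb x
  · exact hb x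
  · show g (Submodule.Quotient.mk q) = 0
    rw [(Submodule.Quotient.mk_eq_zero Q).2 hq, map_zero]
  · show δ ≤ ‖g (Submodule.Quotient.mk e)‖
    rw [hg2]
    simpa using h1

variable {Ω : Type} [MeasurableSpace Ω] (ν : Measure Ω) [IsFiniteMeasure ν]

/-- functionals on `L¹` -/
theorem riesz1 (f : Lp ℂ 1 ν →L[ℂ] ℂ) (hf : ∀ x, ‖f x‖ ≤ ‖x‖) :
    ∃ b : Ω → ℂ, Measurable b ∧ (∀ᵐ x ∂ν, ‖b x‖ ≤ 1) ∧
      ∀ (g : Ω → ℂ) (hg : MemLp g 2 ν) (hg1 : MemLp g 1 ν),
        f (hg1.toLp g) = ∫ x, conj (b x) * g x ∂ν := by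
  have hmem : ∀ g : Lp ℂ 2 ν, MemLp g 1 ν := fun g => (Lp.memLp g).mono_exponent (by norm_num)
  set C : ℝ := (ν univ ^ (1 / (1:ℝ) - 1 / 2)).toReal with hC
  have hnorm : ∀ g : Lp ℂ 2 ν, ‖(hmem g).toLp g‖ ≤ C * ‖g‖ := by
    intro g
    rw [Lp.norm_toLp, Lp.norm_def, mul_comm, hC, ← ENNReal.toReal_mul]
    refine ENNReal.toReal_mono ?_ ?_
    · refine ENNReal.mul_ne_top (Lp.eLpNorm_ne_top g) ?_
      exact ENNReal.rpow_ne_top_of_nonneg (by norm_num) (measure_ne_top ν univ)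
    · have := eLpNorm_le_eLpNorm_mul_rpow_measure_univ (μ := ν) (p := 1) (q := 2) (f := g)
        (by norm_num) (Lp.aestronglyMeasurable g)
      simpa using this
  set F0 : Lp ℂ 2 ν →ₗ[ℂ] ℂ :=
    { toFun := fun g => f ((hmem g).toLp g)
      map_add' := fun g g' => by
        rw [← map_add, ← MemLp.toLp_add]
        congr 1
        exact MemLp.toLp_congr _ _ (Lp.coeFn_add g g')
      map_smul' := fun c g => by
        rw [RingHom.id_apply, smul_eq_mul, ← smul_eq_mul, ← map_smul, ← MemLp.toLp_const_smul]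
        congr 1
        exact MemLp.toLp_congr _ _ (Lp.coeFn_smul c g) } with hF0
  have hF0b : ∀ g, ‖F0 g‖ ≤ C * ‖g‖ := fun g => (hf _).trans (hnorm g)
  set F : Lp ℂ 2 ν →L[ℂ] ℂ := F0.mkContinuous C hF0b with hF
  set b : Lp ℂ 2 ν := (InnerProductSpace.toDual ℂ (Lp ℂ 2 ν)).symm F with hb
  have hbF : ∀ (g : Ω → ℂ) (hg : MemLp g 2 ν) (hg1 : MemLp g 1 ν),
      f (hg1.toLp g) = ∫ x, conj (b x) * g x ∂ν := by
    intro g hg hg1
    have h1 : ⟪b, hg.toLp g⟫_ℂ = F (hg.toLp g) := InnerProductSpace.toDual_symm_apply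
    have h2 : F (hg.toLp g) = f (hg1.toLp g) := by
      show f ((hmem (hg.toLp g)).toLp (hg.toLp g)) = _
      congr 1
      exact MemLp.toLp_congr _ _ hg.coeFn_toLp
    rw [← h2, ← h1, L2.inner_def]
    refine integral_congr_ae ?_
    filter_upwards [hg.coeFn_toLp] with x hx
    rw [hx, RCLike.inner_apply, mul_comm]
  have hbm : Measurable b := (Lp.stronglyMeasurable b).measurable
  refine ⟨b, hbm, ?_, hbF⟩
  -- the bound
  set A : Set Ω := {x | 1 < ‖b x‖} with hA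
  have hAm : MeasurableSet A := measurableSet_lt measurable_const hbm.norm
  set g : Ω → ℂ := A.indicator (fun x => b x / (‖b x‖ : ℂ)) with hg
  have hgm : Measurable g :=
    (hbm.div (Complex.measurable_ofReal.comp hbm.norm)).indicator hAm
  have hg1 : ∀ x, ‖g x‖ = A.indicator (fun _ => (1:ℝ)) x := by
    intro x
    by_cases hx : x ∈ A
    · rw [hg, indicator_of_mem hx, indicator_of_mem hx, norm_div, Complex.norm_real, norm_norm,
        div_self]
      have : (1:ℝ) < ‖b x‖ := hx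
      linarith
    · rw [hg, indicator_of_notMem hx, indicator_of_notMem hx, norm_zero]
  have hgle : ∀ x, ‖g x‖ ≤ 1 := by
    intro x
    rw [hg1]
    exact indicator_le_self' (fun _ _ => zero_le_one) x
  have hgL : ∀ p : ℝ≥0∞, MemLp g p ν := fun p =>
    MemLp.of_bound hgm.aestronglyMeasurable 1 (Eventually.of_forall hgle)
  have h1 := hbF g (hgL 2) (hgL 1)
  have e1 : ∀ x, conj (b x) * g x = ((A.indicator (fun x => ‖b x‖) x : ℝ) : ℂ) := by
    intro x
    by_cases hx : x ∈ A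
    · rw [hg, indicator_of_mem hx, indicator_of_mem hx, ← mul_div_assoc, Complex.conj_mul']
      have : (1:ℝ) < ‖b x‖ := hx
      have h0 : (‖b x‖ : ℂ) ≠ 0 := by
        have : ‖b x‖ ≠ 0 := by linarith
        exact_mod_cast this
      field_simp
    · rw [hg, indicator_of_notMem hx, indicator_of_notMem hx]
      simp
  simp_rw [e1] at h1
  rw [integral_complex_ofReal, integral_indicator hAm] at h1
  have h2 : ‖f ((hgL 1).toLp g)‖ ≤ (ν A).toReal := by
    refine (hf _).trans (le_of_eq ?_)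
    rw [Lp.norm_toLp, eLpNorm_one_eq_lintegral_enorm]
    congr 1
    have e2 : ∀ x, ‖g x‖ₑ = A.indicator (fun _ => (1:ℝ≥0∞)) x := by
      intro x
      rw [← ofReal_norm, hg1]
      by_cases hx : x ∈ A
      · rw [indicator_of_mem hx, indicator_of_mem hx, ENNReal.ofReal_one]
      · rw [indicator_of_notMem hx, indicator_of_notMem hx, ENNReal.ofReal_zero]
    simp_rw [e2]
    rw [lintegral_indicator hAm, setLIntegral_one]
  rw [h1, Complex.norm_real] at h2
  have hbi : Integrable (fun x => ‖b x‖) ν := by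
    have := (hmem b)
    exact (memLp_one_iff_integrable.1 this).norm
  have h3 : ∫ x in A, (‖b x‖ - 1) ∂ν ≤ 0 := by
    rw [integral_sub hbi.integrableOn (integrable_const _), setIntegral_const, smul_eq_mul, mul_one]
    have h4 := (le_abs_self _).trans h2
    have h5 : ν.real A = (ν A).toReal := rfl
    rw [h5]
    linarith
  have h4 : ∀ᵐ x ∂(ν.restrict A), 0 ≤ ‖b x‖ - 1 := by
    filter_upwards [ae_restrict_mem hAm] with x hx
    have : (1:ℝ) < ‖b x‖ := hx
    linarith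
  have h5 : ∫ x in A, (‖b x‖ - 1) ∂ν = 0 := le_antisymm h3 (integral_nonneg_of_ae h4)
  have h6 := (integral_eq_zero_iff_of_nonneg_ae h4
    (hbi.integrableOn.sub (integrable_const _))).1 h5
  have h7 : ∀ᵐ x ∂(ν.restrict A), False := by
    filter_upwards [h6, ae_restrict_mem hAm] with x hx hxA
    have h8 : (1:ℝ) < ‖b x‖ := hxA
    have h9 : ‖b x‖ - 1 = 0 := hx
    linarith
  rw [ae_restrict_iff' hAm] at h7
  filter_upwards [h7] with x hx
  by_contra hcon
  exact hx (not_le.1 hcon)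

end Pool.Agent.K4H47.HS
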