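import Pool.Agent.K4H47.HS.Step
import Pool.Agent.K4H47.HS.Pot
import Pool.Agent.Y283.NK.L2c
import Pool.Agent.Y77.NK.ADJ
import Pool.Agent.Y454.NK.LIM
import Pool.Agent.Y487.NK.SEL
import Pool.Agent.Y529.NK.ANN

/-!
# Project HS: representations of Hilbert-Schmidt operators, almost every coupling is good
-/

set_option autoImplicit false

namespace Pool.Agent.K4H47.HS

open MeasureTheory Set Metric Filter Topology
open scoped InnerProductSpace ENNReal NNReal ComplexConjugate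
open Pool.Agent.Y283.NK

/-- `K = ∑ ⟪v j, ·⟫ u j`, in norm, with Bessel's inequality on levels -/
structure HSR {H : Type} [NormedAddCommGroup H] [InnerProductSpace ℂ H] (K : H →L[ℂ] H)
    (u v : ℕ → H) (l : ℕ → ℕ) (L : ℝ) : Prop where
  lu : Lev u l L
  lv : Lev v l L
  sm : Summable fun j => th (l j) ^ 2
  rep : Tendsto (fun n => fr u v n) atTop (𝓝 K)

section

variable {H : Type} [NormedAddCommGroup H] [InnerProductSpace ℂ H] [CompleteSpace H]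
  {K : H →L[ℂ] H} {u v : ℕ → H} {l : ℕ → ℕ} {L : ℝ}

lemma fr_adj (u v : ℕ → H) (n : ℕ) : ContinuousLinearMap.adjoint (fr u v n) = fr v u n := by
  rw [Pool.Agent.Y77.NK.fr_eq, Pool.Agent.Y77.NK.fr_eq, map_sum]
  exact Finset.sum_congr rfl fun j _ => Pool.Agent.Y77.NK.T1_adj u v j

lemma HSR.adj (h : HSR K u v l L) : HSR (ContinuousLinearMap.adjoint K) v u l L := by
  refine ⟨h.lv, h.lu, h.sm, ?_⟩
  have h1 : Tendsto (fun n => ContinuousLinearMap.adjoint (fr u v n)) atTop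
      (𝓝 (ContinuousLinearMap.adjoint K)) :=
    ((ContinuousLinearMap.adjoint (𝕜 := ℂ) (E := H) (F := H)).continuous.tendsto K).comp h.rep
  simpa only [fr_adj] using h1

lemma HSR.compact (h : HSR K u v l L) : IsCompactOperator K := by
  refine isCompactOperator_of_tendsto h.rep (Eventually.of_forall fun n => ?_)
  rw [Pool.Agent.Y77.NK.fr_eq]
  induction n with
  | zero =>
    rw [Finset.sum_range_zero]
    exact isCompactOperator_zero
  | succ n ih =>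
    rw [Finset.sum_range_succ]
    exact ih.add (Pool.Agent.Y77.NK.T1_compact u v n)

lemma lev_symm {H' : Type} [NormedAddCommGroup H'] [InnerProductSpace ℂ H'] (W : H' ≃ₗᵢ[ℂ] H)
    {u : ℕ → H} (h : Lev u l L) : Lev (fun j => W.symm (u j)) l L := by
  refine ⟨h.pos, fun k s hs g => ?_⟩
  have h1 := h.bes k s hs (W g)
  rw [LinearIsometryEquiv.norm_map] at h1
  refine le_trans (le_of_eq ?_) h1
  refine Finset.sum_congr rfl fun j _ => ?_
  rw [← LinearIsometryEquiv.inner_map_map W (W.symm (u j)) g,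
    LinearIsometryEquiv.apply_symm_apply]

lemma HSR.cj {H' : Type} [NormedAddCommGroup H'] [InnerProductSpace ℂ H'] [CompleteSpace H']
    (W : H' ≃ₗᵢ[ℂ] H) (h : HSR K u v l L) :
    HSR (cj W K) (fun j => W.symm (u j)) (fun j => W.symm (v j)) l L := by
  refine ⟨lev_symm W h.lu, lev_symm W h.lv, h.sm, ?_⟩
  have h0 : ∀ n, fr (fun j => W.symm (u j)) (fun j => W.symm (v j)) n =
      Pool.Agent.Y283.NK.cj W (fr u v n) := by
    intro n
    ext1 f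
    rw [cj_apply]
    unfold fr
    rw [_root_.sum_apply, _root_.sum_apply, map_sum]
    refine Finset.sum_congr rfl fun j _ => ?_
    rw [ContinuousLinearMap.smulRight_apply, ContinuousLinearMap.smulRight_apply,
      innerSL_apply_apply, innerSL_apply_apply, map_smul,
      ← LinearIsometryEquiv.inner_map_map W (W.symm (v j)) f,
      LinearIsometryEquiv.apply_symm_apply]
  simp_rw [h0]
  have h1 := tendsto_iff_norm_sub_tendsto_zero.1 h.rep
  rw [tendsto_iff_norm_sub_tendsto_zero]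
  refine squeeze_zero (fun n => norm_nonneg _) (fun n => ?_) h1
  refine ContinuousLinearMap.opNorm_le_bound _ (norm_nonneg _) fun f => ?_
  show ‖W.symm (fr u v n (W f)) - W.symm (K (W f))‖ ≤ _
  rw [← map_sub, LinearIsometryEquiv.norm_map]
  calc ‖fr u v n (W f) - K (W f)‖ = ‖(fr u v n - K) (W f)‖ := rfl
    _ ≤ ‖fr u v n - K‖ * ‖W f‖ := ContinuousLinearMap.le_opNorm _ _
    _ = _ := by rw [LinearIsometryEquiv.norm_map]

end

section

variable {S : Type} [MeasurableSpace S] {μ : Measure S} [SigmaFinite μ] {φ : S → ℂ}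
  {u v : ℕ → Lp ℂ 2 μ} {l : ℕ → ℕ} {L : ℝ}

/-- almost every coupling is good -/
theorem gen2 (hφ : Measurable φ) (hu : Lev u l L) (hv : Lev v l L)
    (hs : Summable fun j => th (l j) ^ 2) (m : Measure ℂ) [SFinite m] (hm : LogBd m) (R R' : ℝ) :
    ∀ᵐ t ∂(m.restrict (ball (0:ℂ) R)), ∃ (I : Set ℕ) (B : ℝ≥0), I.Infinite ∧
      ∀ n ∈ I, ∫⁻ z in ball (0:ℂ) R', lm ‖dd (FF φ u v n z) t‖ ≤ B := by
  obtain ⟨C, hC⟩ := pot4 m hm R
  have hL := hu.pos
  set κ : ℝ≥0∞ := (C + 1) * ENNReal.ofReal (4 + 4096 * L ^ 3) with hκ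
  have hκ0 : κ ≠ 0 := by
    refine mul_ne_zero (by simp) ?_
    rw [ne_eq, ENNReal.ofReal_eq_zero, not_le]
    positivity
  have hκt : κ ≠ ⊤ := ENNReal.mul_ne_top (by simp) ENNReal.ofReal_ne_top
  have key : ∀ (n : ℕ) (z : ℂ), ∫⁻ t in ball (0:ℂ) R, lm ‖dd (FF φ u v n z) t‖ ∂m ≤
      κ * pot φ u v l z := by
    intro n z
    by_cases hQ : pot φ u v l z = ⊤
    · rw [hQ, ENNReal.mul_top hκ0]
      exact le_top
    refine (hC n _ _ (gam_pot hφ hu hv hQ n)).trans ?_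
    rw [ENNReal.ofReal_mul (by positivity), ENNReal.ofReal_toReal hQ, ← mul_assoc]
    have h1 : (C : ℝ≥0∞) ≤ (C : ℝ≥0∞) + 1 := le_self_add
    exact mul_le_mul' (mul_le_mul' h1 (le_refl (ENNReal.ofReal (4 + 4096 * L ^ 3))))
      (le_refl (pot φ u v l z))
  have hfin : κ * ∫⁻ z in ball (0:ℂ) R', pot φ u v l z ≠ ⊤ := by
    refine ENNReal.mul_ne_top hκt ?_
    exact ne_top_of_le_ne_top (int_pot hφ hu hv hs) (setLIntegral_le_lintegral _ _)
  obtain ⟨C', hC'⟩ : ∃ C' : ℝ≥0, (C' : ℝ≥0∞) = _ := ⟨_, ENNReal.coe_toNNReal hfin⟩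
  refine Pool.Agent.Y487.NK.main_sel m R R' (fun n z t => lm ‖dd (FF φ u v n z) t‖) C'
    (fun n => meas_lmdd hφ u v n) (fun n => ?_)
  rw [hC']
  calc ∫⁻ z in ball (0:ℂ) R', ∫⁻ t in ball (0:ℂ) R, lm ‖dd (FF φ u v n z) t‖ ∂m
      ≤ ∫⁻ z in ball (0:ℂ) R', κ * pot φ u v l z := lintegral_mono fun z => key n z
    _ = _ := lintegral_const_mul' _ _ hκt

/-- vectors with small local spectrum -/
theorem loc2 {N : Lp ℂ 2 μ →L[ℂ] Lp ℂ 2 μ} (hN : IsMul φ N) {K : Lp ℂ 2 μ →L[ℂ] Lp ℂ 2 μ}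
    (hK : HSR K u v l L) (t c : ℂ) (ρ R : ℝ) (hρ : 0 < ρ)
    (hcR : closedBall c ρ ⊆ ball (0:ℂ) R) (I : Set ℕ) (B : ℝ≥0) (hI : I.Infinite)
    (hB : ∀ n ∈ I, ∫⁻ z in ball (0:ℂ) R, lm ‖dd (FF φ u v n z) t‖ ≤ B)
    (x : Lp ℂ 2 μ) (hx : ∀ y, c • y - (N + t • K) y ≠ x) :
    ∃ (C : ℝ) (Y : ℕ → Lp ℂ 2 μ),
      (∀ a, (N + t • K) (Y a) - c • Y a = Y (a + 1)) ∧ (∀ a, ‖Y a‖ ≤ C * ρ ^ a) ∧ Y 0 ≠ 0 := by
  have hφ := hN.meas
  have hL := hK.lu.pos
  obtain ⟨C₀, hC₀, hC₀2⟩ := int_eb (μ := μ) hφ R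
  set κ : ℝ≥0∞ := ENNReal.ofReal (3 + 10 * (1 + ‖t‖ ^ 4) * (4 + 4096 * L ^ 3)) with hκ
  have hfin : ENNReal.ofReal (3 + 5 * L) * volume (closedBall c ρ) +
      κ * ((∫⁻ z : ℂ, pot φ u v l z) + ENNReal.ofReal (‖x‖ ^ 2 * C₀)) + B ≠ ⊤ := by
    refine ENNReal.add_ne_top.2 ⟨ENNReal.add_ne_top.2 ⟨?_, ?_⟩, ENNReal.coe_ne_top⟩
    · exact ENNReal.mul_ne_top ENNReal.ofReal_ne_top measure_closedBall_lt_top.ne
    · exact ENNReal.mul_ne_top ENNReal.ofReal_ne_top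
        (ENNReal.add_ne_top.2 ⟨int_pot hφ hK.lu hK.lv hK.sm, ENNReal.ofReal_ne_top⟩)
  obtain ⟨B₂, hB₂⟩ : ∃ B₂ : ℝ≥0, (B₂ : ℝ≥0∞) = _ := ⟨_, ENNReal.coe_toNNReal hfin⟩
  have hwt : ∀ n ∈ I, (∫⁻ z in closedBall c ρ, wt2 φ u v l L n x t z) ≤ B₂ := by
    intro n hn
    rw [hB₂]
    have m1 : Measurable fun z => pot φ u v l z + eb φ x z :=
      (meas_pot hφ u v l).add (meas_eb hφ x)
    have m2 : Measurable fun z => ENNReal.ofReal (3 + 5 * L) + κ * (pot φ u v l z + eb φ x z) :=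
      measurable_const.add (measurable_const.mul m1)
    unfold wt2
    rw [lintegral_add_left m2, lintegral_add_left measurable_const,
      lintegral_const_mul' _ _ ENNReal.ofReal_ne_top, lintegral_add_left (meas_pot hφ u v l),
      setLIntegral_const]
    refine add_le_add (add_le_add le_rfl (mul_le_mul' le_rfl (add_le_add ?_ ?_))) ?_
    · exact setLIntegral_le_lintegral _ _
    · exact (lintegral_mono_set hcR).trans (hC₀2 x)
    · exact (lintegral_mono_set hcR).trans (hB n hn)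
  obtain ⟨Q, δ, hQ0, hδ, hstep⟩ := step2 hN hK.lu hK.lv x t c ρ hρ B₂
  have hstep' : ∀ n : ℕ, ∃ (X : ℕ → Lp ℂ 2 μ) (Z : Lp ℂ 2 μ) (κ : ℂ), n ∈ I →
      (∀ a, (N + t • fr u v n) (X a) - c • X a = X (a + 1)) ∧
      (∀ a, ‖X a‖ ≤ Q * ρ ^ a) ∧
      c • Z - (N + t • fr u v n) Z = X 0 + κ • x ∧ ‖Z‖ ≤ Q ∧ δ ≤ ‖κ‖ ∧ ‖κ‖ ≤ Q := by
    intro n
    by_cases hn : n ∈ I
    · obtain ⟨X, Z, k, h⟩ := hstep n (hwt n hn)
      exact ⟨X, Z, k, fun _ => h⟩
    · exact ⟨fun _ => 0, 0, 0, fun h => absurd h hn⟩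
  choose X Z k hXZ using hstep'
  have hlimT : Tendsto (fun n => N + t • fr u v n) atTop (𝓝 (N + t • K)) :=
    (hK.rep.const_smul t).const_add N
  obtain ⟨Y, W, κ', y1, y2, y3, y4⟩ := Pool.Agent.Y454.NK.main (Lp ℂ 2 μ) (N + t • K)
    (fun n => N + t • fr u v n) c ρ Q δ x X Z k I hI hρ.le hδ hlimT (fun n hn => (hXZ n hn).1)
    (fun n hn a => (hXZ n hn).2.1 a) (fun n hn => (hXZ n hn).2.2.1)
    (fun n hn => (hXZ n hn).2.2.2.1)
    (fun n hn => ⟨(hXZ n hn).2.2.2.2.1, (hXZ n hn).2.2.2.2.2⟩)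
  refine ⟨Q, Y, y1, y2, ?_⟩
  intro hY
  rw [hY, zero_add] at y3
  apply hx (κ'⁻¹ • W)
  rw [map_smul, smul_comm, ← smul_sub, y3, smul_smul, inv_mul_cancel₀ y4, one_smul]

/-! ### reflection -/

omit [SigmaFinite μ] in
lemma FF_conj (φ : S → ℂ) (u v : ℕ → Lp ℂ 2 μ) (n : ℕ) (z : ℂ) :
    FF (fun s => conj (φ s)) v u n (conj z) = (FF φ u v n z).conjTranspose := by
  ext i j
  unfold FF
  simp only [Matrix.conjTranspose_apply, Matrix.of_apply, Pool.Agent.Y77.NK.ct_conj]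
  rfl

lemma dd_conj {n : ℕ} (F : Matrix (Fin n) (Fin n) ℂ) (t : ℂ) :
    dd F.conjTranspose (conj t) = conj (dd F t) := by
  unfold dd
  have h1 : (conj t) • F.conjTranspose = (t • F).conjTranspose := by
    rw [Matrix.conjTranspose_smul]
    rfl
  rw [h1, ← Matrix.conjTranspose_mul, ← Matrix.conjTranspose_mul]
  have h2 : (1 : Matrix (Fin n) (Fin n) ℂ) - ((t • F) * (t • F) * ((t • F) * (t • F))).conjTranspose =
      (1 - (t • F) * (t • F) * ((t • F) * (t • F))).conjTranspose := by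
    rw [Matrix.conjTranspose_sub, Matrix.conjTranspose_one]
  rw [h2, Matrix.det_conjTranspose]
  rfl

omit [SigmaFinite μ] in
lemma reflect2 (φ : S → ℂ) (u v : ℕ → Lp ℂ 2 μ) (n : ℕ) (t : ℂ) (R : ℝ) :
    ∫⁻ z in ball (0:ℂ) R, lm ‖dd (FF (fun s => conj (φ s)) v u n z) (conj t)‖ =
      ∫⁻ z in ball (0:ℂ) R, lm ‖dd (FF φ u v n z) t‖ := by
  have hmp : MeasurePreserving (Complex.conjLIE : ℂ → ℂ) volume volume :=
    Complex.conjLIE.measurePreserving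
  have hemb : MeasurableEmbedding (Complex.conjLIE : ℂ → ℂ) :=
    Complex.conjLIE.toHomeomorph.measurableEmbedding
  have h1 := hmp.setLIntegral_comp_preimage_emb hemb
    (fun z => lm ‖dd (FF (fun s => conj (φ s)) v u n z) (conj t)‖) (ball (0:ℂ) R)
  have h2 : (Complex.conjLIE : ℂ → ℂ) ⁻¹' (ball (0:ℂ) R) = ball (0:ℂ) R := by
    ext z
    simp
  rw [h2] at h1
  rw [← h1]
  refine lintegral_congr fun z => ?_
  show lm ‖dd (FF (fun s => conj (φ s)) v u n (conj z)) (conj t)‖ = _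
  rw [FF_conj, dd_conj, RCLike.norm_conj]

end

end Pool.Agent.K4H47.HS
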