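import Mathlib

/-!
# Project HS: Hilbert-Schmidt operators, Schmidt decomposition
-/

set_option autoImplicit false

namespace Pool.Agent.K4H47.HS

open Set Metric Filter Topology
open scoped InnerProductSpace ENNReal NNReal ComplexConjugate

variable {H : Type} [NormedAddCommGroup H] [InnerProductSpace ℂ H]

/-- Bessel's inequality for orthogonal families of vectors of norm at most one -/
lemma bess {ι : Type} {f : ι → H} (ho : ∀ i j, i ≠ j → ⟪f i, f j⟫_ℂ = 0) (h1 : ∀ i, ‖f i‖ ≤ 1)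
    (s : Finset ι) (g : H) : ∑ i ∈ s, ‖⟪f i, g⟫_ℂ‖ ^ 2 ≤ ‖g‖ ^ 2 := by
  classical
  set A : ℝ := ∑ i ∈ s, ‖⟪f i, g⟫_ℂ‖ ^ 2 with hA
  have hA0 : 0 ≤ A := Finset.sum_nonneg fun _ _ => sq_nonneg _
  set p : H := ∑ i ∈ s, ⟪f i, g⟫_ℂ • f i with hp
  have h2 : ⟪p, p⟫_ℂ = ((∑ i ∈ s, ‖⟪f i, g⟫_ℂ‖ ^ 2 * ‖f i‖ ^ 2 : ℝ) : ℂ) := by
    rw [hp, sum_inner]
    push_cast
    refine Finset.sum_congr rfl fun i hi => ?_
    rw [inner_sum, Finset.sum_eq_single i]
    · rw [inner_smul_left, inner_smul_right, inner_self_eq_norm_sq_to_K, ← mul_assoc,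
        Complex.conj_mul']
      rfl
    · intro j _ hji
      rw [inner_smul_left, inner_smul_right, ho i j (Ne.symm hji), mul_zero, mul_zero]
    · intro h; exact absurd hi h
  have h3 : ‖p‖ ^ 2 ≤ A := by
    have h4 : ‖p‖ ^ 2 = ∑ i ∈ s, ‖⟪f i, g⟫_ℂ‖ ^ 2 * ‖f i‖ ^ 2 := by
      have h5 := inner_self_eq_norm_sq_to_K (𝕜 := ℂ) p
      rw [h2] at h5
      have h6 : ((∑ i ∈ s, ‖⟪f i, g⟫_ℂ‖ ^ 2 * ‖f i‖ ^ 2 : ℝ) : ℂ) = ((‖p‖ ^ 2 : ℝ) : ℂ) := by
        rw [h5]; push_cast; rfl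
      exact_mod_cast h6.symm
    rw [h4]
    refine Finset.sum_le_sum fun i _ => ?_
    have : ‖f i‖ ^ 2 ≤ 1 := pow_le_one₀ (norm_nonneg _) (h1 i)
    nlinarith [sq_nonneg ‖⟪f i, g⟫_ℂ‖]
  have h4 : ⟪p, g⟫_ℂ = (A : ℂ) := by
    rw [hp, sum_inner, hA]
    push_cast
    refine Finset.sum_congr rfl fun i _ => ?_
    rw [inner_smul_left, Complex.conj_mul']
  have h5 : A ≤ ‖p‖ * ‖g‖ := by
    have h6 := norm_inner_le_norm (𝕜 := ℂ) p g
    rw [h4, Complex.norm_real, Real.norm_of_nonneg hA0] at h6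
    exact h6
  have h6 : A ^ 2 ≤ A * ‖g‖ ^ 2 := by
    calc A ^ 2 ≤ (‖p‖ * ‖g‖) ^ 2 := pow_le_pow_left₀ hA0 h5 2
      _ = ‖p‖ ^ 2 * ‖g‖ ^ 2 := by ring
      _ ≤ A * ‖g‖ ^ 2 := mul_le_mul_of_nonneg_right h3 (sq_nonneg _)
  rcases hA0.eq_or_lt with h7 | h7
  · rw [← h7]; positivity
  · nlinarith

/-- the rank one operators -/
noncomputable def T1 (v u : H) : H →L[ℂ] H := (innerSL ℂ v).smulRight u

lemma T1_apply (v u g : H) : T1 v u g = ⟪v, g⟫_ℂ • u := rfl

/-- norm convergence of the expansion of a Hilbert-Schmidt operator -/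
lemma hasSum_T1 {ι : Type} {f : ι → H} (ho : ∀ i j, i ≠ j → ⟪f i, f j⟫_ℂ = 0)
    (h1 : ∀ i, ‖f i‖ ≤ 1) (K : H →L[ℂ] H) (hs : Summable fun i => ‖K (f i)‖ ^ 2)
    (hsum : ∀ g, HasSum (fun i => ⟪f i, g⟫_ℂ • K (f i)) (K g)) :
    HasSum (fun i => T1 (f i) (K (f i))) K := by
  classical
  unfold HasSum
  rw [SummationFilter.unconditional_filter, Metric.tendsto_atTop]
  intro ε hε
  obtain ⟨s₀, hs₀⟩ := summable_iff_vanishing_norm.1 hs ((ε / 2) ^ 2) (by positivity)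
  refine ⟨s₀, fun s hss => ?_⟩
  rw [dist_eq_norm, ← norm_neg, neg_sub]
  refine lt_of_le_of_lt (ContinuousLinearMap.opNorm_le_bound _ (by positivity : 0 ≤ ε / 2)
    fun g => ?_) (by linarith : ε / 2 < ε)
  have h2 : (K - ∑ i ∈ s, T1 (f i) (K (f i))) g = K g - ∑ i ∈ s, ⟪f i, g⟫_ℂ • K (f i) := by
    rw [_root_.sub_apply, _root_.sum_apply]
    rfl
  rw [h2]
  have h3 : Tendsto (fun t : Finset ι => (∑ i ∈ t, ⟪f i, g⟫_ℂ • K (f i)) -
      ∑ i ∈ s, ⟪f i, g⟫_ℂ • K (f i)) atTop (𝓝 (K g - ∑ i ∈ s, ⟪f i, g⟫_ℂ • K (f i))) := by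
    have := hsum g
    unfold HasSum at this
    rw [SummationFilter.unconditional_filter] at this
    exact this.sub_const _
  refine le_of_tendsto h3.norm ?_
  filter_upwards [eventually_ge_atTop s] with t hst
  rw [← Finset.sum_sdiff (show s ⊆ t from hst), add_sub_cancel_right]
  have h4 : ∑ i ∈ t \ s, ‖K (f i)‖ ^ 2 ≤ (ε / 2) ^ 2 := by
    have h5 := hs₀ (t \ s) (Finset.disjoint_of_subset_right hss Finset.sdiff_disjoint)
    rw [Real.norm_of_nonneg (Finset.sum_nonneg fun _ _ => sq_nonneg _)] at h5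
    exact h5.le
  have h5 : ‖∑ i ∈ t \ s, ⟪f i, g⟫_ℂ • K (f i)‖ ^ 2 ≤ (ε / 2 * ‖g‖) ^ 2 := by
    calc ‖∑ i ∈ t \ s, ⟪f i, g⟫_ℂ • K (f i)‖ ^ 2
        ≤ (∑ i ∈ t \ s, ‖⟪f i, g⟫_ℂ‖ * ‖K (f i)‖) ^ 2 := by
          refine pow_le_pow_left₀ (norm_nonneg _) ((norm_sum_le _ _).trans ?_) 2
          exact Finset.sum_le_sum fun i _ => (norm_smul _ _).le
      _ ≤ (∑ i ∈ t \ s, ‖⟪f i, g⟫_ℂ‖ ^ 2) * ∑ i ∈ t \ s, ‖K (f i)‖ ^ 2 :=
          Finset.sum_mul_sq_le_sq_mul_sq _ _ _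
      _ ≤ ‖g‖ ^ 2 * (ε / 2) ^ 2 := by
          refine mul_le_mul (bess ho h1 _ g) h4 (Finset.sum_nonneg fun _ _ => sq_nonneg _)
            (sq_nonneg _)
      _ = _ := by ring
  exact le_of_sq_le_sq h5 (by positivity)

lemma T1_compact (v u : H) : IsCompactOperator (T1 v u) := by
  have h1 : IsCompactOperator (ContinuousLinearMap.toSpanSingleton ℂ u) :=
    isCompactOperator_of_locallyCompactSpace_rng (ContinuousLinearMap.toSpanSingleton ℂ u)
  exact h1.comp_clm (innerSL ℂ v)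

lemma compact_of_hasSum [CompleteSpace H] {ι : Type} {f g : ι → H} {K : H →L[ℂ] H}
    (h : HasSum (fun i => T1 (f i) (g i)) K) : IsCompactOperator K := by
  classical
  unfold HasSum at h
  rw [SummationFilter.unconditional_filter] at h
  refine isCompactOperator_of_tendsto h (Eventually.of_forall fun s => ?_)
  induction s using Finset.induction_on with
  | empty =>
    rw [Finset.sum_empty]
    exact isCompactOperator_zero
  | insert a s ha ih =>
    rw [Finset.sum_insert ha]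
    exact (T1_compact _ _).add ih

/-- Parseval's identity -/
lemma parseval {ι : Type} (b : HilbertBasis ι ℂ H) (x : H) :
    ∑' i, ENNReal.ofReal (‖⟪b i, x⟫_ℂ‖ ^ 2) = ENNReal.ofReal (‖x‖ ^ 2) := by
  have h1 := b.hasSum_inner_mul_inner x x
  have h2 : HasSum (fun i => ‖⟪b i, x⟫_ℂ‖ ^ 2) (‖x‖ ^ 2) := by
    have h3 : HasSum (fun i => ((‖⟪b i, x⟫_ℂ‖ ^ 2 : ℝ) : ℂ)) ((‖x‖ ^ 2 : ℝ) : ℂ) := by
      have e1 : ∀ i, ((‖⟪b i, x⟫_ℂ‖ ^ 2 : ℝ) : ℂ) = ⟪x, b i⟫_ℂ * ⟪b i, x⟫_ℂ := by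
        intro i
        rw [← inner_conj_symm x (b i), Complex.conj_mul']
        push_cast
        rfl
      have e2 : ((‖x‖ ^ 2 : ℝ) : ℂ) = ⟪x, x⟫_ℂ := by
        rw [inner_self_eq_norm_sq_to_K]
        push_cast
        rfl
      simp_rw [e1]
      rw [e2]
      exact h1
    exact_mod_cast h3
  rw [← h2.tsum_eq, ENNReal.ofReal_tsum_of_nonneg (fun i => sq_nonneg _) h2.summable]

/-- the Hilbert-Schmidt norm does not depend on the basis -/
lemma hs_indep [CompleteSpace H] {ι ι' : Type} (b : HilbertBasis ι ℂ H) (e : HilbertBasis ι' ℂ H)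
    (K : H →L[ℂ] H) (h : Summable fun i => ‖K (b i)‖ ^ 2) : Summable fun i => ‖K (e i)‖ ^ 2 := by
  have key : ∀ {α β : Type} (b : HilbertBasis α ℂ H) (e : HilbertBasis β ℂ H) (K : H →L[ℂ] H),
      ∑' i, ENNReal.ofReal (‖K (b i)‖ ^ 2) =
        ∑' j, ENNReal.ofReal (‖ContinuousLinearMap.adjoint K (e j)‖ ^ 2) := by
    intro α β b e K
    calc ∑' i, ENNReal.ofReal (‖K (b i)‖ ^ 2)
        = ∑' i, ∑' j, ENNReal.ofReal (‖⟪e j, K (b i)⟫_ℂ‖ ^ 2) := by
          refine tsum_congr fun i => (parseval e _).symm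
      _ = ∑' j, ∑' i, ENNReal.ofReal (‖⟪e j, K (b i)⟫_ℂ‖ ^ 2) := ENNReal.tsum_comm
      _ = ∑' j, ∑' i, ENNReal.ofReal (‖⟪b i, ContinuousLinearMap.adjoint K (e j)⟫_ℂ‖ ^ 2) := by
          refine tsum_congr fun j => tsum_congr fun i => ?_
          rw [ContinuousLinearMap.adjoint_inner_right, ← inner_conj_symm, RCLike.norm_conj]
      _ = _ := tsum_congr fun j => parseval b _
  have h1 : ∑' i, ENNReal.ofReal (‖K (e i)‖ ^ 2) = ∑' i, ENNReal.ofReal (‖K (b i)‖ ^ 2) := by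
    rw [key e b K, key b b K]
  have h2 : ∑' i, ENNReal.ofReal (‖K (b i)‖ ^ 2) ≠ ⊤ := by
    rw [← ENNReal.ofReal_tsum_of_nonneg (fun i => sq_nonneg _) h]
    exact ENNReal.ofReal_ne_top
  rw [← h1] at h2
  have h3 := ENNReal.summable_toReal h2
  refine h3.congr fun i => ?_
  rw [ENNReal.toReal_ofReal (sq_nonneg _)]

/-- an orthonormal basis of eigenvectors of a compact self-adjoint operator -/
lemma eigenbasis [CompleteSpace H] (T : H →L[ℂ] H) (hT : IsCompactOperator T)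
    (hs : (T : H →ₗ[ℂ] H).IsSymmetric) :
    ∃ (ι : Type) (e : HilbertBasis ι ℂ H) (la : ι → ℂ), ∀ i, T (e i) = la i • e i := by
  have hclosed : ∀ c : ℂ, IsClosed (Module.End.eigenspace (T : Module.End ℂ H) c : Set H) := by
    intro c
    have h1 : (Module.End.eigenspace (T : Module.End ℂ H) c : Set H) = {x | T x = c • x} := by
      ext x
      exact Module.End.mem_eigenspace_iff
    rw [h1]
    exact isClosed_eq T.continuous (continuous_const_smul c)
  have hcomp : ∀ c : ℂ, CompleteSpace (Module.End.eigenspace (T : Module.End ℂ H) c) := fun c =>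
    (hclosed c).completeSpace_coe
  have hex : ∀ c : ℂ, ∃ (w : Set (Module.End.eigenspace (T : Module.End ℂ H) c))
      (b : HilbertBasis w ℂ (Module.End.eigenspace (T : Module.End ℂ H) c)),
      ⇑b = ((↑) : w → Module.End.eigenspace (T : Module.End ℂ H) c) := fun c =>
    exists_hilbertBasis ℂ _
  choose w b hb using hex
  have horth := hs.orthogonalFamily_eigenspaces
  have hon := horth.orthonormal_sigma_orthonormal (α := fun c => w c)
    (v_family := fun c => ⇑(b c)) (fun c => (b c).orthonormal)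
  have hbot : (Submodule.span ℂ (Set.range fun a : (Σ c : ℂ, w c) =>
      ((Module.End.eigenspace (T : Module.End ℂ H) a.1).subtypeₗᵢ (b a.1 a.2))))ᗮ = ⊥ := by
    rw [eq_bot_iff]
    intro x hx
    have h1 : x ∈ (⨆ c, Module.End.eigenspace (T : Module.End ℂ H) c)ᗮ := by
      have hle : (⨆ c, Module.End.eigenspace (T : Module.End ℂ H) c) ≤ (Submodule.span ℂ {x})ᗮ := by
        refine iSup_le fun c y hy => ?_
        rw [Submodule.mem_orthogonal_singleton_iff_inner_right]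
        have h2 := (b c).hasSum_repr ⟨y, hy⟩
        have h3 := (h2.mapL ((Module.End.eigenspace (T : Module.End ℂ H) c).subtypeL)).mapL
          ((innerSL ℂ x : H →L[ℂ] ℂ))
        have h4 : ∀ i, (innerSL ℂ x : H →L[ℂ] ℂ) ((Module.End.eigenspace (T : Module.End ℂ H)
            c).subtypeL ((b c).repr ⟨y, hy⟩ i • b c i)) = 0 := by
          intro i
          rw [map_smul, map_smul, innerSL_apply_apply]
          have h5 : ⟪((Module.End.eigenspace (T : Module.End ℂ H) c).subtypeₗᵢ (b c i)), x⟫_ℂ = 0 :=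
            (Submodule.mem_orthogonal _ _).1 hx _ (Submodule.subset_span ⟨⟨c, i⟩, rfl⟩)
          have h6 : ⟪x, (Module.End.eigenspace (T : Module.End ℂ H) c).subtypeL (b c i)⟫_ℂ = 0 := by
            rw [← inner_conj_symm]
            have : ⟪(Module.End.eigenspace (T : Module.End ℂ H) c).subtypeL (b c i), x⟫_ℂ = 0 := h5
            rw [this, map_zero]
          rw [h6, smul_zero]
        have h7 : (innerSL ℂ x : H →L[ℂ] ℂ)
            ((Module.End.eigenspace (T : Module.End ℂ H) c).subtypeL ⟨y, hy⟩) = 0 := by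
          refine h3.unique ?_
          simp_rw [h4]
          exact hasSum_zero
        exact h7
      rw [Submodule.mem_orthogonal]
      intro y hy
      have h8 : ⟪x, y⟫_ℂ = 0 :=
        (Submodule.mem_orthogonal_singleton_iff_inner_right).1 (hle hy)
      rw [← inner_conj_symm, h8, map_zero]
    rw [ContinuousLinearMap.orthogonalComplement_iSup_eigenspaces_eq_bot hT hs] at h1
    exact h1
  refine ⟨Σ c : ℂ, w c, HilbertBasis.mkOfOrthogonalEqBot hon hbot, fun a => a.1, fun a => ?_⟩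
  rw [HilbertBasis.coe_mkOfOrthogonalEqBot]
  exact Module.End.mem_eigenspace_iff.1 (b a.1 a.2).2

end Pool.Agent.K4H47.HS
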