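import Pool.Agent.K4H47.HS.Svd1
import Pool.Agent.K4H47.HS.Rep

/-!
# Project HS: Hilbert-Schmidt operators have representations with levels
-/

set_option autoImplicit false

namespace Pool.Agent.K4H47.HS

open Set Metric Filter Topology
open scoped InnerProductSpace ENNReal NNReal ComplexConjugate
open Pool.Agent.Y283.NK

variable {H : Type} [NormedAddCommGroup H] [InnerProductSpace ℂ H] [CompleteSpace H]

/-- a sequence of Schmidt vectors -/
lemma schmidt_seq (K : H →L[ℂ] H) {ι : Type} (b : HilbertBasis ι ℂ H)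
    (hb : Summable fun i => ‖K (b i)‖ ^ 2) :
    ∃ e : ℕ → H, (∀ i j, i ≠ j → ⟪e i, e j⟫_ℂ = 0) ∧ (∀ i, ‖e i‖ ≤ 1) ∧
      (∀ i j, i ≠ j → ⟪K (e i), K (e j)⟫_ℂ = 0) ∧ (Summable fun i => ‖K (e i)‖ ^ 2) ∧
      HasSum (fun i => T1 (e i) (K (e i))) K := by
  classical
  have hexp : ∀ {κ : Type} (e : HilbertBasis κ ℂ H) (g : H),
      HasSum (fun i => ⟪e i, g⟫_ℂ • K (e i)) (K g) := by
    intro κ e g
    have h1 := (e.hasSum_repr g).mapL K
    refine h1.congr_fun fun i => ?_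
    rw [map_smul, e.repr_apply_apply]
  have horth : ∀ {κ : Type} (e : HilbertBasis κ ℂ H) (i j : κ), i ≠ j → ⟪e i, e j⟫_ℂ = 0 :=
    fun e i j hij => e.orthonormal.2 hij
  have hn1 : ∀ {κ : Type} (e : HilbertBasis κ ℂ H) (i : κ), ‖e i‖ ≤ 1 := fun e i =>
    (e.orthonormal.1 i).le
  have hKc : IsCompactOperator K :=
    compact_of_hasSum (hasSum_T1 (horth b) (hn1 b) K hb (hexp b))
  set T : H →L[ℂ] H := (ContinuousLinearMap.adjoint K).comp K with hT
  have hTc : IsCompactOperator T := hKc.clm_comp (ContinuousLinearMap.adjoint K)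
  have hTs : (T : H →ₗ[ℂ] H).IsSymmetric := by
    intro x y
    show ⟪ContinuousLinearMap.adjoint K (K x), y⟫_ℂ = ⟪x, ContinuousLinearMap.adjoint K (K y)⟫_ℂ
    rw [ContinuousLinearMap.adjoint_inner_left, ContinuousLinearMap.adjoint_inner_right]
  obtain ⟨κ, e, la, he⟩ := eigenbasis T hTc hTs
  have hKs : Summable fun i => ‖K (e i)‖ ^ 2 := hs_indep b e K hb
  have hKo : ∀ i j, i ≠ j → ⟪K (e i), K (e j)⟫_ℂ = 0 := by
    intro i j hij
    rw [← ContinuousLinearMap.adjoint_inner_left]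
    have h1 : ContinuousLinearMap.adjoint K (K (e i)) = la i • e i := he i
    rw [h1, inner_smul_left, horth e i j hij, mul_zero]
  -- the countable support
  set J : Set κ := Function.support fun i => ‖K (e i)‖ ^ 2 with hJ
  have hJc : J.Countable := hKs.countable_support
  have : Countable J := hJc.to_subtype
  obtain ⟨f, hf⟩ := exists_injective_nat J
  have hKz : ∀ i, i ∉ J → K (e i) = 0 := by
    intro i hi
    rw [hJ, Function.mem_support, not_not] at hi
    exact norm_eq_zero.1 (pow_eq_zero_iff (two_ne_zero) |>.1 hi)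
  set e' : ℕ → H := Function.extend f (fun i : J => e i) (fun _ => 0) with he'
  have hval : ∀ i : J, e' (f i) = e i := fun i => hf.extend_apply _ _ i
  have hout : ∀ m, (¬ ∃ i, f i = m) → e' m = 0 := fun m hm => Function.extend_apply' _ _ _ hm
  have hcases : ∀ m, (∃ i : J, f i = m ∧ e' m = e i) ∨ e' m = 0 := by
    intro m
    by_cases hm : ∃ i, f i = m
    · obtain ⟨i, hi⟩ := hm
      left
      exact ⟨i, hi, by rw [← hi]; exact hval i⟩
    · right
      exact hout m hm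
  refine ⟨e', ?_, ?_, ?_, ?_, ?_⟩
  · intro m k hmk
    rcases hcases m with ⟨i, hi, hi2⟩ | h0
    · rcases hcases k with ⟨j, hj, hj2⟩ | h0
      · rw [hi2, hj2]
        refine horth e _ _ fun hij => hmk ?_
        have : i = j := Subtype.ext hij
        rw [← hi, ← hj, this]
      · rw [h0, inner_zero_right]
    · rw [h0, inner_zero_left]
  · intro m
    rcases hcases m with ⟨i, hi, hi2⟩ | h0
    · rw [hi2]; exact hn1 e i
    · rw [h0, norm_zero]; exact zero_le_one
  · intro m k hmk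
    rcases hcases m with ⟨i, hi, hi2⟩ | h0
    · rcases hcases k with ⟨j, hj, hj2⟩ | h0
      · rw [hi2, hj2]
        refine hKo _ _ fun hij => hmk ?_
        have : i = j := Subtype.ext hij
        rw [← hi, ← hj, this]
      · rw [h0, map_zero, inner_zero_right]
    · rw [h0, map_zero, inner_zero_left]
  · have h1 : Summable ((fun m => ‖K (e' m)‖ ^ 2) ∘ f) := by
      have h2 : ((fun m => ‖K (e' m)‖ ^ 2) ∘ f) = (fun i => ‖K (e i)‖ ^ 2) ∘ ((↑) : J → κ) := by
        funext i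
        simp only [Function.comp_apply, hval]
      rw [h2]
      exact hKs.subtype J
    refine (hf.summable_iff fun m hm => ?_).1 h1
    rw [hout m (fun ⟨i, hi⟩ => hm ⟨i, hi⟩), map_zero, norm_zero]
    simp
  · have hT := hasSum_T1 (horth e) (hn1 e) K hKs (hexp e)
    have h1 : HasSum ((fun i => T1 (e i) (K (e i))) ∘ ((↑) : J → κ)) K := by
      refine (hasSum_subtype_iff_of_support_subset ?_).2 hT
      intro i hi
      by_contra hcon
      apply hi
      simp only [hKz i hcon]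
      ext g
      rw [T1_apply, smul_zero]
      rfl
    have h2 : ((fun m => T1 (e' m) (K (e' m))) ∘ f) =
        (fun i => T1 (e i) (K (e i))) ∘ ((↑) : J → κ) := by
      funext i
      simp only [Function.comp_apply, hval]
    rw [← h2] at h1
    refine (hf.hasSum_iff fun m hm => ?_).1 h1
    rw [hout m (fun ⟨i, hi⟩ => hm ⟨i, hi⟩), map_zero]
    ext g
    rw [T1_apply, smul_zero]
    rfl

/-- **representation with levels** -/
theorem exists_hsr (K : H →L[ℂ] H) {ι : Type} (b : HilbertBasis ι ℂ H)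
    (hb : Summable fun i => ‖K (b i)‖ ^ 2) :
    ∃ (u v : ℕ → H) (l : ℕ → ℕ) (L : ℝ), HSR K u v l L := by
  obtain ⟨e, he1, he2, he3, he4, he5⟩ := schmidt_seq K b hb
  set κ : ℕ → ℝ := fun j => ‖K (e j)‖ with hκ
  have hκ0 : ∀ j, 0 ≤ κ j := fun j => norm_nonneg _
  set κ' : ℕ → ℝ := fun j => κ j + (1 / 2 : ℝ) ^ j with hκ'
  have hκ'0 : ∀ j, 0 < κ' j := fun j => by
    have := hκ0 j
    simp only [hκ']
    positivity
  have hκ's : Summable fun j => κ' j ^ 2 := by
    have h1 : Summable fun j => 2 * κ j ^ 2 + 2 * ((1 / 4 : ℝ)) ^ j :=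
      (he4.mul_left 2).add ((summable_geometric_of_lt_one (by norm_num) (by norm_num)).mul_left 2)
    refine Summable.of_nonneg_of_le (fun j => sq_nonneg _) (fun j => ?_) h1
    have h2 : ((1 / 4 : ℝ)) ^ j = ((1 / 2 : ℝ) ^ j) ^ 2 := by
      rw [← pow_mul, mul_comm, pow_mul]
      norm_num
    rw [h2]
    simp only [hκ']
    nlinarith [sq_nonneg (κ j - (1 / 2 : ℝ) ^ j)]
  set L : ℝ := 1 + ∑' j, κ' j ^ 2 with hL
  have hL0 : 1 ≤ L := by
    have : 0 ≤ ∑' j, κ' j ^ 2 := tsum_nonneg fun j => sq_nonneg _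
    linarith
  have hκL : ∀ j, κ' j ≤ L := by
    intro j
    have h1 : κ' j ^ 2 ≤ ∑' j, κ' j ^ 2 := hκ's.le_tsum j fun i _ => sq_nonneg _
    nlinarith [sq_nonneg (κ' j - 1), hκ'0 j]
  have hlev : ∀ j, ∃ n : ℕ, (16:ℝ)⁻¹ ^ (n + 1) < κ' j / L ∧ κ' j / L ≤ (16:ℝ)⁻¹ ^ n := by
    intro j
    refine exists_nat_pow_near_of_lt_one (div_pos (hκ'0 j) (by linarith)) ?_ (by norm_num)
      (by norm_num)
    rw [div_le_one (by linarith)]
    exact hκL j
  choose l hl1 hl2 using hlev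
  have hLp : 0 < L := by linarith
  have hκth : ∀ j, κ j ≤ L * th (l j) := by
    intro j
    have h1 := hl2 j
    rw [div_le_iff₀ hLp] at h1
    have h2 : κ j ≤ κ' j := by
      simp only [hκ']
      have : (0:ℝ) ≤ (1 / 2) ^ j := by positivity
      linarith
    calc κ j ≤ κ' j := h2
      _ ≤ (16:ℝ)⁻¹ ^ l j * L := h1
      _ = _ := by rw [th, mul_comm]
  set v : ℕ → H := fun j => ((Real.sqrt (κ j) : ℝ) : ℂ) • e j with hv
  set f : ℕ → H := fun j => (((κ j)⁻¹ : ℝ) : ℂ) • K (e j) with hf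
  set u : ℕ → H := fun j => ((Real.sqrt (κ j) : ℝ) : ℂ) • f j with hu
  have hfo : ∀ i j, i ≠ j → ⟪f i, f j⟫_ℂ = 0 := by
    intro i j hij
    simp only [hf]
    rw [inner_smul_left, inner_smul_right, he3 i j hij, mul_zero, mul_zero]
  have hf1 : ∀ i, ‖f i‖ ≤ 1 := by
    intro i
    simp only [hf]
    rw [norm_smul, Complex.norm_real, Real.norm_eq_abs, abs_of_nonneg (inv_nonneg.2 (hκ0 i))]
    rcases (hκ0 i).eq_or_lt with h | h
    · rw [← h]; simp
    · have : ‖K (e i)‖ = κ i := rfl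
      rw [this, inv_mul_cancel₀ h.ne']
  have hgen : ∀ w : ℕ → H, (∀ i j, i ≠ j → ⟪w i, w j⟫_ℂ = 0) → (∀ i, ‖w i‖ ≤ 1) →
      Lev (fun j => ((Real.sqrt (κ j) : ℝ) : ℂ) • w j) l L := by
    intro w hw1 hw2
    refine ⟨hLp, fun k s hs g => ?_⟩
    calc ∑ j ∈ s, ‖⟪((Real.sqrt (κ j) : ℝ) : ℂ) • w j, g⟫_ℂ‖ ^ 2
        = ∑ j ∈ s, κ j * ‖⟪w j, g⟫_ℂ‖ ^ 2 := by
          refine Finset.sum_congr rfl fun j _ => ?_
          rw [inner_smul_left, norm_mul, Complex.conj_ofReal, Complex.norm_real, Real.norm_eq_abs,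
            abs_of_nonneg (Real.sqrt_nonneg _), mul_pow, Real.sq_sqrt (hκ0 j)]
      _ ≤ ∑ j ∈ s, (L * th k) * ‖⟪w j, g⟫_ℂ‖ ^ 2 := by
          refine Finset.sum_le_sum fun j hj => mul_le_mul_of_nonneg_right ?_ (sq_nonneg _)
          rw [← hs j hj]
          exact hκth j
      _ = (L * th k) * ∑ j ∈ s, ‖⟪w j, g⟫_ℂ‖ ^ 2 := by rw [Finset.mul_sum]
      _ ≤ _ := mul_le_mul_of_nonneg_left (bess hw1 hw2 s g)
          (mul_nonneg hLp.le (th_pos k).le)
  refine ⟨u, v, l, L, hgen f hfo hf1, hgen e he1 he2, ?_, ?_⟩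
  · have h1 : Summable fun j => (16 / L) ^ 2 * κ' j ^ 2 := hκ's.mul_left _
    refine Summable.of_nonneg_of_le (fun j => sq_nonneg _) (fun j => ?_) h1
    have h2 : th (l j) ≤ 16 / L * κ' j := by
      have h3 := (hl1 j).le
      rw [pow_succ] at h3
      have h4 : th (l j) * (16:ℝ)⁻¹ ≤ κ' j / L := h3
      calc th (l j) = (th (l j) * (16:ℝ)⁻¹) * 16 := by ring
        _ ≤ κ' j / L * 16 := by gcongr
        _ = _ := by ring
    rw [← mul_pow]
    exact pow_le_pow_left₀ (th_pos _).le h2 2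
  · have h1 : ∀ n, fr u v n = ∑ j ∈ Finset.range n, T1 (e j) (K (e j)) := by
      intro n
      unfold fr
      refine Finset.sum_congr rfl fun j _ => ?_
      ext1 g
      rw [T1_apply, ContinuousLinearMap.smulRight_apply, innerSL_apply_apply]
      simp only [hu, hv, hf]
      rw [inner_smul_left, Complex.conj_ofReal, smul_smul, smul_smul]
      rcases (hκ0 j).eq_or_lt with h | h
      · have h0 : K (e j) = 0 := norm_eq_zero.1 h.symm
        rw [h0, smul_zero, smul_zero]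
      · congr 1
        have h2 : ((Real.sqrt (κ j) : ℝ) : ℂ) * ((Real.sqrt (κ j) : ℝ) : ℂ) = ((κ j : ℝ) : ℂ) := by
          rw [← Complex.ofReal_mul, Real.mul_self_sqrt h.le]
        have h3 : ((κ j : ℝ) : ℂ) ≠ 0 := by exact_mod_cast h.ne'
        calc ((Real.sqrt (κ j) : ℝ) : ℂ) * ⟪e j, g⟫_ℂ * ((Real.sqrt (κ j) : ℝ) : ℂ) *
              (((κ j)⁻¹ : ℝ) : ℂ)
            = (((Real.sqrt (κ j) : ℝ) : ℂ) * ((Real.sqrt (κ j) : ℝ) : ℂ)) *
              (((κ j)⁻¹ : ℝ) : ℂ) * ⟪e j, g⟫_ℂ := by ring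
          _ = _ := by
              rw [h2, Complex.ofReal_inv, mul_inv_cancel₀ h3, one_mul]
    simp_rw [h1]
    exact he5.tendsto_sum_nat

end Pool.Agent.K4H47.HS
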